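import Mathlib
import Pool.Agent.Helper70.Bent.Forms

/-! # Inverse Fourier transform and the field with 512 elements. -/

set_option autoImplicit false

namespace Pool.Agent.Helper91.BentD

open Pool.Agent.Helper70.Bent

section Dft

variable {K : Type*} [Field K] [Algebra (ZMod 2) K]

lemma order_z (z : K) (hz : z ^ 73 = 1) (hz1 : z ≠ 1) : orderOf z = 73 := by
  haveI : Fact (Nat.Prime 73) := ⟨by norm_num⟩
  exact orderOf_eq_prime hz hz1

lemma geom_zero (w : K) (hw : w ^ 73 = 1) (hw1 : w ≠ 1) : ∑ k ∈ Finset.range 73, w ^ k = 0 := by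
  have h := geom_sum_mul w 73
  rw [hw, sub_self] at h
  rcases mul_eq_zero.mp h with h | h
  · exact h
  · exact absurd (sub_eq_zero.mp h) hw1

lemma geom_one : ∑ k ∈ Finset.range 73, (1 : K) ^ k = 1 := by
  have h := two_zero K
  simp only [one_pow, Finset.sum_const, Finset.card_range, nsmul_eq_mul, mul_one]
  have : ((73 : ℕ) : K) = 36 * 2 + 1 := by norm_num
  rw [this, h]
  ring

lemma geom_ite (z : K) (hz : z ^ 73 = 1) (hz1 : z ≠ 1) (m : ℕ) :
    ∑ k ∈ Finset.range 73, (z ^ m) ^ k = if m % 73 = 0 then 1 else 0 := by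
  split_ifs with h
  · have : z ^ m = 1 := by
      obtain ⟨c, hc⟩ := Nat.dvd_of_mod_eq_zero h
      rw [hc, pow_mul, hz, one_pow]
    rw [this]
    exact geom_one
  · apply geom_zero
    · rw [← pow_mul, mul_comm, pow_mul, hz, one_pow]
    · intro h1
      have := orderOf_dvd_of_pow_eq_one h1
      rw [order_z z hz hz1] at this
      exact h (Nat.mod_eq_zero_of_dvd this)

lemma P_inv (z : K) (hz : z ^ 73 = 1) (hz1 : z ≠ 1) (x : V) (i0 : Fin 146) (h0 : i0.val % 2 = 0) :
    ∑ k ∈ Finset.range 73, (z ^ (146 - i0.val)) ^ k * P z k x = x i0 • (1 : K) := by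
  have h1 : ∀ k ∈ Finset.range 73, (z ^ (146 - i0.val)) ^ k * P z k x =
      ∑ i : Fin 146, x i • (if i.val % 2 = 0 then (z ^ (146 - i0.val + i.val)) ^ k else 0) := by
    intro k _
    rw [P_apply, Finset.mul_sum]
    refine Finset.sum_congr rfl fun i _ => ?_
    rw [mul_smul_comm]
    congr 1
    simp only [wP]
    split_ifs
    · rw [← pow_mul, ← pow_mul, ← pow_add]
      congr 1
      ring
    · rw [mul_zero]
  rw [Finset.sum_congr rfl h1, Finset.sum_comm]
  rw [Finset.sum_eq_single i0]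
  · rw [← Finset.smul_sum]
    congr 1
    simp only [h0, if_true]
    rw [geom_ite z hz hz1, if_pos]
    have := i0.isLt
    omega
  · intro i _ hi
    rw [← Finset.smul_sum]
    by_cases h2 : i.val % 2 = 0
    · simp only [h2, if_true]
      rw [geom_ite z hz hz1, if_neg, smul_zero]
      have h3 := i0.isLt
      have h4 := i.isLt
      have h5 : i.val ≠ i0.val := fun h => hi (Fin.ext h)
      omega
    · simp [h2]
  · intro h
    exact absurd (Finset.mem_univ _) h

lemma Q_inv (z : K) (hz : z ^ 73 = 1) (hz1 : z ≠ 1) (x : V) (i0 : Fin 146) (h0 : ¬ i0.val % 2 = 0) :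
    ∑ k ∈ Finset.range 73, (z ^ (146 - i0.val)) ^ k * Q z k x = x i0 • (1 : K) := by
  have h1 : ∀ k ∈ Finset.range 73, (z ^ (146 - i0.val)) ^ k * Q z k x =
      ∑ i : Fin 146, x i • (if i.val % 2 = 0 then 0 else (z ^ (146 - i0.val + i.val)) ^ k) := by
    intro k _
    rw [Q_apply, Finset.mul_sum]
    refine Finset.sum_congr rfl fun i _ => ?_
    rw [mul_smul_comm]
    congr 1
    simp only [wQ]
    split_ifs
    · rw [mul_zero]
    · rw [← pow_mul, ← pow_mul, ← pow_add]
      congr 1
      ring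
  rw [Finset.sum_congr rfl h1, Finset.sum_comm]
  rw [Finset.sum_eq_single i0]
  · rw [← Finset.smul_sum]
    congr 1
    simp only [h0, if_false]
    rw [geom_ite z hz hz1, if_pos]
    have := i0.isLt
    omega
  · intro i _ hi
    rw [← Finset.smul_sum]
    by_cases h2 : i.val % 2 = 0
    · simp [h2]
    · simp only [h2, if_false]
      rw [geom_ite z hz hz1, if_neg, smul_zero]
      have h3 := i0.isLt
      have h4 := i.isLt
      have h5 : i.val ≠ i0.val := fun h => hi (Fin.ext h)
      omega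
  · intro h
    exact absurd (Finset.mem_univ _) h

lemma P_zero (z : K) (x : V) : P z 0 x = algebraMap (ZMod 2) K (sP x) := by
  rw [P_apply, sP_apply, map_sum]
  refine Finset.sum_congr rfl fun i _ => ?_
  simp only [wP, zero_mul, pow_zero]
  split_ifs
  · rw [Algebra.smul_def, smul_eq_mul, mul_one, mul_one]
  · simp

lemma Q_zero (z : K) (x : V) : Q z 0 x = algebraMap (ZMod 2) K (sQ x) := by
  rw [Q_apply, sQ_apply, map_sum]
  refine Finset.sum_congr rfl fun i _ => ?_
  simp only [wQ, zero_mul, pow_zero]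
  split_ifs
  · simp
  · rw [Algebra.smul_def, smul_eq_mul, mul_one, mul_one]

/-- representatives of the eight cyclotomic classes -/
def rep : Fin 8 → ℕ := ![1, 5, 17, 15, 72, 25, 3, 58]

lemma rep_cover : ∀ k < 73, k ≠ 0 → ∃ b : Fin 8, ∃ j < 9, rep b * 2 ^ j % 73 = k := by
  decide +kernel

/-- all spectral data of a vector -/
def Phi (z : K) (x : V) : (ZMod 2 × ZMod 2) × (Fin 8 → K) × (Fin 8 → K) :=
  ((sP x, sQ x), (fun b => P z (rep b) x), (fun b => Q z (rep b) x))

lemma Phi_inj (z : K) (hz : z ^ 73 = 1) (hz1 : z ≠ 1) : Function.Injective (Phi z : V → _) := by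
  intro x y hxy
  have hs : sP (x - y) = 0 ∧ sQ (x - y) = 0 ∧ (∀ b, P z (rep b) (x - y) = 0) ∧
      (∀ b, Q z (rep b) (x - y) = 0) := by
    simp only [Phi, Prod.mk.injEq] at hxy
    obtain ⟨⟨h1, h2⟩, h3, h4⟩ := hxy
    refine ⟨?_, ?_, ?_, ?_⟩
    · rw [map_sub, h1, sub_self]
    · rw [map_sub, h2, sub_self]
    · intro b
      rw [map_sub, congrFun h3 b, sub_self]
    · intro b
      rw [map_sub, congrFun h4 b, sub_self]
  obtain ⟨h1, h2, h3, h4⟩ := hs
  have hP : ∀ k ∈ Finset.range 73, P z k (x - y) = 0 := by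
    intro k hk
    rw [Finset.mem_range] at hk
    by_cases h0 : k = 0
    · rw [h0, P_zero, h1, map_zero]
    · obtain ⟨b, j, _, hj⟩ := rep_cover k hk h0
      rw [P_pow z hz (rep b) j k (by rw [hj, Nat.mod_eq_of_lt hk]), h3,
        zero_pow (pow_ne_zero _ two_ne_zero)]
  have hQ : ∀ k ∈ Finset.range 73, Q z k (x - y) = 0 := by
    intro k hk
    rw [Finset.mem_range] at hk
    by_cases h0 : k = 0
    · rw [h0, Q_zero, h2, map_zero]
    · obtain ⟨b, j, _, hj⟩ := rep_cover k hk h0
      rw [Q_pow z hz (rep b) j k (by rw [hj, Nat.mod_eq_of_lt hk]), h4,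
        zero_pow (pow_ne_zero _ two_ne_zero)]
  have hxy0 : x - y = 0 := by
    funext i
    have key : (x - y) i • (1 : K) = 0 := by
      by_cases hi : i.val % 2 = 0
      · rw [← P_inv z hz hz1 (x - y) i hi]
        exact Finset.sum_eq_zero fun k hk => by rw [hP k hk, mul_zero]
      · rw [← Q_inv z hz hz1 (x - y) i hi]
        exact Finset.sum_eq_zero fun k hk => by rw [hQ k hk, mul_zero]
    rcases smul_eq_zero.mp key with h | h
    · exact h
    · exact absurd h one_ne_zero
  exact sub_eq_zero.mp hxy0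

lemma Phi_bij [Finite K] (hcard : Nat.card K = 512) (z : K) (hz : z ^ 73 = 1) (hz1 : z ≠ 1) :
    Function.Bijective (Phi z : V → _) := by
  have hfin := Fintype.ofFinite K
  rw [Nat.bijective_iff_injective_and_card]
  refine ⟨Phi_inj z hz hz1, ?_⟩
  simp only [Nat.card_prod, Nat.card_fun, hcard, Nat.card_zmod, Nat.card_fin]
  norm_num

theorem hsurj [Finite K] (hcard : Nat.card K = 512) (z : K) (hz : z ^ 73 = 1) (hz1 : z ≠ 1) :
    ∀ (s : ZMod 2) (a : Fin 8 → K), ∃ c ∈ C z, sP c = s ∧ P z 72 c = a 0 ∧ Q z 72 c = a 1 ∧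
      P z 25 c = a 2 ∧ Q z 25 c = a 3 ∧ P z 3 c = a 4 ∧ Q z 3 c = a 5 ∧ P z 58 c = a 6 ∧
      Q z 58 c = a 7 := by
  intro s a
  obtain ⟨c, hc⟩ := (Phi_bij hcard z hz hz1).2
    ((s, s), ![0, 0, 0, 0, a 0, a 2, a 4, a 6], ![0, 0, 0, 0, a 1, a 3, a 5, a 7])
  simp only [Phi, Prod.mk.injEq] at hc
  obtain ⟨⟨h1, h2⟩, h3, h4⟩ := hc
  have hp := congrFun h3
  have hq := congrFun h4
  have hss : s + s = 0 := by
    have h22 : ∀ r : ZMod 2, r + r = 0 := by decide
    exact h22 s
  refine ⟨c, ?_, h1, hp 4, hq 4, hp 5, hq 5, hp 6, hq 6, hp 7, hq 7⟩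
  rw [mem_C]
  exact ⟨by rw [h1, h2, hss], ⟨hp 0, hp 1, hp 2, hp 3⟩, hq 0, hq 1, hq 2, hq 3⟩

theorem card_C [Finite K] (hcard : Nat.card K = 512) (z : K) (hz : z ^ 73 = 1) (hz1 : z ≠ 1) :
    Nat.card (C z) = 2 ^ 73 := by
  have hfin := Fintype.ofFinite K
  have hinj := Phi_inj z hz hz1
  have hsur := hsurj hcard z hz hz1
  let g : C z → ZMod 2 × (Fin 8 → K) := fun c =>
    (sP (c : V), ![P z 72 (c : V), Q z 72 (c : V), P z 25 (c : V), Q z 25 (c : V), P z 3 (c : V),
      Q z 3 (c : V), P z 58 (c : V), Q z 58 (c : V)])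
  have hg : Function.Bijective g := by
    constructor
    · rintro ⟨c, hc⟩ ⟨d, hd⟩ h
      simp only [g, Prod.mk.injEq] at h
      obtain ⟨h1, h2⟩ := h
      have h3 := congrFun h2
      rw [mem_C] at hc hd
      obtain ⟨c0, ⟨c1, c2, c3, c4⟩, c5, c6, c7, c8⟩ := hc
      obtain ⟨d0, ⟨d1, d2, d3, d4⟩, d5, d6, d7, d8⟩ := hd
      have hcd : c = d := by
        apply hinj
        simp only [Phi, Prod.mk.injEq]
        refine ⟨⟨h1, ?_⟩, ?_, ?_⟩
        · have e1 : sQ c = - sP c := by linear_combination c0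
          have e2 : sQ d = - sP d := by linear_combination d0
          rw [e1, e2, h1]
        · funext b
          fin_cases b
          · exact c1.trans d1.symm
          · exact c2.trans d2.symm
          · exact c3.trans d3.symm
          · exact c4.trans d4.symm
          · exact h3 0
          · exact h3 2
          · exact h3 4
          · exact h3 6
        · funext b
          fin_cases b
          · exact c5.trans d5.symm
          · exact c6.trans d6.symm
          · exact c7.trans d7.symm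
          · exact c8.trans d8.symm
          · exact h3 1
          · exact h3 3
          · exact h3 5
          · exact h3 7
      exact Subtype.ext hcd
    · rintro ⟨s, a⟩
      obtain ⟨c, hc, h0, h1, h2, h3, h4, h5, h6, h7, h8⟩ := hsur s a
      refine ⟨⟨c, hc⟩, ?_⟩
      simp only [g, Prod.mk.injEq]
      refine ⟨h0, ?_⟩
      funext b
      fin_cases b
      · exact h1
      · exact h2
      · exact h3
      · exact h4
      · exact h5
      · exact h6
      · exact h7
      · exact h8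
  rw [Nat.card_eq_of_bijective g hg]
  simp only [Nat.card_prod, Nat.card_fun, hcard, Nat.card_zmod, Nat.card_fin]
  norm_num

end Dft

section Field

/-- the field with 512 elements -/
abbrev K9 := GaloisField 2 9

noncomputable instance : Fintype K9 := Fintype.ofFinite _

lemma card_K9 : Nat.card K9 = 512 := by
  rw [GaloisField.card 2 9 (by norm_num)]
  norm_num

lemma fcard_K9 : Fintype.card K9 = 512 := by
  rw [← Nat.card_eq_fintype_card]
  exact card_K9

lemma pow_512 (w : K9) : w ^ 512 = w := by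
  rw [← fcard_K9]
  exact FiniteField.pow_card w

lemma exists_z : ∃ z : K9, z ^ 73 = 1 ∧ z ≠ 1 := by
  obtain ⟨g, hg⟩ := IsCyclic.exists_ofOrder_eq_natCard (α := K9ˣ)
  have hc : Nat.card K9ˣ = 511 := by
    rw [Nat.card_units, card_K9]
  rw [hc] at hg
  refine ⟨((g ^ 7 : K9ˣ) : K9), ?_, ?_⟩
  · rw [← Units.val_pow_eq_pow_val, ← pow_mul]
    have : g ^ (7 * 73) = 1 := by
      rw [show 7 * 73 = orderOf g by rw [hg]]
      exact pow_orderOf_eq_one g
    rw [this, Units.val_one]
  · intro h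
    have h1 : g ^ 7 = 1 := Units.ext h
    have := orderOf_dvd_of_pow_eq_one h1
    rw [hg] at this
    norm_num at this

/-- the trace -/
noncomputable def T9 : K9 →+ ZMod 2 := (Algebra.trace (ZMod 2) K9).toAddMonoidHom

lemma T9_apply (w : K9) : T9 w = Algebra.trace (ZMod 2) K9 w := rfl

lemma T9_sq (w : K9) : T9 (w ^ 2) = T9 w := by
  rw [T9_apply, T9_apply]
  have h := Algebra.trace_eq_of_algEquiv (FiniteField.frobeniusAlgEquivOfAlgebraic (ZMod 2) K9) w
  rw [FiniteField.coe_frobeniusAlgEquivOfAlgebraic] at h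
  simpa using h

lemma T9_one : T9 1 = 1 := by
  rw [T9_apply]
  have h := Algebra.trace_algebraMap (R := ZMod 2) (S := K9) 1
  rw [map_one, GaloisField.finrank 2 (by norm_num)] at h
  rw [h]
  decide

lemma T9_nondeg (a : K9) (h : ∀ b, T9 (b * a) = 0) : a = 0 := by
  by_contra ha
  have h1 := h a⁻¹
  rw [inv_mul_cancel₀ ha, T9_one] at h1
  exact one_ne_zero h1

end Field

end Pool.Agent.Helper91.BentD
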