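import Mathlib

open Real MeasureTheory Set Filter Topology intervalIntegral

noncomputable section

namespace Pool.Agent.Helper91

/-- A closed planar curve with radius of curvature `ρ` as a function of the normal angle. -/
structure Crv where
  ρ : ℝ → ℝ
  X : ℝ → ℝ
  Y : ℝ → ℝ
  cont : Continuous ρ
  pos : ∀ x, 0 < ρ x
  per : ∀ x, ρ (x + 2 * π) = ρ x
  hX : ∀ x, HasDerivAt X (-(ρ x * sin x)) x
  hY : ∀ x, HasDerivAt Y (ρ x * cos x) x
  perX : ∀ x, X (x + 2 * π) = X x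
  perY : ∀ x, Y (x + 2 * π) = Y x

namespace Crv

variable (Γ : Crv)

def C (s t : ℝ) : ℝ := (Γ.X s - Γ.X t) * cos s + (Γ.Y s - Γ.Y t) * sin s
def Q (s t : ℝ) : ℝ := (Γ.X s - Γ.X t) * sin s - (Γ.Y s - Γ.Y t) * cos s
def E (s t : ℝ) : ℝ := √((Γ.X s - Γ.X t) ^ 2 + (Γ.Y s - Γ.Y t) ^ 2)
def P (s t : ℝ) : ℝ := -(Γ.X s - Γ.X t) * sin ((s + t) / 2) + (Γ.Y s - Γ.Y t) * cos ((s + t) / 2)
def R (s t : ℝ) : ℝ := -(Γ.X s - Γ.X t) * cos ((s + t) / 2) - (Γ.Y s - Γ.Y t) * sin ((s + t) / 2)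
def B (s t : ℝ) : ℝ := (s + t) / 2 + π / 2 + arctan (Γ.R s t / Γ.P s t)
def c (s t : ℝ) : ℝ := Γ.C s t / Γ.E s t
def a (s t : ℝ) : ℝ := Γ.Q s t / Γ.C s t

lemma contX : Continuous Γ.X := continuous_iff_continuousAt.2 fun x => (Γ.hX x).continuousAt
lemma contY : Continuous Γ.Y := continuous_iff_continuousAt.2 fun x => (Γ.hY x).continuousAt

lemma C_t_deriv (s t : ℝ) : HasDerivAt (fun t => Γ.C s t) (-(Γ.ρ t * sin (s - t))) t := by
  have h := (((Γ.hX t).const_sub (Γ.X s)).mul_const (cos s)).add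
    (((Γ.hY t).const_sub (Γ.Y s)).mul_const (sin s))
  refine (h.congr_deriv ?_)
  rw [sin_sub]; ring

lemma C_per_t (s t : ℝ) : Γ.C s (t + 2 * π) = Γ.C s t := by
  simp [C, Γ.perX, Γ.perY]

lemma C_per_s (s t : ℝ) : Γ.C (s + 2 * π) t = Γ.C s t := by
  simp [C, Γ.perX, Γ.perY]

lemma C_self (s : ℝ) : Γ.C s s = 0 := by simp [C]

lemma C_pos_aux {s t : ℝ} (h1 : t < s) (h2 : s < t + 2 * π) : 0 < Γ.C s t := by
  have hc : Continuous (fun t => Γ.C s t) :=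
    continuous_iff_continuousAt.2 fun x => (Γ.C_t_deriv s x).continuousAt
  rcases le_total (s - π) t with h | h
  · have hm : StrictAntiOn (fun t => Γ.C s t) (Icc (s - π) s) := by
      apply strictAntiOn_of_deriv_neg (convex_Icc _ _) hc.continuousOn
      intro x hx
      rw [interior_Icc] at hx
      rw [(Γ.C_t_deriv s x).deriv]
      have : 0 < sin (s - x) := sin_pos_of_pos_of_lt_pi (by linarith [hx.2]) (by linarith [hx.1])
      have := mul_pos (Γ.pos x) this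
      linarith
    have := hm ⟨h, h1.le⟩ ⟨by linarith [pi_pos], le_rfl⟩ h1
    simpa [C_self] using this
  · have hm : StrictMonoOn (fun t => Γ.C s t) (Icc (s - 2 * π) (s - π)) := by
      apply strictMonoOn_of_deriv_pos (convex_Icc _ _) hc.continuousOn
      intro x hx
      rw [interior_Icc] at hx
      rw [(Γ.C_t_deriv s x).deriv]
      have : 0 < sin (s - x - π) :=
        sin_pos_of_pos_of_lt_pi (by linarith [hx.2]) (by linarith [hx.1])
      rw [sin_sub_pi] at this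
      have := mul_pos (Γ.pos x) this
      linarith
    have := hm ⟨le_rfl, by linarith [pi_pos]⟩ ⟨by linarith, h⟩ (by linarith : s - 2 * π < t)
    have h0 : Γ.C s (s - 2 * π) = 0 := by
      rw [← C_per_t]; simp [C_self]
    simp only [h0] at this
    exact this

/-- Off the diagonal. -/
def Off (s t : ℝ) : Prop := sin ((s - t) / 2) ≠ 0

lemma Off.symm {s t : ℝ} (h : Off s t) : Off t s := by
  unfold Off at *
  rw [show (t - s) / 2 = -((s - t) / 2) by ring, sin_neg]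
  simpa using h

lemma off_of {s t : ℝ} (h1 : t < s) (h2 : s < t + 2 * π) : Off s t :=
  (sin_pos_of_pos_of_lt_pi (by linarith) (by linarith)).ne'

lemma C_pos {s t : ℝ} (h : Off s t) : 0 < Γ.C s t := by
  have h2 : 0 < 2 * π := by positivity
  obtain ⟨t', ht', k, hk⟩ : ∃ t' ∈ Ico (s - 2 * π) (s - 2 * π + 2 * π), ∃ k : ℤ, t' = t - k • (2 * π) :=
    ⟨toIcoMod h2 (s - 2 * π) t, toIcoMod_mem_Ico h2 _ _, toIcoDiv h2 (s - 2 * π) t, rfl⟩
  have hCt : Γ.C s t' = Γ.C s t := by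
    have : Function.Periodic (fun t => Γ.C s t) (2 * π) := fun t => Γ.C_per_t s t
    rw [hk]; exact this.sub_zsmul_eq k
  rw [← hCt]
  rcases eq_or_lt_of_le ht'.1 with h' | h'
  · exfalso
    apply h
    have : (s - t) / 2 = ((1 - k : ℤ) : ℝ) * π := by
      rw [hk, zsmul_eq_mul] at h'
      push_cast
      linarith
    rw [this]; exact sin_int_mul_pi _
  · exact Γ.C_pos_aux (by linarith [ht'.2]) (by linarith)

lemma sqE (s t : ℝ) : (Γ.E s t) ^ 2 = Γ.C s t ^ 2 + Γ.Q s t ^ 2 := by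
  unfold E
  rw [sq_sqrt (by positivity)]
  unfold C Q
  linear_combination (-((Γ.X s - Γ.X t) ^ 2 + (Γ.Y s - Γ.Y t) ^ 2)) * (sin_sq_add_cos_sq s)

lemma sqE' (s t : ℝ) : (Γ.E s t) ^ 2 = Γ.P s t ^ 2 + Γ.R s t ^ 2 := by
  unfold E
  rw [sq_sqrt (by positivity)]
  unfold P R
  linear_combination (-((Γ.X s - Γ.X t) ^ 2 + (Γ.Y s - Γ.Y t) ^ 2)) * (sin_sq_add_cos_sq ((s + t) / 2))

lemma E_symm (s t : ℝ) : Γ.E t s = Γ.E s t := by
  unfold E; congr 1; ring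

lemma E_pos {s t : ℝ} (h : Off s t) : 0 < Γ.E s t := by
  have h1 := Γ.C_pos h
  unfold E
  apply sqrt_pos.2
  have h2 := Γ.sqE s t
  unfold E at h2
  rw [sq_sqrt (by positivity)] at h2
  rw [h2]; positivity

lemma B_symm (s t : ℝ) : Γ.B t s = Γ.B s t := by
  unfold B
  have hP : Γ.P t s = - Γ.P s t := by unfold P; rw [add_comm t s]; ring
  have hR : Γ.R t s = - Γ.R s t := by unfold R; rw [add_comm t s]; ring
  rw [hP, hR, neg_div_neg_eq, add_comm t s]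

/-- relation between the two normals. -/
lemma D_eq (s t : ℝ) : Γ.C t s = -(Γ.C s t * cos (s - t) + Γ.Q s t * sin (s - t)) := by
  unfold C Q
  rw [cos_sub, sin_sub]
  linear_combination (-((Γ.X s - Γ.X t) * cos t + (Γ.Y s - Γ.Y t) * sin t)) * (-(sin_sq_add_cos_sq s))

lemma W_eq (s t : ℝ) : Γ.Q t s = Γ.C s t * sin (s - t) - Γ.Q s t * cos (s - t) := by
  unfold C Q
  rw [cos_sub, sin_sub]
  linear_combination (((Γ.X s - Γ.X t) * sin t - (Γ.Y s - Γ.Y t) * cos t)) * ((sin_sq_add_cos_sq s))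

lemma C_s_deriv (s t : ℝ) : HasDerivAt (fun s => Γ.C s t) (-(Γ.Q s t)) s := by
  have h := (((Γ.hX s).sub_const (Γ.X t)).mul (hasDerivAt_cos s)).add
    (((Γ.hY s).sub_const (Γ.Y t)).mul (hasDerivAt_sin s))
  refine (h.congr_deriv ?_)
  unfold Q; ring

lemma Q_s_deriv (s t : ℝ) : HasDerivAt (fun s => Γ.Q s t) (Γ.C s t - Γ.ρ s) s := by
  have h := (((Γ.hX s).sub_const (Γ.X t)).mul (hasDerivAt_sin s)).sub
    (((Γ.hY s).sub_const (Γ.Y t)).mul (hasDerivAt_cos s))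
  refine (h.congr_deriv ?_)
  unfold C
  linear_combination (-Γ.ρ s) * (sin_sq_add_cos_sq s)

lemma D_s_deriv (s t : ℝ) : HasDerivAt (fun s => Γ.C t s) (Γ.ρ s * sin (s - t)) s := by
  refine (Γ.C_t_deriv t s).congr_deriv ?_
  rw [show t - s = -(s - t) by ring, sin_neg]; ring

lemma W_s_deriv (s t : ℝ) : HasDerivAt (fun s => Γ.Q t s) (Γ.ρ s * cos (s - t)) s := by
  have h := (((Γ.hX s).const_sub (Γ.X t)).mul_const (sin t)).sub
    (((Γ.hY s).const_sub (Γ.Y t)).mul_const (cos t))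
  refine (h.congr_deriv ?_)
  rw [cos_sub]; ring

lemma E_s_deriv {s t : ℝ} (h : Off s t) :
    HasDerivAt (fun s => Γ.E s t) (-(Γ.ρ s * Γ.Q s t) / Γ.E s t) s := by
  have hE := Γ.E_pos h
  have h1 := ((((Γ.hX s).sub_const (Γ.X t)).pow 2).add (((Γ.hY s).sub_const (Γ.Y t)).pow 2))
  have h2 : (Γ.X s - Γ.X t) ^ 2 + (Γ.Y s - Γ.Y t) ^ 2 ≠ 0 := by
    intro h0
    have : Γ.E s t = 0 := by unfold E; rw [h0]; simp
    exact hE.ne' this
  have h3 := h1.sqrt h2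
  refine h3.congr_deriv ?_
  have : √((Γ.X s - Γ.X t) ^ 2 + (Γ.Y s - Γ.Y t) ^ 2) = Γ.E s t := rfl
  have h4 : √(((fun x => Γ.X x - Γ.X t) ^ 2 + (fun x => Γ.Y x - Γ.Y t) ^ 2) s) = Γ.E s t := rfl
  rw [h4]
  unfold Q
  field_simp
  push_cast
  ring


lemma C_ne {s t : ℝ} (h : Off s t) : Γ.C s t ≠ 0 := (Γ.C_pos h).ne'

lemma Coff_diff {s t : ℝ} (h : Off s t) : Γ.C t s ≠ 0 := (Γ.C_pos h.symm).ne'

/-- `E² sin ω = C Q' - D Q`. -/
lemma sin_rel (s t : ℝ) :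
    Γ.E s t ^ 2 * sin (s - t) = Γ.C s t * Γ.Q t s - Γ.C t s * Γ.Q s t := by
  rw [Γ.sqE, Γ.D_eq s t, Γ.W_eq s t]; ring

lemma cos_rel (s t : ℝ) :
    Γ.E s t ^ 2 * cos (s - t) = -(Γ.C s t * Γ.C t s + Γ.Q t s * Γ.Q s t) := by
  rw [Γ.sqE, Γ.D_eq s t, Γ.W_eq s t]; ring

lemma sqE_symm (s t : ℝ) : (Γ.E s t) ^ 2 = Γ.C t s ^ 2 + Γ.Q t s ^ 2 := by
  rw [← Γ.E_symm, Γ.sqE]

lemma cosω {s t : ℝ} (h : Off s t) :
    cos (s - t) = -(Γ.c s t * Γ.c t s * (1 + Γ.a s t * Γ.a t s)) := by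
  have hE := (Γ.E_pos h).ne'
  have hC := Γ.C_ne h
  have hD := Γ.Coff_diff h
  have h1 := Γ.cos_rel s t
  unfold c a
  rw [Γ.E_symm s t]
  field_simp
  linear_combination h1

lemma c_pos {s t : ℝ} (h : Off s t) : 0 < Γ.c s t := div_pos (Γ.C_pos h) (Γ.E_pos h)

lemma one_add_a {s t : ℝ} (h : Off s t) : Γ.c s t ^ 2 * (1 + Γ.a s t ^ 2) = 1 := by
  have hE := (Γ.E_pos h).ne'
  have hC := Γ.C_ne h
  have h1 := Γ.sqE s t
  unfold c a
  field_simp
  linear_combination -h1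

lemma a_s_deriv {s t : ℝ} (h : Off s t) :
    HasDerivAt (fun s => Γ.a s t)
      ((1 + Γ.a s t ^ 2) * (1 - Γ.ρ s * Γ.c s t / Γ.E s t)) s := by
  have hE := (Γ.E_pos h).ne'
  have hC := Γ.C_ne h
  have h1 := Γ.sqE s t
  refine ((Γ.Q_s_deriv s t).div (Γ.C_s_deriv s t) hC).congr_deriv ?_
  unfold c a
  field_simp
  rw [h1]; ring

lemma b_s_deriv {s t : ℝ} (h : Off s t) :
    HasDerivAt (fun s => Γ.a t s)
      (-((1 + Γ.a t s ^ 2) * (Γ.ρ s * Γ.c s t / Γ.E s t))) s := by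
  have hE := (Γ.E_pos h).ne'
  have hC := Γ.Coff_diff h
  have h1 := Γ.sqE_symm s t
  refine ((Γ.W_s_deriv s t).div (Γ.D_s_deriv s t) hC).congr_deriv ?_
  have h2 : Γ.C t s * cos (s - t) - Γ.Q t s * sin (s - t) = -Γ.C s t := by
    rw [Γ.D_eq s t, Γ.W_eq s t]
    linear_combination (-Γ.C s t) * (sin_sq_add_cos_sq (s - t))
  unfold c a
  field_simp
  rw [h1]
  linear_combination Γ.ρ s * (Γ.C t s ^ 2 + Γ.Q t s ^ 2) * h2

lemma d_s_deriv {s t : ℝ} (h : Off s t) :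
    HasDerivAt (fun s => Γ.c t s)
      (Γ.c t s * Γ.a t s * (Γ.ρ s * Γ.c s t / Γ.E s t)) s := by
  have hE := (Γ.E_pos h).ne'
  have hC := Γ.Coff_diff h
  have h1 := Γ.sin_rel s t
  have hE' : HasDerivAt (fun s => Γ.E t s) (-(Γ.ρ s * Γ.Q s t) / Γ.E s t) s := by
    have := Γ.E_s_deriv h
    refine this.congr_of_eventuallyEq ?_
    exact Eventually.of_forall fun x => Γ.E_symm x t
  refine ((Γ.D_s_deriv s t).div hE' (by rw [Γ.E_symm s t]; exact hE)).congr_deriv ?_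
  unfold c a
  rw [Γ.E_symm s t]
  field_simp
  linear_combination Γ.ρ s * h1

lemma P_eq (s t : ℝ) : Γ.P s t * (2 * sin ((s - t) / 2)) = Γ.C s t + Γ.C t s := by
  have h1 : s = (s + t) / 2 + (s - t) / 2 := by ring
  have h2 : t = (s + t) / 2 - (s - t) / 2 := by ring
  unfold C P
  have e1 : cos s = cos ((s + t) / 2) * cos ((s - t) / 2) - sin ((s + t) / 2) * sin ((s - t) / 2) := by
    rw [← cos_add]; congr 1
  have e2 : sin s = sin ((s + t) / 2) * cos ((s - t) / 2) + cos ((s + t) / 2) * sin ((s - t) / 2) := by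
    rw [← sin_add]; congr 1
  have e3 : cos t = cos ((s + t) / 2) * cos ((s - t) / 2) + sin ((s + t) / 2) * sin ((s - t) / 2) := by
    rw [← cos_sub]; congr 1
  have e4 : sin t = sin ((s + t) / 2) * cos ((s - t) / 2) - cos ((s + t) / 2) * sin ((s - t) / 2) := by
    rw [← sin_sub]; congr 1
  rw [e1, e2, e3, e4]; ring

lemma R_eq (s t : ℝ) : -Γ.R s t * (2 * cos ((s - t) / 2)) = Γ.C s t - Γ.C t s := by
  have h1 : s = (s + t) / 2 + (s - t) / 2 := by ring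
  have h2 : t = (s + t) / 2 - (s - t) / 2 := by ring
  unfold C R
  have e1 : cos s = cos ((s + t) / 2) * cos ((s - t) / 2) - sin ((s + t) / 2) * sin ((s - t) / 2) := by
    rw [← cos_add]; congr 1
  have e2 : sin s = sin ((s + t) / 2) * cos ((s - t) / 2) + cos ((s + t) / 2) * sin ((s - t) / 2) := by
    rw [← sin_add]; congr 1
  have e3 : cos t = cos ((s + t) / 2) * cos ((s - t) / 2) + sin ((s + t) / 2) * sin ((s - t) / 2) := by
    rw [← cos_sub]; congr 1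
  have e4 : sin t = sin ((s + t) / 2) * cos ((s - t) / 2) - cos ((s + t) / 2) * sin ((s - t) / 2) := by
    rw [← sin_sub]; congr 1
  rw [e1, e2, e3, e4]; ring

lemma C_PR (s t : ℝ) :
    Γ.C s t = Γ.P s t * sin ((s - t) / 2) - Γ.R s t * cos ((s - t) / 2) := by
  have h1 := Γ.P_eq s t
  have h2 := Γ.R_eq s t
  linarith

lemma P_ne {s t : ℝ} (h : Off s t) : Γ.P s t ≠ 0 := by
  have h1 := Γ.P_eq s t
  have h2 := Γ.C_pos h
  have h3 := Γ.C_pos h.symm
  intro h0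
  rw [h0] at h1
  linarith

lemma B_s_deriv {s t : ℝ} (h : Off s t) :
    HasDerivAt (fun s => Γ.B s t) (Γ.ρ s * Γ.c s t / Γ.E s t) s := by
  have hE := (Γ.E_pos h).ne'
  have hP := Γ.P_ne h
  have hσ : HasDerivAt (fun s : ℝ => (s + t) / 2) (1 / 2) s :=
    ((hasDerivAt_id s).add_const t).div_const 2
  have e1 : sin s * sin ((s + t) / 2) + cos s * cos ((s + t) / 2) = cos ((s - t) / 2) := by
    rw [show (s - t) / 2 = s - (s + t) / 2 by ring, cos_sub]; ring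
  have e2 : sin s * cos ((s + t) / 2) - cos s * sin ((s + t) / 2) = sin ((s - t) / 2) := by
    rw [show (s - t) / 2 = s - (s + t) / 2 by ring, sin_sub]
  have hPd : HasDerivAt (fun s => Γ.P s t) (Γ.ρ s * cos ((s - t) / 2) + Γ.R s t / 2) s := by
    have h1 := (((Γ.hX s).sub_const (Γ.X t)).neg.mul hσ.sin).add
      (((Γ.hY s).sub_const (Γ.Y t)).mul hσ.cos)
    refine h1.congr_deriv ?_
    rw [← e1]
    unfold R; simp only [Pi.neg_apply]; ring
  have hRd : HasDerivAt (fun s => Γ.R s t) (Γ.ρ s * sin ((s - t) / 2) - Γ.P s t / 2) s := by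
    have h1 := (((Γ.hX s).sub_const (Γ.X t)).neg.mul hσ.cos).sub
      (((Γ.hY s).sub_const (Γ.Y t)).mul hσ.sin)
    refine h1.congr_deriv ?_
    rw [← e2]
    unfold P; simp only [Pi.neg_apply]; ring
  have h2 := ((hσ.add_const (π / 2)).add (hRd.div hPd hP).arctan)
  refine h2.congr_deriv ?_
  have h3 := Γ.sqE' s t
  have h4 := Γ.C_PR s t
  simp only [Pi.div_apply]
  have h5 : 1 + (Γ.R s t / Γ.P s t) ^ 2 = Γ.E s t ^ 2 / Γ.P s t ^ 2 := by
    field_simp; linear_combination -h3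
  rw [h5]
  unfold c
  field_simp
  rw [h4]
  linear_combination (1 : ℝ) * h3

end Crv
end Pool.Agent.Helper91
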