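import Pool.Agent.Helper91.RpA

open Real MeasureTheory Set Filter Topology intervalIntegral

noncomputable section

namespace Pool.Agent.Helper91

/-- the nonlinear remainder, as a function of the local variables -/
def nF (E c d a b rs rt : ℝ) : ℝ :=
  -(E * (1 + a ^ 2) * (1 + b ^ 2) * (E - 2 * rs * c) * (E - 2 * rt * d))
    + (a + b) ^ 2 * E * (rt * d * (1 + a ^ 2) * (E - rs * c) + rs * c * (1 + b ^ 2) * (E - rt * d))

def uF (E d a b rt f0 f1 : ℝ) : ℝ :=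
  (1 / 2) * (-(rt * f1 * E ^ 2 * d * (1 + a * b))
    - rt * f0 * E ^ 2 * d * (3 * a * (1 + a * b) + (2 / 3) * (a - b) ^ 3)
    + f0 * E ^ 3 * a * (1 + b ^ 2))

def gF (E c d a b rs rt f0 f1 f2 : ℝ) : ℝ :=
  (1 / 2) * (-(rt * (f2 * (rs * c) * E * d * (1 + a * b)
      + f1 * (E * rs * c * d * (b - 2 * a) * (1 + a * b) + E ^ 2 * d * b * (1 + a ^ 2)
          - E * rs * c * d * ((1 + a ^ 2) * b + a * (1 + b ^ 2)))))
    - rt * (f1 * (rs * c) * E * d * (3 * a * (1 + a * b) + (2 / 3) * (a - b) ^ 3)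
      + f0 * (E * rs * c * d * (b - 2 * a) * (3 * a * (1 + a * b) + (2 / 3) * (a - b) ^ 3)
          + E ^ 2 * d * (3 + 6 * a * b + 2 * (a - b) ^ 2) * (1 + a ^ 2)
          - E * rs * c * d * ((3 + 6 * a * b + 2 * (a - b) ^ 2) * (1 + a ^ 2)
              + (3 * a ^ 2 - 2 * (a - b) ^ 2) * (1 + b ^ 2))))
    + (f1 * (rs * c) * E ^ 2 * a * (1 + b ^ 2)
      + f0 * ((1 + b ^ 2) * (E ^ 3 * (1 + a ^ 2) - E ^ 2 * (rs * c) * (1 + 4 * a ^ 2 + 2 * a * b)))))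

lemma key_identity (E c d a b rs rt f0 f1 f2 : ℝ) :
    gF E c d a b rs rt f0 f1 f2 + gF E d c b a rt rs f0 f1 f2
      = (f2 + f0) * E * (-(c * d * (1 + a * b))) * rs * rt - f0 * nF E c d a b rs rt := by
  unfold gF nF; ring

/-- A `π`-periodic test function with its two derivatives. -/
structure Tst where
  f0 : ℝ → ℝ
  f1 : ℝ → ℝ
  f2 : ℝ → ℝ
  h0 : ∀ x, HasDerivAt f0 (f1 x) x
  h1 : ∀ x, HasDerivAt f1 (f2 x) x
  c2 : Continuous f2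
  p0 : ∀ x, f0 (x + π) = f0 x
  p1 : ∀ x, f1 (x + π) = f1 x
  p2 : ∀ x, f2 (x + π) = f2 x

namespace Crv

variable (Γ : Crv) (φ : Tst)

def n (s t : ℝ) : ℝ := nF (Γ.E s t) (Γ.c s t) (Γ.c t s) (Γ.a s t) (Γ.a t s) (Γ.ρ s) (Γ.ρ t)

def U (s t : ℝ) : ℝ :=
  uF (Γ.E s t) (Γ.c t s) (Γ.a s t) (Γ.a t s) (Γ.ρ t) (φ.f0 (Γ.B s t)) (φ.f1 (Γ.B s t))

def g (s t : ℝ) : ℝ :=
  gF (Γ.E s t) (Γ.c s t) (Γ.c t s) (Γ.a s t) (Γ.a t s) (Γ.ρ s) (Γ.ρ t)
    (φ.f0 (Γ.B s t)) (φ.f1 (Γ.B s t)) (φ.f2 (Γ.B s t))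

def f (s t : ℝ) : ℝ :=
  (φ.f2 (Γ.B s t) + φ.f0 (Γ.B s t)) * Γ.E s t * cos (s - t) * Γ.ρ s * Γ.ρ t
    - φ.f0 (Γ.B s t) * Γ.n s t

lemma f_eq {s t : ℝ} (h : Off s t) : Γ.f φ s t = Γ.g φ s t + Γ.g φ t s := by
  unfold f g n
  rw [Γ.cosω h, Γ.B_symm s t, Γ.E_symm s t]
  exact (key_identity _ _ _ _ _ _ _ _ _ _).symm

lemma U_deriv {s t : ℝ} (h : Off s t) : HasDerivAt (fun s => Γ.U φ s t) (Γ.g φ s t) s := by
  have hE := (Γ.E_pos h).ne'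
  have hC := Γ.C_ne h
  have dE : HasDerivAt (fun s => Γ.E s t) (-(Γ.ρ s * Γ.c s t * Γ.a s t)) s := by
    refine (Γ.E_s_deriv h).congr_deriv ?_
    unfold c a; field_simp
  have da := Γ.a_s_deriv h
  have db := Γ.b_s_deriv h
  have dd := Γ.d_s_deriv h
  have dB := Γ.B_s_deriv h
  have df0 := (φ.h0 (Γ.B s t)).comp s dB
  have df1 := (φ.h1 (Γ.B s t)).comp s dB
  have t1 := (((df1.const_mul (Γ.ρ t)).mul (dE.pow 2)).mul dd).mul ((da.mul db).const_add 1)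
  have t2 := (((df0.const_mul (Γ.ρ t)).mul (dE.pow 2)).mul dd).mul
    (((da.const_mul 3).mul ((da.mul db).const_add 1)).add (((da.sub db).pow 3).const_mul (2 / 3)))
  have t3 := ((df0.mul (dE.pow 3)).mul da).mul ((db.pow 2).const_add 1)
  have t4 := ((t1.neg.sub t2).add t3).const_mul (1 / 2)
  have t5 : HasDerivAt (fun s => Γ.U φ s t) _ s :=
    HasDerivAt.congr_of_eventuallyEq t4 (Eventually.of_forall fun x => by
      simp only [U, uF, Pi.add_apply, Pi.sub_apply, Pi.neg_apply, Pi.mul_apply, Pi.pow_apply,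
        Function.comp])
  refine t5.congr_deriv ?_
  unfold g gF
  simp only [Pi.add_apply, Pi.sub_apply, Pi.neg_apply, Pi.mul_apply, Pi.pow_apply, Function.comp]
  field_simp
  ring

end Crv
end Pool.Agent.Helper91
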