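import Pool.Agent.Helper91.RpB

open Real MeasureTheory Set Filter Topology intervalIntegral

noncomputable section

namespace Pool.Agent.Helper91

lemma interval_swap {h : ℝ → ℝ → ℝ} {a b c d K : ℝ} (hab : a ≤ b) (hcd : c ≤ d)
    (hc : ContinuousOn (Function.uncurry h) (Ioc a b ×ˢ Ioc c d))
    (hb : ∀ x ∈ Ioc a b, ∀ y ∈ Ioc c d, |h x y| ≤ K) :
    ∫ x in a..b, ∫ y in c..d, h x y = ∫ y in c..d, ∫ x in a..b, h x y := by
  simp only [intervalIntegral.integral_of_le hab, intervalIntegral.integral_of_le hcd]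
  apply integral_integral_swap
  have hprod : (volume.restrict (Ioc a b)).prod (volume.restrict (Ioc c d))
      = (volume : Measure (ℝ × ℝ)).restrict (Ioc a b ×ˢ Ioc c d) := by
    rw [Measure.prod_restrict]; rfl
  rw [hprod]
  have hfin : (volume : Measure (ℝ × ℝ)) (Ioc a b ×ˢ Ioc c d) < ⊤ := by
    rw [Measure.volume_eq_prod, Measure.prod_prod]
    exact ENNReal.mul_lt_top (by simp) (by simp)
  have : IsFiniteMeasure ((volume : Measure (ℝ × ℝ)).restrict (Ioc a b ×ˢ Ioc c d)) :=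
    ⟨by rw [Measure.restrict_apply_univ]; exact hfin⟩
  refine Integrable.of_bound ?_ K ?_
  · exact hc.aestronglyMeasurable (measurableSet_Ioc.prod measurableSet_Ioc)
  · refine (ae_restrict_iff' (measurableSet_Ioc.prod measurableSet_Ioc)).2
      (Eventually.of_forall fun z hz => ?_)
    exact hb z.1 hz.1 z.2 hz.2

namespace Tst
variable (φ : Tst)
lemma c0 : Continuous φ.f0 := continuous_iff_continuousAt.2 fun x => (φ.h0 x).continuousAt
lemma c1 : Continuous φ.f1 := continuous_iff_continuousAt.2 fun x => (φ.h1 x).continuousAt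
end Tst

namespace Crv
variable (Γ : Crv) (φ : Tst)

lemma Off_add_s {s t : ℝ} : Off (s + 2 * π) t ↔ Off s t := by
  unfold Off
  rw [show (s + 2 * π - t) / 2 = (s - t) / 2 + π by ring, sin_add_pi]
  simp

lemma Q_per_s (s t : ℝ) : Γ.Q (s + 2 * π) t = Γ.Q s t := by simp [Q, Γ.perX, Γ.perY]
lemma Q_per_t (s t : ℝ) : Γ.Q s (t + 2 * π) = Γ.Q s t := by simp [Q, Γ.perX, Γ.perY]
lemma E_per_s (s t : ℝ) : Γ.E (s + 2 * π) t = Γ.E s t := by simp [E, Γ.perX, Γ.perY]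
lemma E_per_t (s t : ℝ) : Γ.E s (t + 2 * π) = Γ.E s t := by simp [E, Γ.perX, Γ.perY]
lemma c_per_s (s t : ℝ) : Γ.c (s + 2 * π) t = Γ.c s t := by simp [c, Γ.C_per_s, Γ.E_per_s]
lemma c_per_t (s t : ℝ) : Γ.c s (t + 2 * π) = Γ.c s t := by simp [c, Γ.C_per_t, Γ.E_per_t]
lemma a_per_s (s t : ℝ) : Γ.a (s + 2 * π) t = Γ.a s t := by simp [a, Γ.C_per_s, Γ.Q_per_s]
lemma a_per_t (s t : ℝ) : Γ.a s (t + 2 * π) = Γ.a s t := by simp [a, Γ.C_per_t, Γ.Q_per_t]

lemma B_per_s (s t : ℝ) : Γ.B (s + 2 * π) t = Γ.B s t + π := by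
  unfold B P R
  have h : (s + 2 * π + t) / 2 = (s + t) / 2 + π := by ring
  rw [h, sin_add_pi, cos_add_pi, Γ.perX, Γ.perY]
  have : (-(Γ.X s - Γ.X t) * -cos ((s + t) / 2) - (Γ.Y s - Γ.Y t) * -sin ((s + t) / 2)) /
      (-(Γ.X s - Γ.X t) * -sin ((s + t) / 2) + (Γ.Y s - Γ.Y t) * -cos ((s + t) / 2))
      = (-(Γ.X s - Γ.X t) * cos ((s + t) / 2) - (Γ.Y s - Γ.Y t) * sin ((s + t) / 2)) /
      (-(Γ.X s - Γ.X t) * sin ((s + t) / 2) + (Γ.Y s - Γ.Y t) * cos ((s + t) / 2)) := by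
    rw [← neg_div_neg_eq]; congr 1 <;> ring
  rw [this]; ring

lemma f0B_per_s (s t : ℝ) : φ.f0 (Γ.B (s + 2 * π) t) = φ.f0 (Γ.B s t) := by rw [B_per_s, φ.p0]
lemma f1B_per_s (s t : ℝ) : φ.f1 (Γ.B (s + 2 * π) t) = φ.f1 (Γ.B s t) := by rw [B_per_s, φ.p1]
lemma f2B_per_s (s t : ℝ) : φ.f2 (Γ.B (s + 2 * π) t) = φ.f2 (Γ.B s t) := by rw [B_per_s, φ.p2]
lemma f0B_per_t (s t : ℝ) : φ.f0 (Γ.B s (t + 2 * π)) = φ.f0 (Γ.B s t) := by
  rw [← Γ.B_symm, f0B_per_s, Γ.B_symm]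
lemma f1B_per_t (s t : ℝ) : φ.f1 (Γ.B s (t + 2 * π)) = φ.f1 (Γ.B s t) := by
  rw [← Γ.B_symm, f1B_per_s, Γ.B_symm]
lemma f2B_per_t (s t : ℝ) : φ.f2 (Γ.B s (t + 2 * π)) = φ.f2 (Γ.B s t) := by
  rw [← Γ.B_symm, f2B_per_s, Γ.B_symm]

lemma g_per_s (s t : ℝ) : Γ.g φ (s + 2 * π) t = Γ.g φ s t := by
  simp only [g, E_per_s, c_per_s, c_per_t, a_per_s, a_per_t, Γ.per, f0B_per_s, f1B_per_s, f2B_per_s]
lemma g_per_t (s t : ℝ) : Γ.g φ s (t + 2 * π) = Γ.g φ s t := by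
  simp only [g, E_per_t, c_per_s, c_per_t, a_per_s, a_per_t, Γ.per, f0B_per_t, f1B_per_t, f2B_per_t]
lemma n_per_s (s t : ℝ) : Γ.n (s + 2 * π) t = Γ.n s t := by
  simp only [n, E_per_s, c_per_s, c_per_t, a_per_s, a_per_t, Γ.per]
lemma n_per_t (s t : ℝ) : Γ.n s (t + 2 * π) = Γ.n s t := by
  simp only [n, E_per_t, c_per_s, c_per_t, a_per_s, a_per_t, Γ.per]
lemma n_symm (s t : ℝ) : Γ.n t s = Γ.n s t := by
  unfold n nF; rw [Γ.E_symm s t]; ring
lemma U_per_s (s t : ℝ) : Γ.U φ (s + 2 * π) t = Γ.U φ s t := by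
  simp only [U, E_per_s, c_per_t, a_per_s, a_per_t, f0B_per_s, f1B_per_s]

/-- the set of off-diagonal pairs -/
def offS : Set (ℝ × ℝ) := {z | Off z.1 z.2}

lemma offS_open : IsOpen offS := by
  have : offS = (fun z : ℝ × ℝ => sin ((z.1 - z.2) / 2)) ⁻¹' {0}ᶜ := rfl
  rw [this]
  exact isOpen_compl_singleton.preimage (by fun_prop)

lemma cont_C : Continuous (fun z : ℝ × ℝ => Γ.C z.1 z.2) := by
  have := Γ.contX; have := Γ.contY
  unfold C; fun_prop
lemma cont_C' : Continuous (fun z : ℝ × ℝ => Γ.C z.2 z.1) := by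
  have := Γ.contX; have := Γ.contY
  unfold C; fun_prop
lemma cont_Q : Continuous (fun z : ℝ × ℝ => Γ.Q z.1 z.2) := by
  have := Γ.contX; have := Γ.contY
  unfold Q; fun_prop
lemma cont_Q' : Continuous (fun z : ℝ × ℝ => Γ.Q z.2 z.1) := by
  have := Γ.contX; have := Γ.contY
  unfold Q; fun_prop
lemma cont_E : Continuous (fun z : ℝ × ℝ => Γ.E z.1 z.2) := by
  have := Γ.contX; have := Γ.contY
  unfold E; fun_prop

lemma contOn_c : ContinuousOn (fun z : ℝ × ℝ => Γ.c z.1 z.2) offS :=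
  Γ.cont_C.continuousOn.div Γ.cont_E.continuousOn fun _ hz => (Γ.E_pos hz).ne'
lemma contOn_c' : ContinuousOn (fun z : ℝ × ℝ => Γ.c z.2 z.1) offS := by
  refine Γ.cont_C'.continuousOn.div ?_ fun _ hz => (Γ.E_pos (Off.symm hz)).ne'
  simp only [Γ.E_symm]
  exact (Γ.cont_E.comp continuous_swap).continuousOn.congr fun _ _ => by
    simp [Γ.E_symm]
lemma contOn_a : ContinuousOn (fun z : ℝ × ℝ => Γ.a z.1 z.2) offS :=
  Γ.cont_Q.continuousOn.div Γ.cont_C.continuousOn fun _ hz => Γ.C_ne hz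
lemma contOn_a' : ContinuousOn (fun z : ℝ × ℝ => Γ.a z.2 z.1) offS :=
  Γ.cont_Q'.continuousOn.div Γ.cont_C'.continuousOn fun _ hz => Γ.C_ne (Off.symm hz)
lemma contOn_B : ContinuousOn (fun z : ℝ × ℝ => Γ.B z.1 z.2) offS := by
  have h1 := Γ.contX; have h2 := Γ.contY
  have hP : Continuous (fun z : ℝ × ℝ => Γ.P z.1 z.2) := by unfold P; fun_prop
  have hR : Continuous (fun z : ℝ × ℝ => Γ.R z.1 z.2) := by unfold R; fun_prop
  unfold B
  refine ContinuousOn.add (by fun_prop) ?_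
  refine continuous_arctan.comp_continuousOn ?_
  exact hR.continuousOn.div hP.continuousOn fun _ hz => Γ.P_ne hz

lemma contOn_g : ContinuousOn (fun z : ℝ × ℝ => Γ.g φ z.1 z.2) offS := by
  have h1 := Γ.contOn_c; have h2 := Γ.contOn_c'; have h3 := Γ.contOn_a; have h4 := Γ.contOn_a'
  have h5 := Γ.contOn_B; have h6 := Γ.cont_E.continuousOn (s := offS)
  have h7 := (φ.c0.comp_continuousOn h5); have h8 := (φ.c1.comp_continuousOn h5)
  have h9 := (φ.c2.comp_continuousOn h5)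
  have h10 : ContinuousOn (fun z : ℝ × ℝ => Γ.ρ z.1) offS := (Γ.cont.comp continuous_fst).continuousOn
  have h11 : ContinuousOn (fun z : ℝ × ℝ => Γ.ρ z.2) offS := (Γ.cont.comp continuous_snd).continuousOn
  simp only [Function.comp_def] at h7 h8 h9
  unfold g gF
  fun_prop

lemma contOn_n : ContinuousOn (fun z : ℝ × ℝ => Γ.n z.1 z.2) offS := by
  have h1 := Γ.contOn_c; have h2 := Γ.contOn_c'; have h3 := Γ.contOn_a; have h4 := Γ.contOn_a'
  have h6 := Γ.cont_E.continuousOn (s := offS)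
  have h10 : ContinuousOn (fun z : ℝ × ℝ => Γ.ρ z.1) offS := (Γ.cont.comp continuous_fst).continuousOn
  have h11 : ContinuousOn (fun z : ℝ × ℝ => Γ.ρ z.2) offS := (Γ.cont.comp continuous_snd).continuousOn
  unfold n nF
  fun_prop

lemma contOn_U : ContinuousOn (fun z : ℝ × ℝ => Γ.U φ z.1 z.2) offS := by
  have h1 := Γ.contOn_c; have h2 := Γ.contOn_c'; have h3 := Γ.contOn_a; have h4 := Γ.contOn_a'
  have h5 := Γ.contOn_B; have h6 := Γ.cont_E.continuousOn (s := offS)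
  have h7 := (φ.c0.comp_continuousOn h5); have h8 := (φ.c1.comp_continuousOn h5)
  have h11 : ContinuousOn (fun z : ℝ × ℝ => Γ.ρ z.2) offS := (Γ.cont.comp continuous_snd).continuousOn
  simp only [Function.comp_def] at h7 h8
  unfold U uF
  fun_prop

/-- the main part of the integrand -/
def j (s t : ℝ) : ℝ :=
  (φ.f2 (Γ.B s t) + φ.f0 (Γ.B s t)) * Γ.E s t * cos (s - t) * Γ.ρ s * Γ.ρ t

lemma contOn_f : ContinuousOn (fun z : ℝ × ℝ => Γ.f φ z.1 z.2) offS := by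
  have h5 := Γ.contOn_B; have h6 := Γ.cont_E.continuousOn (s := offS)
  have h7 := (φ.c0.comp_continuousOn h5)
  have h9 := (φ.c2.comp_continuousOn h5)
  have h10 : ContinuousOn (fun z : ℝ × ℝ => Γ.ρ z.1) offS := (Γ.cont.comp continuous_fst).continuousOn
  have h11 : ContinuousOn (fun z : ℝ × ℝ => Γ.ρ z.2) offS := (Γ.cont.comp continuous_snd).continuousOn
  have h12 := Γ.contOn_n
  simp only [Function.comp_def] at h7 h9
  unfold f
  fun_prop

end Crv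
end Pool.Agent.Helper91
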