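import Pool.Agent.Helper91.RpC

open Real MeasureTheory Set Filter Topology intervalIntegral

noncomputable section

namespace Pool.Agent.Helper91

lemma interval_swap' {h : ℝ → ℝ → ℝ} {a b c d : ℝ} (hab : a ≤ b) (hcd : c ≤ d)
    (hc : ContinuousOn (Function.uncurry h) (Icc a b ×ˢ Icc c d)) :
    ∫ x in a..b, ∫ y in c..d, h x y = ∫ y in c..d, ∫ x in a..b, h x y := by
  obtain ⟨K, hK⟩ := (isCompact_Icc.prod isCompact_Icc).exists_bound_of_continuousOn hc
  refine interval_swap hab hcd (hc.mono (prod_mono Ioc_subset_Icc_self Ioc_subset_Icc_self))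
    (K := K) ?_
  intro x hx y hy
  exact hK (x, y) ⟨Ioc_subset_Icc_self hx, Ioc_subset_Icc_self hy⟩

open Crv in
lemma off1 {ω t : ℝ} (h1 : 0 < ω) (h2 : ω < 2 * π) : Off (t + ω) t :=
  off_of (by linarith) (by linarith)

open Crv in
lemma cont_comp_off {F : ℝ → ℝ → ℝ} (hF : ContinuousOn (fun z : ℝ × ℝ => F z.1 z.2) offS)
    {A : Type*} [TopologicalSpace A] {S : Set A} {p q : A → ℝ} (hp : ContinuousOn p S)
    (hq : ContinuousOn q S) (ho : ∀ x ∈ S, Off (p x) (q x)) :
    ContinuousOn (fun x => F (p x) (q x)) S :=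
  hF.comp (f := fun x => (p x, q x)) (hp.prodMk hq) fun x hx => ho x hx

open Crv in
lemma trunc_abs {f g U : ℝ → ℝ → ℝ} (cg : ContinuousOn (fun z : ℝ × ℝ => g z.1 z.2) offS)
    (gs : ∀ s t, g (s + 2 * π) t = g s t) (gt : ∀ s t, g s (t + 2 * π) = g s t)
    (hf : ∀ s t, Off s t → f s t = g s t + g t s)
    (hU : ∀ s t, Off s t → HasDerivAt (fun s => U s t) (g s t) s)
    {η : ℝ} (h0 : 0 < η) (h1 : η ≤ π) :
    ∫ ω in η..π, ∫ t in 0..(2 * π), f (t + ω) t
      = ∫ t in 0..(2 * π), (U (t + (2 * π - η)) t - U (t + η) t) := by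
  have hpi := pi_pos
  have hg1 : ContinuousOn (fun z : ℝ × ℝ => g (z.2 + z.1) z.2) (Icc η π ×ˢ Icc 0 (2 * π)) :=
    cont_comp_off cg (by fun_prop) (by fun_prop) fun z hz =>
      off1 (by linarith [hz.1.1]) (by linarith [hz.1.2])
  have hg2 : ContinuousOn (fun z : ℝ × ℝ => g (z.2 + (2 * π - z.1)) z.2)
      (Icc η π ×ˢ Icc 0 (2 * π)) :=
    cont_comp_off cg (by fun_prop) (by fun_prop) fun z hz =>
      off1 (by linarith [hz.1.2]) (by linarith [hz.1.1])
  have inner : ∀ ω ∈ Icc η π, ∫ t in 0..(2 * π), f (t + ω) t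
      = ∫ t in 0..(2 * π), (g (t + ω) t + g (t + (2 * π - ω)) t) := by
    intro ω hω
    have ho : ∀ t, Off (t + ω) t := fun t => off1 (by linarith [hω.1]) (by linarith [hω.2])
    have c1 : Continuous (fun t => g (t + ω) t) := by
      rw [← continuousOn_univ]
      exact cont_comp_off cg (by fun_prop) (by fun_prop) fun t _ => ho t
    have c2 : Continuous (fun t => g t (t + ω)) := by
      rw [← continuousOn_univ]
      exact cont_comp_off cg (by fun_prop) (by fun_prop) fun t _ => Off.symm (ho t)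
    have c3 : Continuous (fun t => g (t + (2 * π - ω)) t) := by
      rw [← continuousOn_univ]
      exact cont_comp_off cg (by fun_prop) (by fun_prop) fun t _ =>
        off1 (by linarith [hω.2]) (by linarith [hω.1])
    have e1 : ∫ t in 0..(2 * π), f (t + ω) t
        = ∫ t in 0..(2 * π), (g (t + ω) t + g t (t + ω)) := by
      congr 1; ext t; exact hf _ _ (ho t)
    rw [e1, intervalIntegral.integral_add (c1.intervalIntegrable _ _) (c2.intervalIntegrable _ _),
      intervalIntegral.integral_add (c1.intervalIntegrable _ _) (c3.intervalIntegrable _ _)]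
    congr 1
    have hper : Function.Periodic (fun t => g (t - ω) t) (2 * π) := by
      intro t
      simp only
      rw [gt, show t + 2 * π - ω = t - ω + 2 * π by ring, gs]
    have e2 : ∫ t in 0..(2 * π), g t (t + ω)
        = ∫ t in 0..(2 * π), (fun t => g (t - ω) t) (t + ω) := by
      congr 1; ext t; simp
    rw [e2, intervalIntegral.integral_comp_add_right (fun t => g (t - ω) t),
      show 0 + ω = ω by ring, show 2 * π + ω = ω + 2 * π by ring, hper.intervalIntegral_add_eq ω 0,
      zero_add]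
    congr 1; ext t
    rw [show t + (2 * π - ω) = t - ω + 2 * π by ring, gs]
  have step1 : ∫ ω in η..π, ∫ t in 0..(2 * π), f (t + ω) t
      = ∫ ω in η..π, ∫ t in 0..(2 * π), (g (t + ω) t + g (t + (2 * π - ω)) t) := by
    apply intervalIntegral.integral_congr
    intro ω hω
    rw [uIcc_of_le h1] at hω
    exact inner ω hω
  have hsum : ContinuousOn (Function.uncurry fun ω t => g (t + ω) t + g (t + (2 * π - ω)) t)
      (Icc η π ×ˢ Icc 0 (2 * π)) := hg1.add hg2
  rw [step1, interval_swap' (h := fun ω t => g (t + ω) t + g (t + (2 * π - ω)) t) h1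
    (by positivity) hsum]
  apply intervalIntegral.integral_congr
  intro t _
  simp only
  have i1 : IntervalIntegrable (fun ω => g (t + ω) t) volume η π := by
    apply ContinuousOn.intervalIntegrable
    rw [uIcc_of_le h1]
    exact cont_comp_off cg (by fun_prop) (by fun_prop) fun ω hω =>
      off1 (by linarith [hω.1]) (by linarith [hω.2])
  have i2 : IntervalIntegrable (fun ω => g (t + (2 * π - ω)) t) volume η π := by
    apply ContinuousOn.intervalIntegrable
    rw [uIcc_of_le h1]
    exact cont_comp_off cg (by fun_prop) (by fun_prop) fun ω hω =>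
      off1 (by linarith [hω.2]) (by linarith [hω.1])
  rw [intervalIntegral.integral_add i1 i2]
  have e1 : ∫ ω in η..π, g (t + ω) t = U (t + π) t - U (t + η) t := by
    refine integral_eq_sub_of_hasDerivAt (f := fun ω => U (t + ω) t) ?_ i1
    intro ω hω
    rw [uIcc_of_le h1] at hω
    have := (hU _ _ (off1 (t := t) (ω := ω) (by linarith [hω.1]) (by linarith [hω.2])))
    exact this.comp_const_add t ω
  have e2 : ∫ ω in η..π, g (t + (2 * π - ω)) t
      = U (t + (2 * π - η)) t - U (t + π) t := by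
    have hd : ∀ ω ∈ uIcc η π, HasDerivAt (fun ω => -U (t + (2 * π - ω)) t)
        (g (t + (2 * π - ω)) t) ω := by
      intro ω hω
      rw [uIcc_of_le h1] at hω
      have := (hU _ _ (off1 (t := t) (ω := 2 * π - ω) (by linarith [hω.2])
        (by linarith [hω.1])))
      have h2 := (this.comp_const_add t (2 * π - ω)).scomp ω ((hasDerivAt_id ω).const_sub (2 * π))
      refine h2.neg.congr_deriv ?_
      simp
    rw [integral_eq_sub_of_hasDerivAt hd i2]
    rw [show 2 * π - π = π by ring]; ring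
  rw [e1, e2]; ring

namespace Crv
variable (Γ : Crv) (φ : Tst)

lemma trunc {η : ℝ} (h0 : 0 < η) (h1 : η ≤ π) :
    ∫ ω in η..π, ∫ t in 0..(2 * π), Γ.f φ (t + ω) t
      = ∫ t in 0..(2 * π), (Γ.U φ (t + (2 * π - η)) t - Γ.U φ (t + η) t) :=
  trunc_abs (Γ.contOn_g φ) (Γ.g_per_s φ) (Γ.g_per_t φ) (fun _ _ h => Γ.f_eq φ h)
    (fun _ _ h => Γ.U_deriv φ h) h0 h1

end Crv
end Pool.Agent.Helper91
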