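import Mathlib

open MeasureTheory

noncomputable section

namespace Pool.Agent.Helper91

/-- A convex body: a compact convex set with nonempty interior. -/
def IsBody {n : ℕ} (K : Set (EuclideanSpace ℝ (Fin n))) : Prop :=
  Convex ℝ K ∧ IsCompact K ∧ (interior K).Nonempty

/-- The radial function of `K - x` in direction `u`: the largest `l ≥ 0` with `x + l u ∈ K`. -/
def radFn {n : ℕ} (K : Set (EuclideanSpace ℝ (Fin n))) (x u : EuclideanSpace ℝ (Fin n)) : ℝ :=
  sSup {l : ℝ | 0 ≤ l ∧ x + l • u ∈ K}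

/-- The radial function in direction `u` of the radial `p`-th mean body of `K`. -/
def radialMean {n : ℕ} (p : ℝ) (K : Set (EuclideanSpace ℝ (Fin n)))
    (u : EuclideanSpace ℝ (Fin n)) : ℝ :=
  if p = 0 then Real.exp ((volume.real K)⁻¹ * (∫ x in K, Real.log (radFn K x u)))
  else ((volume.real K)⁻¹ * (∫ x in K, (radFn K x u) ^ p)) ^ (1 / p)

/-- The covariogram of `K`: the volume of `K ∩ (K + x)`. -/
def covariogram {n : ℕ} (K : Set (EuclideanSpace ℝ (Fin n))) (x : EuclideanSpace ℝ (Fin n)) : ℝ :=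
  volume.real (K ∩ {y | y - x ∈ K})

end Pool.Agent.Helper91
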