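import Pool.Agent.Helper91.RpD

open Real MeasureTheory Set Filter Topology intervalIntegral

noncomputable section

namespace Pool.Agent.Helper91

/-- clamp to `[0, π/2]` -/
def cl (δ : ℝ) : ℝ := max 0 (min δ (π / 2))

lemma cl_cont : Continuous cl := by unfold cl; fun_prop
lemma cl_nonneg (δ : ℝ) : 0 ≤ cl δ := le_max_left _ _
lemma cl_le (δ : ℝ) : cl δ ≤ π / 2 := max_le (by positivity) (min_le_right _ _)
lemma cl_of {δ : ℝ} (h0 : 0 ≤ δ) (h1 : δ ≤ π / 2) : cl δ = δ := by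
  unfold cl; rw [min_eq_left h1, max_eq_right h0]
lemma cl_zero_of {δ : ℝ} (h0 : δ ≤ 0) : cl δ = 0 := by
  unfold cl; rw [min_eq_left (by linarith [pi_pos]), max_eq_left h0]
lemma cl_pos_of {δ : ℝ} (h0 : 0 < δ) : 0 < cl δ := by
  unfold cl; exact lt_max_of_lt_right (lt_min h0 (by positivity))
lemma cl_zero : cl 0 = 0 := cl_zero_of le_rfl

lemma sincl_nonneg (δ : ℝ) : 0 ≤ sin (cl δ) :=
  sin_nonneg_of_nonneg_of_le_pi (cl_nonneg δ) (by linarith [cl_le δ, pi_pos])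
lemma sincl_pos {δ : ℝ} (h : 0 < δ) : 0 < sin (cl δ) :=
  sin_pos_of_pos_of_lt_pi (cl_pos_of h) (by linarith [cl_le δ, pi_pos])
lemma coscl_nonneg (δ : ℝ) : 0 ≤ cos (cl δ) :=
  cos_nonneg_of_neg_pi_div_two_le_of_le (by linarith [cl_nonneg δ, pi_pos]) (cl_le δ)
lemma sincl_le_one (δ : ℝ) : sin (cl δ) ≤ 1 := sin_le_one _
lemma coscl_le_one (δ : ℝ) : cos (cl δ) ≤ 1 := cos_le_one _
lemma cl_le_sin (δ : ℝ) : cl δ ≤ 1.6 * sin (cl δ) := by
  have h := mul_le_sin (cl_nonneg δ) (cl_le δ)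
  have h2 : 0 ≤ cl δ := cl_nonneg δ
  have hp : π < 3.2 := by have := pi_lt_d2; linarith
  have h3 : (2 / 3.2) * cl δ ≤ 2 / π * cl δ := by
    apply mul_le_mul_of_nonneg_right _ h2
    apply div_le_div_of_nonneg_left (by norm_num) pi_pos hp.le
  nlinarith
lemma sin_le_cl (δ : ℝ) : sin (cl δ) ≤ cl δ := sin_le (cl_nonneg δ)

lemma sinc_ge {δ : ℝ} (h0 : 0 ≤ δ) (h1 : δ ≤ π / 2) : 5 / 8 ≤ sinc δ := by
  rcases eq_or_lt_of_le h0 with h | h
  · rw [← h, sinc_zero]; norm_num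
  · rw [sinc_of_ne_zero h.ne']
    have h3 := cl_le_sin δ
    rw [cl_of h0 h1] at h3
    rw [le_div_iff₀ h]
    linarith

lemma sinc_cl_ge (δ : ℝ) : 5 / 8 ≤ sinc (cl δ) := sinc_ge (cl_nonneg δ) (cl_le δ)

/-- normalized cosine moment -/
def pL (h : ℝ → ℝ) (δ : ℝ) : ℝ := (∫ u in (-1 : ℝ)..1, h u * cos (δ * u)) / sinc δ
/-- normalized sine moment -/
def rL (h : ℝ → ℝ) (δ : ℝ) : ℝ := (∫ u in (-1 : ℝ)..1, h u * (u * sinc (δ * u))) / sinc δ ^ 2

lemma int_bd {h w : ℝ → ℝ} {m : ℝ} (hm : ∀ u ∈ Icc (-1 : ℝ) 1, |h u| ≤ m) (hw : ∀ u ∈ Icc (-1 : ℝ) 1, |w u| ≤ 1) :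
    |∫ u in (-1 : ℝ)..1, h u * w u| ≤ 2 * m := by
  have h0 : 0 ≤ m := le_trans (abs_nonneg _) (hm 0 (by constructor <;> norm_num))
  have := intervalIntegral.norm_integral_le_of_norm_le_const (a := (-1 : ℝ)) (b := 1) (C := m)
    (f := fun u => h u * w u) (by
      intro u hu
      rw [uIoc_of_le (by norm_num)] at hu
      have hu' : u ∈ Icc (-1 : ℝ) 1 := Ioc_subset_Icc_self hu
      rw [norm_eq_abs, abs_mul]
      calc |h u| * |w u| ≤ m * 1 := mul_le_mul (hm u hu') (hw u hu') (abs_nonneg _) h0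
        _ = m := mul_one m)
  rw [norm_eq_abs] at this
  calc _ ≤ _ := this
    _ = 2 * m := by norm_num; ring

lemma pL_bd {h : ℝ → ℝ} {m δ : ℝ} (h0 : 0 ≤ δ) (h1 : δ ≤ π / 2)
    (hm : ∀ u ∈ Icc (-1 : ℝ) 1, |h u| ≤ m) : |pL h δ| ≤ 5 * m := by
  have hs := sinc_ge h0 h1
  have hm0 : 0 ≤ m := le_trans (abs_nonneg _) (hm 0 (by constructor <;> norm_num))
  unfold pL
  rw [abs_div, abs_of_pos (by linarith : 0 < sinc δ), div_le_iff₀ (by linarith)]
  have := int_bd (w := fun u => cos (δ * u)) hm (fun u _ => abs_cos_le_one _)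
  nlinarith

lemma rL_bd {h : ℝ → ℝ} {m δ : ℝ} (h0 : 0 ≤ δ) (h1 : δ ≤ π / 2)
    (hm : ∀ u ∈ Icc (-1 : ℝ) 1, |h u| ≤ m) : |rL h δ| ≤ 6 * m := by
  have hs := sinc_ge h0 h1
  have hm0 : 0 ≤ m := le_trans (abs_nonneg _) (hm 0 (by constructor <;> norm_num))
  unfold rL
  have hs2 : (5 / 8) ^ 2 ≤ sinc δ ^ 2 := by gcongr
  rw [abs_div, abs_of_pos (by positivity : 0 < sinc δ ^ 2), div_le_iff₀ (by positivity)]
  have := int_bd (w := fun u => u * sinc (δ * u)) hm (fun u hu => by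
    rw [abs_mul]
    calc |u| * |sinc (δ * u)| ≤ 1 * 1 :=
          mul_le_mul (abs_le.2 hu) (abs_sinc_le_one _) (abs_nonneg _) (by norm_num)
      _ = 1 := by norm_num)
  nlinarith

lemma pL_sub {h k : ℝ → ℝ} (hh : Continuous h) (hk : Continuous k) (δ : ℝ) :
    pL h δ - pL k δ = pL (fun u => h u - k u) δ := by
  unfold pL
  rw [← sub_div, ← intervalIntegral.integral_sub]
  · congr 2; ext u; ring
  · exact (by fun_prop : Continuous fun u => h u * cos (δ * u)).intervalIntegrable _ _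
  · exact (by fun_prop : Continuous fun u => k u * cos (δ * u)).intervalIntegrable _ _

lemma rL_sub {h k : ℝ → ℝ} (hh : Continuous h) (hk : Continuous k) (δ : ℝ) :
    rL h δ - rL k δ = rL (fun u => h u - k u) δ := by
  unfold rL
  have hc := continuous_sinc
  rw [← sub_div, ← intervalIntegral.integral_sub]
  · congr 2; ext u; ring
  · exact (by fun_prop : Continuous fun u => h u * (u * sinc (δ * u))).intervalIntegrable _ _
  · exact (by fun_prop : Continuous fun u => k u * (u * sinc (δ * u))).intervalIntegrable _ _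

lemma pL_const (a : ℝ) {δ : ℝ} (h0 : 0 ≤ δ) (h1 : δ ≤ π / 2) : pL (fun _ => a) δ = 2 * a := by
  have hs := sinc_ge h0 h1
  unfold pL
  rw [div_eq_iff (by linarith)]
  rcases eq_or_lt_of_le h0 with h | h
  · subst h
    simp only [zero_mul, cos_zero, mul_one, sinc_zero, intervalIntegral.integral_const, smul_eq_mul]
    ring
  · rw [sinc_of_ne_zero h.ne', intervalIntegral.integral_const_mul]
    have := intervalIntegral.mul_integral_comp_mul_left (a := (-1 : ℝ)) (b := 1) (f := cos) δ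
    rw [integral_cos] at this
    have h2 : ∫ u in (-1 : ℝ)..1, cos (δ * u) = 2 * sin δ / δ := by
      rw [eq_div_iff h.ne', mul_comm, this]
      rw [show δ * -1 = -δ by ring, sin_neg, mul_one]; ring
    rw [h2]; ring

lemma rL_const (a : ℝ) (δ : ℝ) : rL (fun _ => a) δ = 0 := by
  unfold rL
  have : ∫ u in (-1 : ℝ)..1, a * (u * sinc (δ * u)) = 0 := by
    have h1 := intervalIntegral.integral_comp_neg (a := (-1 : ℝ)) (b := 1)
      (fun u => a * (u * sinc (δ * u)))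
    have h2 : ∫ u in (-1 : ℝ)..1, a * (-u * sinc (δ * -u))
        = -∫ u in (-1 : ℝ)..1, a * (u * sinc (δ * u)) := by
      rw [← intervalIntegral.integral_neg]
      congr 1; ext u
      rw [show δ * -u = -(δ * u) by ring, sinc_neg]; ring
    rw [h2] at h1
    simp only [neg_neg] at h1
    linarith
  rw [this]; simp

/-- `P / sin δ` and `R / sin² δ` -/
def pN (ρ : ℝ → ℝ) (σ δ : ℝ) : ℝ := pL (fun u => ρ (σ + δ * u)) δ
def rN (ρ : ℝ → ℝ) (σ δ : ℝ) : ℝ := rL (fun u => ρ (σ + δ * u)) δ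

lemma pN_cont {ρ : ℝ → ℝ} (h : Continuous ρ) :
    Continuous (fun z : ℝ × ℝ => pN ρ z.1 (cl z.2)) := by
  unfold pN pL
  have hc := cl_cont
  have hs := continuous_sinc
  refine Continuous.div ?_ (by fun_prop) (fun z => by linarith [sinc_cl_ge z.2])
  apply intervalIntegral.continuous_parametric_intervalIntegral_of_continuous'
  simp only [Function.uncurry_def]
  fun_prop

lemma rN_cont {ρ : ℝ → ℝ} (h : Continuous ρ) :
    Continuous (fun z : ℝ × ℝ => rN ρ z.1 (cl z.2)) := by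
  unfold rN rL
  have hc := cl_cont
  have hs := continuous_sinc
  refine Continuous.div ?_ (by fun_prop) (fun z => by
    have := sinc_cl_ge z.2; positivity)
  apply intervalIntegral.continuous_parametric_intervalIntegral_of_continuous'
  simp only [Function.uncurry_def]
  fun_prop

namespace Crv
variable (Γ : Crv)

lemma P_int (σ δ : ℝ) : Γ.P (σ + δ) (σ - δ) = ∫ τ in (-δ)..δ, Γ.ρ (σ + τ) * cos τ := by
  have hd : ∀ τ ∈ uIcc (-δ) δ, HasDerivAt (fun τ => -Γ.X (σ + τ) * sin σ + Γ.Y (σ + τ) * cos σ)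
      (Γ.ρ (σ + τ) * cos τ) τ := by
    intro τ _
    have h1 := (((Γ.hX (σ + τ)).comp_const_add σ τ).neg.mul_const (sin σ)).add
      (((Γ.hY (σ + τ)).comp_const_add σ τ).mul_const (cos σ))
    refine h1.congr_deriv ?_
    rw [show τ = (σ + τ) - σ by ring]
    rw [cos_sub, show σ + (σ + τ - σ) = σ + τ by ring]; ring
  have hc := Γ.cont
  rw [integral_eq_sub_of_hasDerivAt hd
    ((by fun_prop : Continuous fun τ => Γ.ρ (σ + τ) * cos τ).intervalIntegrable _ _)]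
  unfold P
  rw [show (σ + δ + (σ - δ)) / 2 = σ by ring, show σ + -δ = σ - δ by ring]
  ring

lemma R_int (σ δ : ℝ) : Γ.R (σ + δ) (σ - δ) = ∫ τ in (-δ)..δ, Γ.ρ (σ + τ) * sin τ := by
  have hd : ∀ τ ∈ uIcc (-δ) δ, HasDerivAt (fun τ => -Γ.X (σ + τ) * cos σ - Γ.Y (σ + τ) * sin σ)
      (Γ.ρ (σ + τ) * sin τ) τ := by
    intro τ _
    have h1 := (((Γ.hX (σ + τ)).comp_const_add σ τ).neg.mul_const (cos σ)).sub
      (((Γ.hY (σ + τ)).comp_const_add σ τ).mul_const (sin σ))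
    refine h1.congr_deriv ?_
    rw [show τ = (σ + τ) - σ by ring]
    rw [sin_sub, show σ + (σ + τ - σ) = σ + τ by ring]; ring
  have hc := Γ.cont
  rw [integral_eq_sub_of_hasDerivAt hd
    ((by fun_prop : Continuous fun τ => Γ.ρ (σ + τ) * sin τ).intervalIntegrable _ _)]
  unfold R
  rw [show (σ + δ + (σ - δ)) / 2 = σ by ring, show σ + -δ = σ - δ by ring]
  ring

lemma P_pN {σ δ : ℝ} (h0 : 0 < δ) (h1 : δ ≤ π / 2) :
    Γ.P (σ + δ) (σ - δ) = sin δ * pN Γ.ρ σ δ := by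
  have hs := sinc_ge h0.le h1
  rw [P_int]
  have h2 := intervalIntegral.mul_integral_comp_mul_left (a := (-1 : ℝ)) (b := 1)
    (f := fun τ => Γ.ρ (σ + τ) * cos τ) δ
  rw [show δ * -1 = -δ by ring, mul_one] at h2
  rw [← h2]
  unfold pN pL
  rw [sinc_of_ne_zero h0.ne'] at hs ⊢
  have : sin δ ≠ 0 := by
    intro h; rw [h] at hs; norm_num at hs
  field_simp

lemma R_rN {σ δ : ℝ} (h0 : 0 < δ) (h1 : δ ≤ π / 2) :
    Γ.R (σ + δ) (σ - δ) = sin δ ^ 2 * rN Γ.ρ σ δ := by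
  have hs := sinc_ge h0.le h1
  rw [R_int]
  have h2 := intervalIntegral.mul_integral_comp_mul_left (a := (-1 : ℝ)) (b := 1)
    (f := fun τ => Γ.ρ (σ + τ) * sin τ) δ
  rw [show δ * -1 = -δ by ring, mul_one] at h2
  rw [← h2]
  unfold rN rL
  rw [sinc_of_ne_zero h0.ne'] at hs ⊢
  have : sin δ ≠ 0 := by
    intro h; rw [h] at hs; norm_num at hs
  have h3 : ∫ u in (-1 : ℝ)..1, Γ.ρ (σ + δ * u) * sin (δ * u)
      = δ * ∫ u in (-1 : ℝ)..1, Γ.ρ (σ + δ * u) * (u * sinc (δ * u)) := by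
    rw [← intervalIntegral.integral_const_mul]
    congr 1; ext u
    by_cases hu : u = 0
    · subst hu; simp
    · rw [sinc_of_ne_zero (mul_ne_zero h0.ne' hu)]; field_simp
  rw [h3]
  field_simp

end Crv

end Pool.Agent.Helper91
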