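import Pool.Agent.Helper91.RpE

open Real MeasureTheory Set Filter Topology intervalIntegral

noncomputable section

namespace Pool.Agent.Helper91

abbrev V5 := ℝ × ℝ × ℝ × ℝ × ℝ

def eN (v : V5) : ℝ := √(v.1 ^ 2 + v.2.1 ^ 2)
def cN (v : V5) : ℝ := v.1 - v.2.2.1
def dN (v : V5) : ℝ := v.1 + v.2.2.1
def mN (v : V5) : ℝ := v.2.2.2.1 * cN v + v.2.2.2.2 * dN v
def UsN (v : V5) : ℝ := v.1 * (v.1 - 2 * v.2.2.2.1) + v.2.1 ^ 2 + 2 * v.2.2.2.1 * v.2.2.1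
def UtN (v : V5) : ℝ := v.1 * (v.1 - 2 * v.2.2.2.2) + v.2.1 ^ 2 - 2 * v.2.2.2.2 * v.2.2.1
def L1N (v : V5) : ℝ := -eN v ^ 5 / (cN v ^ 2 * dN v ^ 2 * mN v)
def L2N (v : V5) : ℝ :=
  4 * v.1 ^ 2 * eN v ^ 3 * (v.2.2.2.2 * dN v * (eN v ^ 2 - v.2.2.2.1 * cN v) / cN v ^ 2
    + v.2.2.2.1 * cN v * (eN v ^ 2 - v.2.2.2.2 * dN v) / dN v ^ 2) / (cN v ^ 2 * dN v ^ 2 * mN v)
def XiN (v : V5) : ℝ := UsN v * UtN v * L1N v + (v.2.1 ^ 2 + v.2.2.1 ^ 2) * L2N v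
def hN (v : V5) : ℝ := mN v / eN v ^ 2

lemma nF_norm {s e p k rs rt a b T : ℝ} (hs : s ≠ 0) (he : e ≠ 0) (h1 : p - k ≠ 0) (h2 : p + k ≠ 0)
    (h3 : rs * (p - k) + rt * (p + k) ≠ 0)
    (ha : 1 + a ^ 2 = e ^ 2 / (s ^ 2 * (p - k) ^ 2))
    (hb : 1 + b ^ 2 = e ^ 2 / (s ^ 2 * (p + k) ^ 2))
    (hab : (a + b) ^ 2 = 4 * p ^ 2 * T / (s ^ 2 * (p - k) ^ 2 * (p + k) ^ 2)) :
    nF (s * e) (s * (p - k) / e) (s * (p + k) / e) a b rs rt
      = s⁻¹ * (((e ^ 2 - 2 * rs * (p - k)) * (e ^ 2 - 2 * rt * (p + k))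
          * (-e ^ 5 / ((p - k) ^ 2 * (p + k) ^ 2 * (rs * (p - k) + rt * (p + k))))
          + T * (4 * p ^ 2 * e ^ 3 * (rt * (p + k) * (e ^ 2 - rs * (p - k)) / (p - k) ^ 2
    + rs * (p - k) * (e ^ 2 - rt * (p + k)) / (p + k) ^ 2)
      / ((p - k) ^ 2 * (p + k) ^ 2 * (rs * (p - k) + rt * (p + k)))))
          * ((rs * (p - k) + rt * (p + k)) / e ^ 2)) := by
  unfold nF
  rw [ha, hb, hab]
  generalize rs * (p - k) + rt * (p + k) = m at h3 ⊢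
  field_simp

def v0 : V5 := (2, 0, 0, 1, 1)

lemma sqE_N (v : V5) : eN v ^ 2 = v.1 ^ 2 + v.2.1 ^ 2 := by
  unfold eN; rw [sq_sqrt (by positivity)]

lemma eN_cd : ContDiffAt ℝ 1 eN v0 := by
  unfold eN
  apply ContDiffAt.sqrt
  · fun_prop
  · simp [v0]

lemma cN_cd : ContDiffAt ℝ 1 cN v0 := by unfold cN; fun_prop
lemma dN_cd : ContDiffAt ℝ 1 dN v0 := by unfold dN; fun_prop
lemma mN_cd : ContDiffAt ℝ 1 mN v0 := by
  have := cN_cd; have := dN_cd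
  unfold mN; fun_prop

lemma L1N_cd : ContDiffAt ℝ 1 L1N v0 := by
  have h1 := cN_cd; have h2 := dN_cd; have h3 := eN_cd; have h4 := mN_cd
  unfold L1N
  refine ContDiffAt.div (by fun_prop) (by fun_prop) ?_
  simp [cN, dN, mN, v0]

lemma L2N_cd : ContDiffAt ℝ 1 L2N v0 := by
  have h1 := cN_cd; have h2 := dN_cd; have h3 := eN_cd; have h4 := mN_cd
  unfold L2N
  refine ContDiffAt.div ?_ (by fun_prop) ?_
  · refine ContDiffAt.mul (by fun_prop) (ContDiffAt.add ?_ ?_)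
    · refine ContDiffAt.div (by fun_prop) (by fun_prop) ?_
      simp [cN, v0]
    · refine ContDiffAt.div (by fun_prop) (by fun_prop) ?_
      simp [dN, v0]
  · simp [cN, dN, mN, v0]

/-- constants for the local analysis -/
structure Cst where
  r0 : ℝ
  K : ℝ
  r0p : 0 < r0
  r0l : r0 ≤ 1 / 10
  K1 : 1 ≤ K
  lip1 : ∀ v w : V5, dist v v0 ≤ r0 → dist w v0 ≤ r0 → |L1N v - L1N w| ≤ K * dist v w
  lip2 : ∀ v w : V5, dist v v0 ≤ r0 → dist w v0 ≤ r0 → |L2N v - L2N w| ≤ K * dist v w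
  bd1 : ∀ v : V5, dist v v0 ≤ r0 → |L1N v| ≤ K
  bd2 : ∀ v : V5, dist v v0 ≤ r0 → |L2N v| ≤ K

lemma exists_Cst : Nonempty Cst := by
  obtain ⟨K1, t1, ht1, hl1⟩ := L1N_cd.exists_lipschitzOnWith
  obtain ⟨K2, t2, ht2, hl2⟩ := L2N_cd.exists_lipschitzOnWith
  obtain ⟨r1, hr1, hb1⟩ := Metric.mem_nhds_iff.1 (inter_mem ht1 ht2)
  set K : ℝ := max (max 1 K1) (max K2 (max (|L1N v0| + K1) (|L2N v0| + K2))) with hK
  have k0 : 1 ≤ K := le_trans (le_max_left _ _) (le_max_left _ _)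
  have k1 : (K1 : ℝ) ≤ K := le_trans (le_max_right _ _) (le_max_left _ _)
  have k2 : (K2 : ℝ) ≤ K := le_trans (le_max_left _ _) (le_max_right _ _)
  have k3 : |L1N v0| + K1 ≤ K :=
    le_trans (le_trans (le_max_left _ _) (le_max_right _ _)) (le_max_right _ _)
  have k4 : |L2N v0| + K2 ≤ K :=
    le_trans (le_trans (le_max_right _ _) (le_max_right _ _)) (le_max_right _ _)
  have hmem : ∀ v : V5, dist v v0 ≤ min (r1 / 2) (1 / 10) → v ∈ t1 ∩ t2 := fun v hv =>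
    hb1 (Metric.mem_ball.2 (lt_of_le_of_lt (le_trans hv (min_le_left _ _)) (by linarith)))
  have l1 : ∀ v w : V5, dist v v0 ≤ min (r1 / 2) (1 / 10) → dist w v0 ≤ min (r1 / 2) (1 / 10) →
      |L1N v - L1N w| ≤ K1 * dist v w := fun v w hv hw => by
    have := hl1.dist_le_mul v (hmem v hv).1 w (hmem w hw).1
    rwa [Real.dist_eq] at this
  have l2 : ∀ v w : V5, dist v v0 ≤ min (r1 / 2) (1 / 10) → dist w v0 ≤ min (r1 / 2) (1 / 10) →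
      |L2N v - L2N w| ≤ K2 * dist v w := fun v w hv hw => by
    have := hl2.dist_le_mul v (hmem v hv).2 w (hmem w hw).2
    rwa [Real.dist_eq] at this
  have r0p : 0 < min (r1 / 2) (1 / 10) := lt_min (by linarith) (by norm_num)
  have z0 : dist v0 v0 ≤ min (r1 / 2) (1 / 10) := by rw [dist_self]; exact r0p.le
  refine ⟨⟨min (r1 / 2) (1 / 10), K, r0p, min_le_right _ _, k0, ?_, ?_, ?_, ?_⟩⟩
  · intro v w hv hw
    exact (l1 v w hv hw).trans (mul_le_mul_of_nonneg_right k1 dist_nonneg)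
  · intro v w hv hw
    exact (l2 v w hv hw).trans (mul_le_mul_of_nonneg_right k2 dist_nonneg)
  · intro v hv
    have h := l1 v v0 hv z0
    have h' : (K1 : ℝ) * dist v v0 ≤ K1 * 1 :=
      mul_le_mul_of_nonneg_left (hv.trans ((min_le_right _ _).trans (by norm_num))) K1.2
    have := abs_sub_abs_le_abs_sub (L1N v) (L1N v0)
    linarith
  · intro v hv
    have h := l2 v v0 hv z0
    have h' : (K2 : ℝ) * dist v v0 ≤ K2 * 1 :=
      mul_le_mul_of_nonneg_left (hv.trans ((min_le_right _ _).trans (by norm_num))) K2.2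
    have := abs_sub_abs_le_abs_sub (L2N v) (L2N v0)
    linarith

lemma V5_dist (v w : V5) (D : ℝ) : dist v w ≤ D ↔ (|v.1 - w.1| ≤ D ∧ |v.2.1 - w.2.1| ≤ D ∧
    |v.2.2.1 - w.2.2.1| ≤ D ∧ |v.2.2.2.1 - w.2.2.2.1| ≤ D ∧ |v.2.2.2.2 - w.2.2.2.2| ≤ D) := by
  simp only [Prod.dist_eq, max_le_iff, Real.dist_eq]

/-- smallness of the nonlinear quantities -/
structure Sm (v : V5) (M : ℝ) : Prop where
  s : |UsN v| ≤ M
  t : |UtN v| ≤ M
  r : |v.2.1| ≤ M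
  k : |v.2.2.1| ≤ M

lemma Xi_bd (c : Cst) {v : V5} {M : ℝ} (hv : dist v v0 ≤ c.r0) (hs : Sm v M) :
    |XiN v| ≤ 3 * c.K * M ^ 2 := by
  have hM : 0 ≤ M := (abs_nonneg _).trans hs.s
  have hK := c.K1
  have b1 := c.bd1 v hv
  have b2 := c.bd2 v hv
  unfold XiN
  have e1 : |UsN v * UtN v * L1N v| ≤ M * M * c.K := by
    rw [abs_mul, abs_mul]
    gcongr
    · exact hs.s
    · exact hs.t
  have e2 : |(v.2.1 ^ 2 + v.2.2.1 ^ 2) * L2N v| ≤ (M ^ 2 + M ^ 2) * c.K := by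
    rw [abs_mul, abs_of_nonneg (by positivity : 0 ≤ v.2.1 ^ 2 + v.2.2.1 ^ 2)]
    have h1 : v.2.1 ^ 2 ≤ M ^ 2 := sq_le_sq' (abs_le.1 hs.r).1 (abs_le.1 hs.r).2
    have h2 : v.2.2.1 ^ 2 ≤ M ^ 2 := sq_le_sq' (abs_le.1 hs.k).1 (abs_le.1 hs.k).2
    gcongr
  calc _ ≤ _ := abs_add_le _ _
    _ ≤ M * M * c.K + (M ^ 2 + M ^ 2) * c.K := add_le_add e1 e2
    _ = _ := by ring

lemma box {c : Cst} {v : V5} (hv : dist v v0 ≤ c.r0) :
    |v.1 - 2| ≤ 1 / 10 ∧ |v.2.1| ≤ 1 / 10 ∧ |v.2.2.1| ≤ 1 / 10 ∧ |v.2.2.2.1 - 1| ≤ 1 / 10 ∧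
      |v.2.2.2.2 - 1| ≤ 1 / 10 := by
  have := (V5_dist v v0 _).1 (hv.trans c.r0l)
  simpa [v0] using this

lemma Us_diff {c : Cst} {v w : V5} (hv : dist v v0 ≤ c.r0) (hw : dist w v0 ≤ c.r0) :
    |UsN v - UsN w| ≤ 20 * dist v w := by
  obtain ⟨a1, a2, a3, a4, a5⟩ := box hv
  obtain ⟨b1, b2, b3, b4, b5⟩ := box hw
  obtain ⟨d1, d2, d3, d4, d5⟩ := (V5_dist v w _).1 le_rfl
  rw [abs_le] at a1 a2 a3 a4 a5 b1 b2 b3 b4 b5
  set D := dist v w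
  have hD : 0 ≤ D := dist_nonneg
  have e : UsN v - UsN w = (v.1 - w.1) * (v.1 + w.1 - 2 * v.2.2.2.1)
      + (v.2.2.2.1 - w.2.2.2.1) * (-2 * w.1 + 2 * w.2.2.1)
      + (v.2.1 - w.2.1) * (v.2.1 + w.2.1) + (v.2.2.1 - w.2.2.1) * (2 * v.2.2.2.1) := by
    unfold UsN; ring
  rw [e]
  have m : ∀ x y B : ℝ, |x| ≤ D → |y| ≤ B → |x * y| ≤ B * D := fun x y B hx hy => by
    rw [abs_mul, mul_comm B D]
    exact mul_le_mul hx hy (abs_nonneg _) hD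
  have m1 := m _ (v.1 + w.1 - 2 * v.2.2.2.1) 3 d1 (by rw [abs_le]; constructor <;> linarith)
  have m2 := m _ (-2 * w.1 + 2 * w.2.2.1) 5 d4 (by rw [abs_le]; constructor <;> linarith)
  have m3 := m _ (v.2.1 + w.2.1) 1 d2 (by rw [abs_le]; constructor <;> linarith)
  have m4 := m _ (2 * v.2.2.2.1) 3 d3 (by rw [abs_le]; constructor <;> linarith)
  rw [abs_le] at m1 m2 m3 m4 ⊢
  constructor <;> linarith

lemma Ut_diff {c : Cst} {v w : V5} (hv : dist v v0 ≤ c.r0) (hw : dist w v0 ≤ c.r0) :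
    |UtN v - UtN w| ≤ 20 * dist v w := by
  obtain ⟨a1, a2, a3, a4, a5⟩ := box hv
  obtain ⟨b1, b2, b3, b4, b5⟩ := box hw
  obtain ⟨d1, d2, d3, d4, d5⟩ := (V5_dist v w _).1 le_rfl
  rw [abs_le] at a1 a2 a3 a4 a5 b1 b2 b3 b4 b5
  set D := dist v w
  have hD : 0 ≤ D := dist_nonneg
  have e : UtN v - UtN w = (v.1 - w.1) * (v.1 + w.1 - 2 * v.2.2.2.2)
      + (v.2.2.2.2 - w.2.2.2.2) * (-2 * w.1 - 2 * w.2.2.1)
      + (v.2.1 - w.2.1) * (v.2.1 + w.2.1) + (v.2.2.1 - w.2.2.1) * (-2 * v.2.2.2.2) := by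
    unfold UtN; ring
  rw [e]
  have m : ∀ x y B : ℝ, |x| ≤ D → |y| ≤ B → |x * y| ≤ B * D := fun x y B hx hy => by
    rw [abs_mul, mul_comm B D]
    exact mul_le_mul hx hy (abs_nonneg _) hD
  have m1 := m _ (v.1 + w.1 - 2 * v.2.2.2.2) 3 d1 (by rw [abs_le]; constructor <;> linarith)
  have m2 := m _ (-2 * w.1 - 2 * w.2.2.1) 5 d5 (by rw [abs_le]; constructor <;> linarith)
  have m3 := m _ (v.2.1 + w.2.1) 1 d2 (by rw [abs_le]; constructor <;> linarith)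
  have m4 := m _ (-2 * v.2.2.2.2) 3 d3 (by rw [abs_le]; constructor <;> linarith)
  rw [abs_le] at m1 m2 m3 m4 ⊢
  constructor <;> linarith

lemma Xi_diff (c : Cst) {v w : V5} {M : ℝ} (hv : dist v v0 ≤ c.r0) (hw : dist w v0 ≤ c.r0)
    (sv : Sm v M) (sw : Sm w M) (hM1 : M ≤ 1) :
    |XiN v - XiN w| ≤ 50 * c.K * M * dist v w := by
  have hM : 0 ≤ M := (abs_nonneg _).trans sv.s
  have hK := c.K1
  have bv1 := c.bd1 v hv
  have bv2 := c.bd2 v hv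
  have l1 := c.lip1 v w hv hw
  have l2 := c.lip2 v w hv hw
  have us := Us_diff hv hw
  have ut := Ut_diff hv hw
  obtain ⟨d1, d2, d3, d4, d5⟩ := (V5_dist v w _).1 le_rfl
  set D := dist v w
  have hD : 0 ≤ D := dist_nonneg
  have e : XiN v - XiN w = (UsN v - UsN w) * UtN v * L1N v + UsN w * (UtN v - UtN w) * L1N v
      + UsN w * UtN w * (L1N v - L1N w)
      + (v.2.1 - w.2.1) * (v.2.1 + w.2.1) * L2N v
      + (v.2.2.1 - w.2.2.1) * (v.2.2.1 + w.2.2.1) * L2N v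
      + (w.2.1 ^ 2 + w.2.2.1 ^ 2) * (L2N v - L2N w) := by
    unfold XiN; ring
  rw [e]
  have m : ∀ x y z a b c : ℝ, |x| ≤ a → |y| ≤ b → |z| ≤ c → |x * y * z| ≤ a * b * c := by
    intro x y z a b c hx hy hz
    have ha := (abs_nonneg _).trans hx
    have hb := (abs_nonneg _).trans hy
    rw [abs_mul, abs_mul]
    exact mul_le_mul (mul_le_mul hx hy (abs_nonneg _) ha) hz (abs_nonneg _) (mul_nonneg ha hb)
  have m1 := m _ _ _ _ _ _ us sv.t bv1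
  have m2 := m _ _ _ _ _ _ sw.s ut bv1
  have m3 := m _ _ _ _ _ _ sw.s sw.t l1
  have m4 := m _ _ _ _ (2 * M) _ d2 (show |v.2.1 + w.2.1| ≤ 2 * M by
    have := sv.r; have := sw.r
    exact (abs_add_le _ _).trans (by linarith)) bv2
  have m5 := m _ _ _ _ (2 * M) _ d3 (show |v.2.2.1 + w.2.2.1| ≤ 2 * M by
    have := sv.k; have := sw.k
    exact (abs_add_le _ _).trans (by linarith)) bv2
  have m6 : |(w.2.1 ^ 2 + w.2.2.1 ^ 2) * (L2N v - L2N w)| ≤ (M ^ 2 + M ^ 2) * (c.K * D) := by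
    rw [abs_mul, abs_of_nonneg (by positivity : 0 ≤ w.2.1 ^ 2 + w.2.2.1 ^ 2)]
    have h1 : w.2.1 ^ 2 ≤ M ^ 2 := sq_le_sq' (abs_le.1 sw.r).1 (abs_le.1 sw.r).2
    have h2 : w.2.2.1 ^ 2 ≤ M ^ 2 := sq_le_sq' (abs_le.1 sw.k).1 (abs_le.1 sw.k).2
    gcongr
  have hMM : M * M * (c.K * D) ≤ M * (c.K * D) := by
    have : 0 ≤ M * (c.K * D) := by positivity
    nlinarith
  have hMM2 : (M ^ 2 + M ^ 2) * (c.K * D) ≤ 2 * (M * (c.K * D)) := by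
    have : 0 ≤ M * (c.K * D) := by positivity
    nlinarith
  have hp : 0 ≤ M * (c.K * D) := by positivity
  rw [abs_le] at m1 m2 m3 m4 m5 m6 ⊢
  constructor <;> linarith

end Pool.Agent.Helper91
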