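import Pool.Agent.Helper91.RpF

open Real MeasureTheory Set Filter Topology intervalIntegral

noncomputable section

namespace Pool.Agent.Helper91

structure Good (η : ℝ) (ρ : ℝ → ℝ) : Prop where
  bd : ∀ x, |ρ x - 1| ≤ η
  lip : ∀ x y, |ρ x - ρ y| ≤ η * |x - y|

lemma cont_of_lip {η : ℝ} {ρ : ℝ → ℝ} (h : ∀ x y, |ρ x - ρ y| ≤ η * |x - y|) : Continuous ρ := by
  have h0 : 0 ≤ η := by
    have := (abs_nonneg _).trans (h 1 0)
    simpa using this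
  have : LipschitzWith ⟨η, h0⟩ ρ := LipschitzWith.of_dist_le_mul fun x y => by
    rw [Real.dist_eq, Real.dist_eq]; exact h x y
  exact this.continuous

lemma Good.cont {η : ℝ} {ρ : ℝ → ℝ} (h : Good η ρ) : Continuous ρ := cont_of_lip h.lip

lemma Good.nn {η : ℝ} {ρ : ℝ → ℝ} (h : Good η ρ) : 0 ≤ η := (abs_nonneg _).trans (h.bd 0)

def vv (ρ : ℝ → ℝ) (σ δ : ℝ) : V5 :=
  (pN ρ σ (cl δ), rN ρ σ (cl δ) * sin (cl δ), rN ρ σ (cl δ) * cos (cl δ), ρ (σ + cl δ), ρ (σ - cl δ))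

lemma vv_cont {ρ : ℝ → ℝ} (h : Continuous ρ) : Continuous (fun z : ℝ × ℝ => vv ρ z.1 z.2) := by
  have h1 := pN_cont h
  have h2 := rN_cont h
  have h3 := cl_cont
  unfold vv
  fun_prop

lemma vv_dist {η : ℝ} {ρ1 ρ2 : ℝ → ℝ} (h1 : Good η ρ1) (h2 : Good η ρ2) {D : ℝ}
    (hD : ∀ x, |ρ1 x - ρ2 x| ≤ D) (σ1 σ2 δ : ℝ) :
    dist (vv ρ1 σ1 δ) (vv ρ2 σ2 δ) ≤ 6 * (D + η * |σ1 - σ2|) := by
  have hη := h1.nn
  have hD0 : 0 ≤ D := (abs_nonneg _).trans (hD 0)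
  have c1 := h1.cont
  have c2 := h2.cont
  set m := D + η * |σ1 - σ2| with hm
  have hm0 : 0 ≤ m := by positivity
  have key : ∀ τ, |ρ1 (σ1 + τ) - ρ2 (σ2 + τ)| ≤ m := by
    intro τ
    have e : ρ1 (σ1 + τ) - ρ2 (σ2 + τ) = (ρ1 (σ1 + τ) - ρ1 (σ2 + τ)) + (ρ1 (σ2 + τ) - ρ2 (σ2 + τ)) := by
      ring
    have a1 := h1.lip (σ1 + τ) (σ2 + τ)
    have a2 := hD (σ2 + τ)
    rw [show σ1 + τ - (σ2 + τ) = σ1 - σ2 by ring] at a1
    rw [e]
    exact (abs_add_le _ _).trans (by rw [hm]; linarith)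
  have hp : |pN ρ1 σ1 (cl δ) - pN ρ2 σ2 (cl δ)| ≤ 5 * m := by
    unfold pN
    rw [pL_sub (by fun_prop) (by fun_prop)]
    exact pL_bd (cl_nonneg _) (cl_le _) fun u _ => key _
  have hr : |rN ρ1 σ1 (cl δ) - rN ρ2 σ2 (cl δ)| ≤ 6 * m := by
    unfold rN
    rw [rL_sub (by fun_prop) (by fun_prop)]
    exact rL_bd (cl_nonneg _) (cl_le _) fun u _ => key _
  rw [V5_dist]
  simp only [vv]
  refine ⟨by linarith, ?_, ?_, ?_, ?_⟩
  · rw [← sub_mul, abs_mul, abs_of_nonneg (sincl_nonneg δ)]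
    calc _ ≤ |rN ρ1 σ1 (cl δ) - rN ρ2 σ2 (cl δ)| * 1 :=
          mul_le_mul_of_nonneg_left (sincl_le_one δ) (abs_nonneg _)
      _ ≤ _ := by linarith
  · rw [← sub_mul, abs_mul, abs_of_nonneg (coscl_nonneg δ)]
    calc _ ≤ |rN ρ1 σ1 (cl δ) - rN ρ2 σ2 (cl δ)| * 1 :=
          mul_le_mul_of_nonneg_left (coscl_le_one δ) (abs_nonneg _)
      _ ≤ _ := by linarith
  · exact (key _).trans (by linarith)
  · have := key (-cl δ)
    rw [← sub_eq_add_neg, ← sub_eq_add_neg] at this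
    exact this.trans (by linarith)

lemma vv_v0 {η : ℝ} {ρ : ℝ → ℝ} (h : Good η ρ) (σ δ : ℝ) : dist (vv ρ σ δ) v0 ≤ 6 * η := by
  have hη := h.nn
  have c1 := h.cont
  have hp : |pN ρ σ (cl δ) - 2| ≤ 5 * η := by
    have := pL_const 1 (cl_nonneg δ) (cl_le δ)
    rw [mul_one] at this
    rw [← this]
    unfold pN
    rw [pL_sub (by fun_prop) (by fun_prop)]
    exact pL_bd (cl_nonneg _) (cl_le _) fun u _ => h.bd _
  have hr : |rN ρ σ (cl δ)| ≤ 6 * η := by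
    have := rL_const 1 (cl δ)
    rw [← sub_zero (rN ρ σ (cl δ)), ← this]
    unfold rN
    rw [rL_sub (by fun_prop) (by fun_prop)]
    exact rL_bd (cl_nonneg _) (cl_le _) fun u _ => h.bd _
  rw [V5_dist]
  simp only [vv, v0, sub_zero]
  refine ⟨by linarith, ?_, ?_, ?_, ?_⟩
  · rw [abs_mul, abs_of_nonneg (sincl_nonneg δ)]
    calc _ ≤ |rN ρ σ (cl δ)| * 1 :=
          mul_le_mul_of_nonneg_left (sincl_le_one δ) (abs_nonneg _)
      _ ≤ _ := by linarith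
  · rw [abs_mul, abs_of_nonneg (coscl_nonneg δ)]
    calc _ ≤ |rN ρ σ (cl δ)| * 1 :=
          mul_le_mul_of_nonneg_left (coscl_le_one δ) (abs_nonneg _)
      _ ≤ _ := by linarith
  · exact (h.bd _).trans (by linarith)
  · exact (h.bd _).trans (by linarith)

lemma vv_sm {η : ℝ} {ρ : ℝ → ℝ} (h : Good η ρ) (hη1 : 60 * η ≤ 1) (σ δ : ℝ) :
    Sm (vv ρ σ δ) (100 * η * sin (cl δ)) := by
  have hη := h.nn
  have c1 := h.cont
  have hs := sincl_nonneg δ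
  have hsl := cl_le_sin δ
  have hcl := cl_nonneg δ
  obtain ⟨a1, a2, a3, a4, a5⟩ := (V5_dist _ _ _).1 (vv_v0 h σ δ)
  simp only [v0, sub_zero] at a1 a2 a3 a4 a5
  have hps : |pN ρ σ (cl δ) - 2 * ρ (σ + cl δ)| ≤ 16 * (η * sin (cl δ)) := by
    rw [← pL_const (ρ (σ + cl δ)) (cl_nonneg δ) (cl_le δ)]
    unfold pN
    rw [pL_sub (by fun_prop) (by fun_prop)]
    have := pL_bd (h := fun u => ρ (σ + cl δ * u) - ρ (σ + cl δ)) (m := η * (2 * cl δ))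
      (cl_nonneg δ) (cl_le δ) (fun u hu => by
        refine (h.lip _ _).trans ?_
        gcongr
        rw [show σ + cl δ * u - (σ + cl δ) = cl δ * (u - 1) by ring, abs_mul, abs_of_nonneg hcl,
          mul_comm]
        gcongr
        rw [abs_le]; constructor <;> linarith [hu.1, hu.2])
    refine this.trans ?_
    nlinarith
  have hpt : |pN ρ σ (cl δ) - 2 * ρ (σ - cl δ)| ≤ 16 * (η * sin (cl δ)) := by
    rw [← pL_const (ρ (σ - cl δ)) (cl_nonneg δ) (cl_le δ)]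
    unfold pN
    rw [pL_sub (by fun_prop) (by fun_prop)]
    have := pL_bd (h := fun u => ρ (σ + cl δ * u) - ρ (σ - cl δ)) (m := η * (2 * cl δ))
      (cl_nonneg δ) (cl_le δ) (fun u hu => by
        refine (h.lip _ _).trans ?_
        gcongr
        rw [show σ + cl δ * u - (σ - cl δ) = cl δ * (u + 1) by ring, abs_mul, abs_of_nonneg hcl,
          mul_comm]
        gcongr
        rw [abs_le]; constructor <;> linarith [hu.1, hu.2])
    refine this.trans ?_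
    nlinarith
  have hr : |rN ρ σ (cl δ)| ≤ 10 * (η * sin (cl δ)) := by
    rw [← sub_zero (rN ρ σ (cl δ)), ← rL_const (ρ σ) (cl δ)]
    unfold rN
    rw [rL_sub (by fun_prop) (by fun_prop)]
    have := rL_bd (h := fun u => ρ (σ + cl δ * u) - ρ σ) (m := η * (1 * cl δ))
      (cl_nonneg δ) (cl_le δ) (fun u hu => by
        refine (h.lip _ _).trans ?_
        gcongr
        rw [show σ + cl δ * u - σ = cl δ * u by ring, abs_mul, abs_of_nonneg hcl,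
          mul_comm]
        gcongr
        rw [abs_le]; constructor <;> linarith [hu.1, hu.2])
    refine this.trans ?_
    nlinarith
  have hηs : 0 ≤ η * sin (cl δ) := mul_nonneg hη hs
  have h2 : |(vv ρ σ δ).2.1| ≤ 10 * (η * sin (cl δ)) := by
    simp only [vv]
    rw [abs_mul, abs_of_nonneg (sincl_nonneg δ)]
    calc _ ≤ |rN ρ σ (cl δ)| * 1 :=
          mul_le_mul_of_nonneg_left (sincl_le_one δ) (abs_nonneg _)
      _ ≤ _ := by linarith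
  have h3 : |(vv ρ σ δ).2.2.1| ≤ 10 * (η * sin (cl δ)) := by
    simp only [vv]
    rw [abs_mul, abs_of_nonneg (coscl_nonneg δ)]
    calc _ ≤ |rN ρ σ (cl δ)| * 1 :=
          mul_le_mul_of_nonneg_left (coscl_le_one δ) (abs_nonneg _)
      _ ≤ _ := by linarith
  have hp1 : |(vv ρ σ δ).1| ≤ 3 := by
    rw [abs_le] at a1 ⊢; constructor <;> linarith
  have hs1 : |(vv ρ σ δ).2.2.2.1| ≤ 2 := by
    rw [abs_le] at a4 ⊢; constructor <;> linarith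
  have ht1 : |(vv ρ σ δ).2.2.2.2| ≤ 2 := by
    rw [abs_le] at a5 ⊢; constructor <;> linarith
  have hr2 : |(vv ρ σ δ).2.1 ^ 2| ≤ 2 * (η * sin (cl δ)) := by
    rw [abs_pow, sq]
    have : |(vv ρ σ δ).2.1| ≤ 1 / 10 := a2.trans (by linarith)
    nlinarith [abs_nonneg (vv ρ σ δ).2.1]
  have m : ∀ x y a b : ℝ, |x| ≤ a → |y| ≤ b → |x * y| ≤ a * b := by
    intro x y a b hx hy
    have ha := (abs_nonneg _).trans hx
    rw [abs_mul]
    exact mul_le_mul hx hy (abs_nonneg _) ha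
  refine ⟨?_, ?_, by linarith, by linarith⟩
  · unfold UsN
    have m1 := m (vv ρ σ δ).1 ((vv ρ σ δ).1 - 2 * (vv ρ σ δ).2.2.2.1) _ _ hp1
      (by simpa only [vv] using hps)
    have m2 := m _ _ _ _ hs1 h3
    rw [abs_le] at m1 m2 hr2 ⊢
    constructor <;> linarith
  · unfold UtN
    have m1 := m (vv ρ σ δ).1 ((vv ρ σ δ).1 - 2 * (vv ρ σ δ).2.2.2.2) _ _ hp1
      (by simpa only [vv] using hpt)
    have m2 := m _ _ _ _ ht1 h3
    rw [abs_le] at m1 m2 hr2 ⊢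
    constructor <;> linarith

lemma arctan_lip (x y : ℝ) : |arctan x - arctan y| ≤ |x - y| := by
  have := Convex.norm_image_sub_le_of_norm_hasDerivWithin_le (f := arctan)
    (f' := fun x => 1 / (1 + x ^ 2)) (s := univ) (C := 1) (x := y) (y := x)
    (fun x _ => (hasDerivAt_arctan x).hasDerivWithinAt)
    (fun x _ => by
      rw [norm_eq_abs, abs_of_pos (by positivity), div_le_one (by positivity)]
      nlinarith [sq_nonneg x]) convex_univ (mem_univ _) (mem_univ _)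
  simpa [norm_eq_abs] using this

/-- the angle correction -/
def psi (ρ : ℝ → ℝ) (σ δ : ℝ) : ℝ := arctan ((vv ρ σ δ).2.1 / (vv ρ σ δ).1)

lemma vv1_pos {η : ℝ} {ρ : ℝ → ℝ} (h : Good η ρ) (hη1 : 60 * η ≤ 1) (σ δ : ℝ) :
    1.9 ≤ (vv ρ σ δ).1 ∧ (vv ρ σ δ).1 ≤ 2.1 ∧ |(vv ρ σ δ).2.1| ≤ 0.1 := by
  obtain ⟨a1, a2, a3, a4, a5⟩ := (V5_dist _ _ _).1 (vv_v0 h σ δ)
  simp only [v0, sub_zero] at a1 a2 a3 a4 a5
  rw [abs_le] at a1
  refine ⟨by linarith, by linarith, by linarith⟩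

lemma psi_diff {η : ℝ} {ρ1 ρ2 : ℝ → ℝ} (h1 : Good η ρ1) (h2 : Good η ρ2) (hη1 : 60 * η ≤ 1)
    (σ1 σ2 δ : ℝ) :
    |psi ρ1 σ1 δ - psi ρ2 σ2 δ| ≤ dist (vv ρ1 σ1 δ) (vv ρ2 σ2 δ) := by
  unfold psi
  refine (arctan_lip _ _).trans ?_
  obtain ⟨d1, d2, d3, d4, d5⟩ := (V5_dist (vv ρ1 σ1 δ) (vv ρ2 σ2 δ) _).1 le_rfl
  obtain ⟨x1, x2, x3⟩ := vv1_pos h1 hη1 σ1 δ
  obtain ⟨y1, y2, y3⟩ := vv1_pos h2 hη1 σ2 δ
  set v := vv ρ1 σ1 δ
  set w := vv ρ2 σ2 δ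
  have hD : 0 ≤ dist v w := dist_nonneg
  generalize dist v w = D at *
  have hv : v.1 ≠ 0 := by linarith
  have hw : w.1 ≠ 0 := by linarith
  have e : v.2.1 / v.1 - w.2.1 / w.1 = ((v.2.1 - w.2.1) * w.1 - w.2.1 * (v.1 - w.1)) / (v.1 * w.1) := by
    field_simp; ring
  rw [e, abs_div, abs_of_pos (by positivity : 0 < v.1 * w.1), div_le_iff₀ (by positivity)]
  have m1 : |(v.2.1 - w.2.1) * w.1| ≤ D * 2.1 := by
    rw [abs_mul, abs_of_pos (by linarith : 0 < w.1)]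
    gcongr
  have m2 : |w.2.1 * (v.1 - w.1)| ≤ 0.1 * D := by
    rw [abs_mul]; gcongr
  have m3 : D * 3.61 ≤ D * (v.1 * w.1) := by
    gcongr; nlinarith
  calc _ ≤ |(v.2.1 - w.2.1) * w.1| + |w.2.1 * (v.1 - w.1)| := abs_sub _ _
    _ ≤ _ := by linarith

lemma psi_cont {η : ℝ} {ρ : ℝ → ℝ} (h : Good η ρ) (hη1 : 60 * η ≤ 1) :
    Continuous (fun z : ℝ × ℝ => psi ρ z.1 z.2) := by
  have h1 := vv_cont h.cont
  unfold psi
  refine continuous_arctan.comp ?_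
  refine Continuous.div h1.snd.fst h1.fst ?_
  intro z
  have := (vv1_pos h hη1 z.1 z.2).1
  linarith

lemma psi_cont1 {η : ℝ} {ρ : ℝ → ℝ} (h : Good η ρ) (hη1 : 60 * η ≤ 1) (δ : ℝ) :
    Continuous (fun σ => psi ρ σ δ) := by
  have := Continuous.comp (g := fun z : ℝ × ℝ => psi ρ z.1 z.2) (psi_cont h hη1)
    (f := fun σ => (σ, δ)) (by fun_prop)
  simpa only [Function.comp_def] using this

lemma psi_cont2 {η : ℝ} {ρ : ℝ → ℝ} (h : Good η ρ) (hη1 : 60 * η ≤ 1) (σ : ℝ) :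
    Continuous (fun δ => psi ρ σ δ) := by
  have := Continuous.comp (g := fun z : ℝ × ℝ => psi ρ z.1 z.2) (psi_cont h hη1)
    (f := fun δ => (σ, δ)) (by fun_prop)
  simpa only [Function.comp_def] using this

lemma psi_bd (ρ : ℝ → ℝ) (σ δ : ℝ) : |psi ρ σ δ| ≤ 2 := by
  unfold psi
  have h1 := arctan_lt_pi_div_two ((vv ρ σ δ).2.1 / (vv ρ σ δ).1)
  have h2 := neg_pi_div_two_lt_arctan ((vv ρ σ δ).2.1 / (vv ρ σ δ).1)
  have := pi_lt_d2
  rw [abs_le]; constructor <;> linarith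

lemma SS_exists {η : ℝ} {ρ : ℝ → ℝ} (h : Good η ρ) (hη1 : 60 * η ≤ 1) (δ α : ℝ) :
    ∃ σ, σ + psi ρ σ δ = α := by
  have hc := psi_cont1 h hη1 δ
  have hc' : Continuous (fun σ => σ + psi ρ σ δ) := continuous_id.add hc
  have := intermediate_value_Icc (a := α - 2) (b := α + 2) (by linarith) hc'.continuousOn
  have hm : α ∈ Icc (α - 2 + psi ρ (α - 2) δ) (α + 2 + psi ρ (α + 2) δ) := by
    have h1 := abs_le.1 (psi_bd ρ (α - 2) δ)
    have h2 := abs_le.1 (psi_bd ρ (α + 2) δ)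
    constructor <;> linarith
  obtain ⟨σ, _, hσ⟩ := this hm
  exact ⟨σ, hσ⟩

open Classical in
def SS (ρ : ℝ → ℝ) (δ α : ℝ) : ℝ := if h : ∃ σ, σ + psi ρ σ δ = α then h.choose else 0

lemma SS_spec {η : ℝ} {ρ : ℝ → ℝ} (h : Good η ρ) (hη1 : 60 * η ≤ 1) (δ α : ℝ) :
    SS ρ δ α + psi ρ (SS ρ δ α) δ = α := by
  unfold SS
  rw [dif_pos (SS_exists h hη1 δ α)]
  exact (SS_exists h hη1 δ α).choose_spec

lemma half_aux {x y D η : ℝ} (hη1 : 60 * η ≤ 1) (h : |x| ≤ |y| + 6 * (D + η * |x|)) :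
    |x| ≤ 2 * |y| + 14 * D ∨ D < 0 := by
  by_cases hD : D < 0
  · exact Or.inr hD
  · left
    push Not at hD
    have : 6 * (η * |x|) ≤ 1 / 10 * |x| := by
      have := abs_nonneg x
      nlinarith
    linarith [abs_nonneg y]

lemma SS_diff {η : ℝ} {ρ1 ρ2 : ℝ → ℝ} (h1 : Good η ρ1) (h2 : Good η ρ2) (hη1 : 60 * η ≤ 1)
    {D : ℝ} (hD : ∀ x, |ρ1 x - ρ2 x| ≤ D) (δ α1 α2 : ℝ) :
    |SS ρ1 δ α1 - SS ρ2 δ α2| ≤ 2 * |α1 - α2| + 14 * D := by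
  have s1 := SS_spec h1 hη1 δ α1
  have s2 := SS_spec h2 hη1 δ α2
  have hD0 : 0 ≤ D := (abs_nonneg _).trans (hD 0)
  have e : SS ρ1 δ α1 - SS ρ2 δ α2
      = (α1 - α2) - (psi ρ1 (SS ρ1 δ α1) δ - psi ρ2 (SS ρ2 δ α2) δ) := by linarith
  have b := (psi_diff h1 h2 hη1 (SS ρ1 δ α1) (SS ρ2 δ α2) δ).trans
    (vv_dist h1 h2 hD (SS ρ1 δ α1) (SS ρ2 δ α2) δ)
  have : |SS ρ1 δ α1 - SS ρ2 δ α2| ≤ |α1 - α2| + 6 * (D + η * |SS ρ1 δ α1 - SS ρ2 δ α2|) := by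
    calc |SS ρ1 δ α1 - SS ρ2 δ α2| = |(α1 - α2) - (psi ρ1 (SS ρ1 δ α1) δ - psi ρ2 (SS ρ2 δ α2) δ)| := by
          rw [← e]
      _ ≤ |α1 - α2| + |psi ρ1 (SS ρ1 δ α1) δ - psi ρ2 (SS ρ2 δ α2) δ| := abs_sub _ _
      _ ≤ _ := by linarith
  rcases half_aux hη1 this with h | h
  · exact h
  · linarith

lemma SS_unique {η : ℝ} {ρ : ℝ → ℝ} (h : Good η ρ) (hη1 : 60 * η ≤ 1) {δ α σ : ℝ}
    (hσ : σ + psi ρ σ δ = α) : SS ρ δ α = σ := by
  have s1 := SS_spec h hη1 δ α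
  have hη := h.nn
  have b := (psi_diff h h hη1 (SS ρ δ α) σ δ).trans
    (vv_dist (D := 0) h h (fun x => by simp) (SS ρ δ α) σ δ)
  have e : SS ρ δ α - σ = -(psi ρ (SS ρ δ α) δ - psi ρ σ δ) := by linarith
  rw [← abs_neg, ← e] at b
  have : 6 * (η * |SS ρ δ α - σ|) ≤ 1 / 10 * |SS ρ δ α - σ| := by
    have := abs_nonneg (SS ρ δ α - σ)
    nlinarith
  have h0 : |SS ρ δ α - σ| ≤ 0 := by linarith [abs_nonneg (SS ρ δ α - σ)]
  have := abs_nonpos_iff.1 h0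
  linarith

lemma SS_cont {η : ℝ} {ρ : ℝ → ℝ} (h : Good η ρ) (hη1 : 60 * η ≤ 1) :
    Continuous (fun z : ℝ × ℝ => SS ρ z.2 z.1) := by
  have hη := h.nn
  rw [continuous_iff_continuousAt]
  rintro ⟨α0, δ0⟩
  unfold ContinuousAt
  simp only
  rw [tendsto_iff_dist_tendsto_zero]
  have hc := psi_cont h hη1
  set σ0 := SS ρ δ0 α0 with hσ0
  have hbound : ∀ z : ℝ × ℝ, dist (SS ρ z.2 z.1) σ0
      ≤ 2 * |z.1 - α0| + 2 * |psi ρ σ0 δ0 - psi ρ σ0 z.2| := by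
    rintro ⟨α, δ⟩
    simp only [Real.dist_eq]
    have b1 := SS_diff (D := 0) h h hη1 (fun x => by simp) δ α α0
    have s1 := SS_spec h hη1 δ α0
    have s2 := SS_spec h hη1 δ0 α0
    rw [← hσ0] at s2
    have b := (psi_diff h h hη1 σ0 (SS ρ δ α0) δ).trans
      (vv_dist (D := 0) h h (fun x => by simp) σ0 (SS ρ δ α0) δ)
    have e : SS ρ δ α0 - σ0 = (psi ρ σ0 δ0 - psi ρ σ0 δ) + (psi ρ σ0 δ - psi ρ (SS ρ δ α0) δ) := by
      linarith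
    have b2 : |SS ρ δ α0 - σ0| ≤ |psi ρ σ0 δ0 - psi ρ σ0 δ| + 6 * (0 + η * |SS ρ δ α0 - σ0|) := by
      calc |SS ρ δ α0 - σ0| = |(psi ρ σ0 δ0 - psi ρ σ0 δ) + (psi ρ σ0 δ - psi ρ (SS ρ δ α0) δ)| := by
            rw [← e]
        _ ≤ |psi ρ σ0 δ0 - psi ρ σ0 δ| + |psi ρ σ0 δ - psi ρ (SS ρ δ α0) δ| := abs_add_le _ _
        _ ≤ _ := by rw [abs_sub_comm (SS ρ δ α0) σ0]; linarith
    have b3 : |SS ρ δ α0 - σ0| ≤ 2 * |psi ρ σ0 δ0 - psi ρ σ0 δ| := by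
      rcases half_aux hη1 b2 with h | h
      · linarith
      · linarith
    have e2 : SS ρ δ α - σ0 = (SS ρ δ α - SS ρ δ α0) + (SS ρ δ α0 - σ0) := by ring
    rw [e2]
    exact (abs_add_le _ _).trans (by linarith)
  refine squeeze_zero (fun _ => dist_nonneg) hbound ?_
  have hcc : Continuous (fun z : ℝ × ℝ => 2 * |z.1 - α0| + 2 * |psi ρ σ0 δ0 - psi ρ σ0 z.2|) := by
    have h5 := (psi_cont2 h hη1 σ0).comp continuous_snd (X := ℝ × ℝ)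
    simp only [Function.comp_def] at h5
    exact (by fun_prop : Continuous fun z : ℝ × ℝ => 2 * |z.1 - α0|).add
      ((continuous_const.sub h5).abs.const_smul (2 : ℝ))
  have := hcc.tendsto (α0, δ0)
  simpa using this

end Pool.Agent.Helper91
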