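import Pool.Agent.Helper91.RpG

open Real MeasureTheory Set Filter Topology intervalIntegral

noncomputable section

namespace Pool.Agent.Helper91

lemma XiN_contOn (c : Cst) : ContinuousOn XiN (Metric.closedBall v0 c.r0) := by
  have h1 : ContinuousOn L1N (Metric.closedBall v0 c.r0) := by
    have : LipschitzOnWith ⟨c.K, by linarith [c.K1]⟩ L1N (Metric.closedBall v0 c.r0) :=
      LipschitzOnWith.of_dist_le_mul fun v hv w hw => by
        rw [Real.dist_eq]; exact c.lip1 v w hv hw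
    exact this.continuousOn
  have h2 : ContinuousOn L2N (Metric.closedBall v0 c.r0) := by
    have : LipschitzOnWith ⟨c.K, by linarith [c.K1]⟩ L2N (Metric.closedBall v0 c.r0) :=
      LipschitzOnWith.of_dist_le_mul fun v hv w hw => by
        rw [Real.dist_eq]; exact c.lip2 v w hv hw
    exact this.continuousOn
  have h3 : Continuous UsN := by unfold UsN; fun_prop
  have h4 : Continuous UtN := by unfold UtN; fun_prop
  have h5 : Continuous (fun v : V5 => v.2.1 ^ 2 + v.2.2.1 ^ 2) := by fun_prop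
  unfold XiN
  exact ((h3.mul h4).continuousOn.mul h1).add (h5.continuousOn.mul h2)

lemma inv_mul_cont {F : ℝ × ℝ → ℝ} (hF : Continuous F) {C : ℝ}
    (hb : ∀ z, |F z| ≤ C * sin (cl z.2) ^ 2) :
    Continuous (fun z : ℝ × ℝ => (sin (cl z.2))⁻¹ * F z) := by
  have hsc : Continuous (fun z : ℝ × ℝ => sin (cl z.2)) := by
    have := cl_cont; fun_prop
  rw [continuous_iff_continuousAt]
  intro z0
  by_cases h0 : sin (cl z0.2) = 0
  · unfold ContinuousAt
    beta_reduce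
    rw [h0, inv_zero, zero_mul]
    refine squeeze_zero_norm (a := fun z => C * sin (cl z.2)) ?_ ?_
    · intro z
      rw [norm_eq_abs, abs_mul, abs_inv, abs_of_nonneg (sincl_nonneg _)]
      by_cases hz : sin (cl z.2) = 0
      · rw [hz]; simp
      · have hp : 0 < sin (cl z.2) := lt_of_le_of_ne (sincl_nonneg _) (Ne.symm hz)
        rw [inv_mul_le_iff₀ hp]
        calc _ ≤ _ := hb z
          _ = _ := by ring
    · have h1 : Continuous (fun z : ℝ × ℝ => C * sin (cl z.2)) := continuous_const.mul hsc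
      have := h1.tendsto z0
      simpa [h0] using this
  · exact (hsc.continuousAt.inv₀ h0).mul hF.continuousAt

def itg (ρ : ℝ → ℝ) (α δ : ℝ) : ℝ := (sin (cl δ))⁻¹ * XiN (vv ρ (SS ρ δ α) δ)

def qq (ρ : ℝ → ℝ) (α : ℝ) : ℝ := ∫ δ in (0 : ℝ)..(π / 2), itg ρ α δ

section
variable (c : Cst) {η : ℝ} {ρ ρ1 ρ2 : ℝ → ℝ}

lemma vv_ball (h : Good η ρ) (hη2 : 12 * η ≤ c.r0) (σ δ : ℝ) : dist (vv ρ σ δ) v0 ≤ c.r0 :=
  (vv_v0 h σ δ).trans (by linarith [h.nn])

include c in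
lemma eta60 (hη2 : 12 * η ≤ c.r0) : 60 * η ≤ 1 := by linarith [c.r0l]

lemma Xi_vv_bd (h : Good η ρ) (hη2 : 12 * η ≤ c.r0) (σ δ : ℝ) :
    |XiN (vv ρ σ δ)| ≤ 30000 * c.K * η ^ 2 * sin (cl δ) ^ 2 := by
  have := Xi_bd c (vv_ball c h hη2 σ δ) (vv_sm h (eta60 c hη2) σ δ)
  calc _ ≤ _ := this
    _ = _ := by ring

lemma Xi_vv_cont (h : Good η ρ) (hη2 : 12 * η ≤ c.r0) {X : Type*} [TopologicalSpace X]
    {f g : X → ℝ} (hf : Continuous f) (hg : Continuous g) :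
    Continuous (fun x => XiN (vv ρ (f x) (g x))) := by
  have h1 : Continuous (fun x => vv ρ (f x) (g x)) := by
    have := (vv_cont h.cont).comp (hf.prodMk hg)
    simpa only [Function.comp_def] using this
  exact (XiN_contOn c).comp_continuous h1 fun x => vv_ball c h hη2 _ _

lemma itg_cont (h : Good η ρ) (hη2 : 12 * η ≤ c.r0) :
    Continuous (fun z : ℝ × ℝ => itg ρ z.1 z.2) := by
  unfold itg
  refine inv_mul_cont (C := 30000 * c.K * η ^ 2) (F := fun z => XiN (vv ρ (SS ρ z.2 z.1) z.2)) ?_ ?_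
  · exact Xi_vv_cont c h hη2 (SS_cont h (eta60 c hη2)) continuous_snd
  · intro z
    exact Xi_vv_bd c h hη2 _ _

lemma itg_bd (h : Good η ρ) (hη2 : 12 * η ≤ c.r0) (α δ : ℝ) :
    |itg ρ α δ| ≤ 30000 * c.K * η ^ 2 := by
  unfold itg
  have hK := c.K1
  have h1 := Xi_vv_bd c h hη2 (SS ρ δ α) δ
  rw [abs_mul, abs_inv, abs_of_nonneg (sincl_nonneg _)]
  by_cases hz : sin (cl δ) = 0
  · rw [hz]; simp; positivity
  · have hp : 0 < sin (cl δ) := lt_of_le_of_ne (sincl_nonneg _) (Ne.symm hz)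
    have hl := sincl_le_one δ
    rw [inv_mul_le_iff₀ hp]
    refine h1.trans ?_
    have : 0 ≤ 30000 * c.K * η ^ 2 := by positivity
    nlinarith [mul_nonneg (mul_nonneg this hp.le) (sub_nonneg.2 hl)]

lemma itg_diff (h1 : Good η ρ1) (h2 : Good η ρ2) (hη2 : 12 * η ≤ c.r0) {D : ℝ}
    (hD : ∀ x, |ρ1 x - ρ2 x| ≤ D) (α1 α2 δ : ℝ) :
    |itg ρ1 α1 δ - itg ρ2 α2 δ| ≤ 60000 * c.K * η * (D + η * |α1 - α2|) := by
  have hK := c.K1
  have hη := h1.nn
  have hη1 := eta60 c hη2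
  have hD0 : 0 ≤ D := (abs_nonneg _).trans (hD 0)
  have hb := Xi_diff c (vv_ball c h1 hη2 (SS ρ1 δ α1) δ) (vv_ball c h2 hη2 (SS ρ2 δ α2) δ)
    (vv_sm h1 hη1 _ _) (vv_sm h2 hη1 _ _) (M := 100 * η * sin (cl δ))
  unfold itg
  rw [← mul_sub, abs_mul, abs_inv, abs_of_nonneg (sincl_nonneg _)]
  by_cases hz : sin (cl δ) = 0
  · rw [hz]; simp; positivity
  · have hp : 0 < sin (cl δ) := lt_of_le_of_ne (sincl_nonneg _) (Ne.symm hz)
    have hl := sincl_le_one δ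
    rw [inv_mul_le_iff₀ hp]
    have hM : 100 * η * sin (cl δ) ≤ 1 := by
      have : η ≤ 1 / 120 := by linarith [c.r0l]
      nlinarith
    refine (hb hM).trans ?_
    have d1 := vv_dist h1 h2 hD (SS ρ1 δ α1) (SS ρ2 δ α2) δ
    have d2 := SS_diff h1 h2 hη1 hD δ α1 α2
    have d3 : dist (vv ρ1 (SS ρ1 δ α1) δ) (vv ρ2 (SS ρ2 δ α2) δ) ≤ 12 * (D + η * |α1 - α2|) := by
      refine d1.trans ?_
      have d4 : η * |SS ρ1 δ α1 - SS ρ2 δ α2| ≤ η * (2 * |α1 - α2| + 14 * D) := by gcongr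
      have d5 : 60 * η * D ≤ 1 * D := by gcongr
      nlinarith
    have : 50 * c.K * (100 * η * sin (cl δ)) * dist (vv ρ1 (SS ρ1 δ α1) δ) (vv ρ2 (SS ρ2 δ α2) δ)
      ≤ 50 * c.K * (100 * η * sin (cl δ)) * (12 * (D + η * |α1 - α2|)) := by gcongr
    refine this.trans (le_of_eq ?_)
    ring

lemma itg_int (h : Good η ρ) (hη2 : 12 * η ≤ c.r0) (α a b : ℝ) :
    IntervalIntegrable (fun δ => itg ρ α δ) volume a b := by
  have := Continuous.comp (g := fun z : ℝ × ℝ => itg ρ z.1 z.2) (itg_cont c h hη2)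
    (f := fun δ => (α, δ)) (by fun_prop)
  simp only [Function.comp_def] at this
  exact this.intervalIntegrable _ _

lemma pi16 : π / 2 ≤ 1.6 := by have := pi_lt_d2; linarith

lemma qq_bd (h : Good η ρ) (hη2 : 12 * η ≤ c.r0) (α : ℝ) :
    |qq ρ α| ≤ 50000 * c.K * η ^ 2 := by
  have hK := c.K1
  unfold qq
  have := intervalIntegral.norm_integral_le_of_norm_le_const (a := (0 : ℝ)) (b := π / 2)
    (C := 30000 * c.K * η ^ 2) (f := fun δ => itg ρ α δ) (fun δ _ => itg_bd c h hη2 α δ)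
  rw [norm_eq_abs, sub_zero, abs_of_pos (by positivity : 0 < π / 2)] at this
  refine this.trans ?_
  have h1 := pi16
  have h2 : 0 ≤ 30000 * c.K * η ^ 2 := by positivity
  nlinarith

lemma qq_diff (h1 : Good η ρ1) (h2 : Good η ρ2) (hη2 : 12 * η ≤ c.r0) {D : ℝ}
    (hD : ∀ x, |ρ1 x - ρ2 x| ≤ D) (α1 α2 : ℝ) :
    |qq ρ1 α1 - qq ρ2 α2| ≤ 100000 * c.K * η * (D + η * |α1 - α2|) := by
  have hK := c.K1
  have hη := h1.nn
  have hD0 : 0 ≤ D := (abs_nonneg _).trans (hD 0)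
  unfold qq
  rw [← intervalIntegral.integral_sub (itg_int c h1 hη2 _ _ _) (itg_int c h2 hη2 _ _ _)]
  have := intervalIntegral.norm_integral_le_of_norm_le_const (a := (0 : ℝ)) (b := π / 2)
    (C := 60000 * c.K * η * (D + η * |α1 - α2|)) (f := fun δ => itg ρ1 α1 δ - itg ρ2 α2 δ)
    (fun δ _ => itg_diff c h1 h2 hη2 hD α1 α2 δ)
  rw [norm_eq_abs, sub_zero, abs_of_pos (by positivity : 0 < π / 2)] at this
  refine this.trans ?_
  have h1 := pi16
  have h2 : 0 ≤ 60000 * c.K * η * (D + η * |α1 - α2|) := by positivity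
  nlinarith

lemma vv_per (hper : ∀ x, ρ (x + 2 * π) = ρ x) (σ δ : ℝ) : vv ρ (σ + 2 * π) δ = vv ρ σ δ := by
  have h1 : ∀ τ, ρ (σ + 2 * π + τ) = ρ (σ + τ) := fun τ => by
    rw [show σ + 2 * π + τ = σ + τ + 2 * π by ring, hper]
  unfold vv pN rN
  simp only [h1]
  rw [show σ + 2 * π - cl δ = σ - cl δ + 2 * π by ring, hper]

lemma SS_per (h : Good η ρ) (hη1 : 60 * η ≤ 1) (hper : ∀ x, ρ (x + 2 * π) = ρ x) (δ α : ℝ) :
    SS ρ δ (α + 2 * π) = SS ρ δ α + 2 * π := by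
  apply SS_unique h hη1
  have h1 := SS_spec h hη1 δ α
  unfold psi at *
  rw [vv_per hper]
  linarith

lemma qq_per (h : Good η ρ) (hη1 : 60 * η ≤ 1) (hper : ∀ x, ρ (x + 2 * π) = ρ x) (α : ℝ) :
    qq ρ (α + 2 * π) = qq ρ α := by
  unfold qq itg
  simp only [SS_per h hη1 hper, vv_per hper]

end

end Pool.Agent.Helper91
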