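import Pool.Agent.Helper91.RpH

open Real MeasureTheory Set Filter Topology intervalIntegral BoundedContinuousFunction

noncomputable section

namespace Pool.Agent.Helper91

/-- the radius of curvature -/
def rhoG (η0 : ℝ) (g : ℝ → ℝ) (x : ℝ) : ℝ := 1 + g x + η0 * cos (3 * x)

def TT (η0 : ℝ) (g : ℝ → ℝ) (x : ℝ) : ℝ :=
  -(g x ^ 2 + g x ^ 3 / 3) - (1 + g x) * (η0 * cos (3 * x)) ^ 2
    + (1 / 4) * (qq (rhoG η0 g) x + qq (rhoG η0 g) (x + π))

structure GB (η0 : ℝ) (g : ℝ → ℝ) : Prop where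
  bd : ∀ x, |g x| ≤ η0
  lip : ∀ x y, |g x - g y| ≤ η0 * |x - y|
  per : ∀ x, g (x + π) = g x

lemma cos3_lip (x y : ℝ) : |cos (3 * x) - cos (3 * y)| ≤ 3 * |x - y| := by
  have h : |cos (3 * x) - cos (3 * y)| ≤ |3 * x - 3 * y| := by
    have := Convex.norm_image_sub_le_of_norm_hasDerivWithin_le (f := cos)
      (f' := fun x => -sin x) (s := univ) (C := 1) (x := 3 * y) (y := 3 * x)
      (fun x _ => (hasDerivAt_cos x).hasDerivWithinAt)
      (fun x _ => by
        rw [norm_eq_abs, abs_neg]; exact abs_sin_le_one x) convex_univ (mem_univ _) (mem_univ _)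
    simpa [norm_eq_abs] using this
  rwa [← mul_sub, abs_mul, abs_of_pos (by norm_num : (0 : ℝ) < 3)] at h

section
variable {η0 : ℝ} {g g1 g2 : ℝ → ℝ}

lemma GB.nn (h : GB η0 g) : 0 ≤ η0 := (abs_nonneg _).trans (h.bd 0)

lemma GB.good (h : GB η0 g) : Good (4 * η0) (rhoG η0 g) := by
  have h0 := h.nn
  constructor
  · intro x
    unfold rhoG
    have e : 1 + g x + η0 * cos (3 * x) - 1 = g x + η0 * cos (3 * x) := by ring
    have a1 := h.bd x
    have a2 : |η0 * cos (3 * x)| ≤ η0 * 1 := by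
      rw [abs_mul, abs_of_nonneg h0]; gcongr; exact abs_cos_le_one _
    rw [e]
    exact (abs_add_le _ _).trans (by linarith)
  · intro x y
    unfold rhoG
    have e : 1 + g x + η0 * cos (3 * x) - (1 + g y + η0 * cos (3 * y))
        = (g x - g y) + η0 * (cos (3 * x) - cos (3 * y)) := by ring
    have a1 := h.lip x y
    have a2 : |η0 * (cos (3 * x) - cos (3 * y))| ≤ η0 * (3 * |x - y|) := by
      rw [abs_mul, abs_of_nonneg h0]; gcongr; exact cos3_lip x y
    rw [e]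
    exact (abs_add_le _ _).trans (by linarith)

lemma GB.per2 (h : GB η0 g) (x : ℝ) : rhoG η0 g (x + 2 * π) = rhoG η0 g x := by
  unfold rhoG
  rw [show x + 2 * π = x + π + π by ring, h.per, h.per,
    show 3 * (x + π + π) = 3 * x + 2 * π + 2 * π + 2 * π by ring]
  simp only [cos_add_two_pi]

variable (c : Cst)

structure Par (c : Cst) (η0 : ℝ) : Prop where
  pos : 0 < η0
  l1 : 48 * η0 ≤ c.r0
  l2 : 10000000 * c.K * η0 ≤ 1

lemma TT_bd (P : Par c η0) (h : GB η0 g) (x : ℝ) : |TT η0 g x| ≤ η0 := by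
  have h0 := h.nn
  have hK := c.K1
  have hη : 10000000 * η0 ≤ 1 := by
    have := P.l2; nlinarith
  have q1 := qq_bd c h.good (by linarith [P.l1]) x
  have q2 := qq_bd c h.good (by linarith [P.l1]) (x + π)
  have b := h.bd x
  have w : (η0 * cos (3 * x)) ^ 2 ≤ η0 ^ 2 := by
    rw [mul_pow]
    have : cos (3 * x) ^ 2 ≤ 1 := cos_sq_le_one _
    nlinarith [sq_nonneg η0]
  have w0 : 0 ≤ (η0 * cos (3 * x)) ^ 2 := sq_nonneg _
  have e1 : |g x ^ 2| ≤ η0 ^ 2 := by rw [abs_pow]; gcongr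
  have e2 : |g x ^ 3| ≤ η0 ^ 3 := by rw [abs_pow]; gcongr
  have e3 : |(1 + g x) * (η0 * cos (3 * x)) ^ 2| ≤ 2 * η0 ^ 2 := by
    rw [abs_mul, abs_of_nonneg w0]
    have : |1 + g x| ≤ 2 := by
      rw [abs_le] at b ⊢; constructor <;> linarith
    gcongr
  have e4 : η0 ^ 2 ≤ η0 * (1 / 10000000) := by nlinarith
  have e5 : η0 ^ 3 ≤ η0 * (1 / 10000000) := by
    have : η0 ≤ 1 := by linarith
    nlinarith [sq_nonneg η0]
  have e6 : 50000 * c.K * (4 * η0) ^ 2 ≤ η0 * (1 / 10) := by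
    have := P.l2
    nlinarith [mul_le_mul_of_nonneg_left this h0]
  unfold TT
  rw [abs_le] at e1 e2 e3 q1 q2 ⊢
  constructor <;> linarith

lemma TT_lip (P : Par c η0) (h : GB η0 g) (x y : ℝ) : |TT η0 g x - TT η0 g y| ≤ η0 * |x - y| := by
  have h0 := h.nn
  have hK := c.K1
  have hη : 10000000 * η0 ≤ 1 := by
    have := P.l2; nlinarith
  have q1 := qq_diff c h.good h.good (D := 0) (by linarith [P.l1]) (fun x => by simp) x y
  have q2 := qq_diff c h.good h.good (D := 0) (by linarith [P.l1]) (fun x => by simp) (x + π) (y + π)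
  rw [show x + π - (y + π) = x - y by ring] at q2
  have bx := h.bd x
  have by' := h.bd y
  have l := h.lip x y
  have hd : 0 ≤ |x - y| := abs_nonneg _
  generalize hDD : |x - y| = d at *
  have wd : |cos (3 * x) - cos (3 * y)| ≤ 3 * d := by rw [← hDD]; exact cos3_lip x y
  have ws : |cos (3 * x) + cos (3 * y)| ≤ 2 := by
    have := abs_cos_le_one (3 * x)
    have := abs_cos_le_one (3 * y)
    exact (abs_add_le _ _).trans (by linarith)
  have m : ∀ x y a b : ℝ, |x| ≤ a → |y| ≤ b → |x * y| ≤ a * b := by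
    intro x y a b hx hy
    have ha := (abs_nonneg _).trans hx
    rw [abs_mul]
    exact mul_le_mul hx hy (abs_nonneg _) ha
  have w : |(η0 * cos (3 * x)) ^ 2| ≤ η0 ^ 2 := by
    rw [abs_of_nonneg (sq_nonneg _), mul_pow]
    have : cos (3 * x) ^ 2 ≤ 1 := cos_sq_le_one _
    nlinarith [sq_nonneg η0]
  have m1 := m (g x - g y) (g x + g y) _ (2 * η0) l ((abs_add_le _ _).trans (by linarith))
  have m2 := m (g x - g y) (g x ^ 2 + g x * g y + g y ^ 2) _ (3 * η0 ^ 2) l (by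
    have a1 : |g x ^ 2| ≤ η0 ^ 2 := by rw [abs_pow]; gcongr
    have a2 : |g y ^ 2| ≤ η0 ^ 2 := by rw [abs_pow]; gcongr
    have a3 := m _ _ _ _ bx by'
    calc _ ≤ _ := abs_add_le _ _
      _ ≤ |g x ^ 2| + |g x * g y| + |g y ^ 2| := by gcongr; exact abs_add_le _ _
      _ ≤ _ := by linarith)
  have m3 := m (g x - g y) ((η0 * cos (3 * x)) ^ 2) _ _ l w
  have m4 := m ((1 + g y) * η0 ^ 2) ((cos (3 * x) - cos (3 * y)) * (cos (3 * x) + cos (3 * y)))
    (2 * η0 ^ 2) (3 * d * 2) (by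
      rw [abs_mul, abs_of_nonneg (sq_nonneg η0)]
      have : |1 + g y| ≤ 2 := by
        rw [abs_le] at by' ⊢; constructor <;> linarith
      gcongr) (m _ _ _ _ wd ws)
  have e4 : η0 ^ 2 ≤ η0 * (1 / 10000000) := by nlinarith
  have e5 : η0 ^ 3 ≤ η0 * (1 / 10000000) := by
    have : η0 ≤ 1 := by linarith
    nlinarith [sq_nonneg η0]
  have e6 : c.K * η0 ^ 2 ≤ η0 * (1 / 10000000) := by
    have := P.l2
    nlinarith [mul_le_mul_of_nonneg_left this h0]
  have e4' : η0 ^ 2 * d ≤ η0 * (1 / 10000000) * d := by gcongr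
  have e5' : η0 ^ 3 * d ≤ η0 * (1 / 10000000) * d := by gcongr
  have e6' : c.K * η0 ^ 2 * d ≤ η0 * (1 / 10000000) * d := by gcongr
  have hη0d : 0 ≤ η0 * d := by positivity
  have e : TT η0 g x - TT η0 g y = -((g x - g y) * (g x + g y))
      - (1 / 3) * ((g x - g y) * (g x ^ 2 + g x * g y + g y ^ 2))
      - (g x - g y) * (η0 * cos (3 * x)) ^ 2
      - (1 + g y) * η0 ^ 2 * ((cos (3 * x) - cos (3 * y)) * (cos (3 * x) + cos (3 * y)))
      + (1 / 4) * ((qq (rhoG η0 g) x - qq (rhoG η0 g) y)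
        + (qq (rhoG η0 g) (x + π) - qq (rhoG η0 g) (y + π))) := by
    unfold TT; ring
  rw [e]
  rw [abs_le] at m1 m2 m3 m4 q1 q2 ⊢
  constructor <;> nlinarith

lemma TT_diff (P : Par c η0) (h1 : GB η0 g1) (h2 : GB η0 g2) {D : ℝ}
    (hD : ∀ x, |g1 x - g2 x| ≤ D) (x : ℝ) :
    |TT η0 g1 x - TT η0 g2 x| ≤ (1 / 2) * D := by
  have h0 := h1.nn
  have hK := c.K1
  have hD0 : 0 ≤ D := (abs_nonneg _).trans (hD 0)
  have hη : 10000000 * η0 ≤ 1 := by
    have := P.l2; nlinarith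
  have hDr : ∀ x, |rhoG η0 g1 x - rhoG η0 g2 x| ≤ D := fun x => by
    unfold rhoG
    rw [show 1 + g1 x + η0 * cos (3 * x) - (1 + g2 x + η0 * cos (3 * x)) = g1 x - g2 x by ring]
    exact hD x
  have q1 := qq_diff c h1.good h2.good (by linarith [P.l1]) hDr x x
  have q2 := qq_diff c h1.good h2.good (by linarith [P.l1]) hDr (x + π) (x + π)
  rw [sub_self, abs_zero, mul_zero, add_zero] at q1 q2
  have b1 := h1.bd x
  have b2 := h2.bd x
  have l := hD x
  have m : ∀ x y a b : ℝ, |x| ≤ a → |y| ≤ b → |x * y| ≤ a * b := by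
    intro x y a b hx hy
    have ha := (abs_nonneg _).trans hx
    rw [abs_mul]
    exact mul_le_mul hx hy (abs_nonneg _) ha
  have w : |(η0 * cos (3 * x)) ^ 2| ≤ η0 ^ 2 := by
    rw [abs_of_nonneg (sq_nonneg _), mul_pow]
    have : cos (3 * x) ^ 2 ≤ 1 := cos_sq_le_one _
    nlinarith [sq_nonneg η0]
  have m1 := m (g1 x - g2 x) (g1 x + g2 x) _ (2 * η0) l ((abs_add_le _ _).trans (by linarith))
  have m2 := m (g1 x - g2 x) (g1 x ^ 2 + g1 x * g2 x + g2 x ^ 2) _ (3 * η0 ^ 2) l (by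
    have a1 : |g1 x ^ 2| ≤ η0 ^ 2 := by rw [abs_pow]; gcongr
    have a2 : |g2 x ^ 2| ≤ η0 ^ 2 := by rw [abs_pow]; gcongr
    have a3 := m _ _ _ _ b1 b2
    calc _ ≤ _ := abs_add_le _ _
      _ ≤ |g1 x ^ 2| + |g1 x * g2 x| + |g2 x ^ 2| := by gcongr; exact abs_add_le _ _
      _ ≤ _ := by linarith)
  have m3 := m (g1 x - g2 x) ((η0 * cos (3 * x)) ^ 2) _ _ l w
  have e4 : η0 * D ≤ (1 / 10000000) * D := by
    gcongr; linarith
  have e5 : η0 ^ 2 * D ≤ (1 / 10000000) * D := by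
    gcongr; nlinarith
  have e6 : c.K * η0 * D ≤ (1 / 10000000) * D := by
    gcongr; linarith [P.l2]
  have e : TT η0 g1 x - TT η0 g2 x = -((g1 x - g2 x) * (g1 x + g2 x))
      - (1 / 3) * ((g1 x - g2 x) * (g1 x ^ 2 + g1 x * g2 x + g2 x ^ 2))
      - (g1 x - g2 x) * (η0 * cos (3 * x)) ^ 2
      + (1 / 4) * ((qq (rhoG η0 g1) x - qq (rhoG η0 g2) x)
        + (qq (rhoG η0 g1) (x + π) - qq (rhoG η0 g2) (x + π))) := by
    unfold TT; ring
  rw [e]
  rw [abs_le] at m1 m2 m3 q1 q2 ⊢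
  constructor <;> nlinarith

lemma TT_per (P : Par c η0) (h : GB η0 g) (x : ℝ) : TT η0 g (x + π) = TT η0 g x := by
  have hη1 := eta60 c (η := 4 * η0) (by linarith [P.l1, P.pos])
  have q := qq_per h.good hη1 h.per2 x
  unfold TT
  rw [h.per, show x + π + π = x + 2 * π by ring, q,
    show 3 * (x + π) = 3 * x + π + 2 * π by ring, cos_add_two_pi, cos_add_pi]
  ring

lemma TT_GB (P : Par c η0) (h : GB η0 g) : GB η0 (TT η0 g) :=
  ⟨TT_bd c P h, TT_lip c P h, TT_per c P h⟩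

/-- the complete metric space for the fixed point -/
def SG (η0 : ℝ) : Set (ℝ →ᵇ ℝ) := {g | GB η0 g}

lemma SG_closed : IsClosed (SG η0) := by
  have h1 : SG η0 = {g : ℝ →ᵇ ℝ | (∀ x, |g x| ≤ η0)} ∩
      ({g : ℝ →ᵇ ℝ | ∀ x y, |g x - g y| ≤ η0 * |x - y|} ∩ {g : ℝ →ᵇ ℝ | ∀ x, g (x + π) = g x}) := by
    ext g
    constructor
    · intro h; exact ⟨h.bd, h.lip, h.per⟩
    · rintro ⟨a, b, c⟩; exact ⟨a, b, c⟩
  have ev : ∀ x : ℝ, Continuous fun g : ℝ →ᵇ ℝ => g x := fun x =>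
    ContinuousEvalConst.continuous_eval_const x
  rw [h1]
  refine IsClosed.inter ?_ (IsClosed.inter ?_ ?_)
  · simp only [Set.ofPred_forall]
    exact isClosed_iInter fun x => isClosed_le (ev x).abs continuous_const
  · simp only [Set.ofPred_forall]
    exact isClosed_iInter fun x => isClosed_iInter fun y =>
      isClosed_le ((ev x).sub (ev y)).abs continuous_const
  · simp only [Set.ofPred_forall]
    exact isClosed_iInter fun x => isClosed_eq (ev _) (ev _)

lemma exists_fix (P : Par c η0) : ∃ g : ℝ → ℝ, GB η0 g ∧ ∀ x, TT η0 g x = g x := by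
  have hcomp : CompleteSpace (SG η0) := SG_closed.completeSpace_coe
  have hne : Nonempty (SG η0) := by
    refine ⟨⟨0, ?_, ?_, ?_⟩⟩
    · intro x; simp [P.pos.le]
    · intro x y; simp; have := P.pos; positivity
    · intro x; simp
  let F : SG η0 → SG η0 := fun g =>
    ⟨BoundedContinuousFunction.ofNormedAddCommGroup (TT η0 g.1)
      (cont_of_lip (TT_lip c P g.2)) η0 (fun x => TT_bd c P g.2 x), TT_GB c P g.2⟩
  have hF : ContractingWith (1 / 2) F := by
    refine ⟨by rw [← NNReal.coe_lt_coe]; norm_num, ?_⟩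
    refine LipschitzWith.of_dist_le_mul fun g1 g2 => ?_
    have hD : ∀ x, |g1.1 x - g2.1 x| ≤ dist g1 g2 := fun x => by
      have := BoundedContinuousFunction.dist_coe_le_dist (f := g1.1) (g := g2.1) x
      rwa [Real.dist_eq] at this
    have : dist (F g1).1 (F g2).1 ≤ (1 / 2) * dist g1 g2 := by
      rw [BoundedContinuousFunction.dist_le (by positivity)]
      intro x
      rw [Real.dist_eq]
      exact TT_diff c P g1.2 g2.2 hD x
    calc dist (F g1) (F g2) = dist (F g1).1 (F g2).1 := rfl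
      _ ≤ _ := this
      _ = _ := by push_cast; rfl
  refine ⟨(hF.fixedPoint F).1, (hF.fixedPoint F).2, fun x => ?_⟩
  have := hF.fixedPoint_isFixedPt
  have h2 : (F (hF.fixedPoint F)).1 x = (hF.fixedPoint F).1 x := by rw [this]
  exact h2

lemma exists_Par : ∃ η0, Par c η0 := by
  have hK := c.K1
  have hr := c.r0p
  refine ⟨min (c.r0 / 48) (1 / (10000000 * c.K)), lt_min (by positivity) (by positivity), ?_, ?_⟩
  · have := min_le_left (c.r0 / 48) (1 / (10000000 * c.K))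
    linarith
  · have := min_le_right (c.r0 / 48) (1 / (10000000 * c.K))
    calc _ ≤ 10000000 * c.K * (1 / (10000000 * c.K)) := by gcongr
      _ = 1 := by field_simp

end

end Pool.Agent.Helper91
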