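import Pool.Agent.Helper91.RpI

open Real MeasureTheory Set Filter Topology intervalIntegral

noncomputable section

namespace Pool.Agent.Helper91

namespace Crv
variable (Γ : Crv) (φ : Tst)

lemma Q_PR (s t : ℝ) :
    Γ.Q s t = -(Γ.P s t * cos ((s - t) / 2) + Γ.R s t * sin ((s - t) / 2)) := by
  unfold Q P R
  have e1 : cos s = cos ((s + t) / 2) * cos ((s - t) / 2) - sin ((s + t) / 2) * sin ((s - t) / 2) := by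
    rw [← cos_add]; congr 1; ring
  have e2 : sin s = sin ((s + t) / 2) * cos ((s - t) / 2) + cos ((s + t) / 2) * sin ((s - t) / 2) := by
    rw [← sin_add]; congr 1; ring
  rw [e1, e2]; ring

lemma Q_PR' (s t : ℝ) :
    Γ.Q t s = Γ.P s t * cos ((s - t) / 2) - Γ.R s t * sin ((s - t) / 2) := by
  unfold Q P R
  have e3 : cos t = cos ((s + t) / 2) * cos ((s - t) / 2) + sin ((s + t) / 2) * sin ((s - t) / 2) := by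
    rw [← cos_sub]; congr 1; ring
  have e4 : sin t = sin ((s + t) / 2) * cos ((s - t) / 2) - cos ((s + t) / 2) * sin ((s - t) / 2) := by
    rw [← sin_sub]; congr 1; ring
  rw [e3, e4]; ring

section norm
variable {σ δ : ℝ} (h0 : 0 < δ) (h1 : δ ≤ π / 2)
include h0 h1

lemma sδ_pos : 0 < sin δ := sin_pos_of_pos_of_lt_pi h0 (by linarith [pi_pos])

lemma offδ : Off (σ + δ) (σ - δ) := by
  unfold Off
  rw [show (σ + δ - (σ - δ)) / 2 = δ by ring]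
  exact (sδ_pos h0 h1).ne'

lemma C_norm : Γ.C (σ + δ) (σ - δ) = sin δ ^ 2 * cN (vv Γ.ρ σ δ) := by
  rw [C_PR, Γ.P_pN h0 h1, Γ.R_rN h0 h1]
  unfold cN vv
  simp only [cl_of h0.le h1]
  rw [show (σ + δ - (σ - δ)) / 2 = δ by ring]; ring

lemma D_norm : Γ.C (σ - δ) (σ + δ) = sin δ ^ 2 * dN (vv Γ.ρ σ δ) := by
  have h2 := Γ.P_eq (σ + δ) (σ - δ)
  rw [Γ.C_norm h0 h1, Γ.P_pN h0 h1, show (σ + δ - (σ - δ)) / 2 = δ by ring] at h2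
  unfold cN vv at h2
  unfold dN vv
  simp only [cl_of h0.le h1] at h2 ⊢
  linarith

lemma E_norm : Γ.E (σ + δ) (σ - δ) = sin δ * eN (vv Γ.ρ σ δ) := by
  have hs := sδ_pos h0 h1
  have h2 := Γ.sqE' (σ + δ) (σ - δ)
  rw [Γ.P_pN h0 h1, Γ.R_rN h0 h1] at h2
  have h3 : 0 ≤ Γ.E (σ + δ) (σ - δ) := sqrt_nonneg _
  have h4 : 0 ≤ sin δ * eN (vv Γ.ρ σ δ) := mul_nonneg hs.le (sqrt_nonneg _)
  rw [← sq_eq_sq₀ h3 h4, h2, mul_pow (sin δ) (eN _), sqE_N]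
  unfold vv
  simp only [cl_of h0.le h1]
  ring

lemma Q_norm : Γ.Q (σ + δ) (σ - δ)
    = -(sin δ * ((vv Γ.ρ σ δ).1 * cos δ + (vv Γ.ρ σ δ).2.1 * sin δ)) := by
  rw [Q_PR, Γ.P_pN h0 h1, Γ.R_rN h0 h1]
  unfold vv
  simp only [cl_of h0.le h1]
  rw [show (σ + δ - (σ - δ)) / 2 = δ by ring]; ring

lemma Q_norm' : Γ.Q (σ - δ) (σ + δ)
    = sin δ * ((vv Γ.ρ σ δ).1 * cos δ - (vv Γ.ρ σ δ).2.1 * sin δ) := by
  rw [Q_PR', Γ.P_pN h0 h1, Γ.R_rN h0 h1]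
  unfold vv
  simp only [cl_of h0.le h1]
  rw [show (σ + δ - (σ - δ)) / 2 = δ by ring]; ring

lemma cN_pos : 0 < cN (vv Γ.ρ σ δ) := by
  have h2 := Γ.C_pos (offδ (σ := σ) h0 h1)
  rw [Γ.C_norm h0 h1] at h2
  have hs := sδ_pos h0 h1
  exact pos_of_mul_pos_right h2 (by positivity)

lemma dN_pos : 0 < dN (vv Γ.ρ σ δ) := by
  have h2 := Γ.C_pos (offδ (σ := σ) h0 h1).symm
  rw [Γ.D_norm h0 h1] at h2
  have hs := sδ_pos h0 h1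
  exact pos_of_mul_pos_right h2 (by positivity)

lemma eN_pos : 0 < eN (vv Γ.ρ σ δ) := by
  have h2 := Γ.E_pos (offδ (σ := σ) h0 h1)
  rw [Γ.E_norm h0 h1] at h2
  have hs := sδ_pos h0 h1
  exact pos_of_mul_pos_right h2 hs.le

lemma mN_pos : 0 < mN (vv Γ.ρ σ δ) := by
  have h2 := Γ.cN_pos (σ := σ) h0 h1
  have h3 := Γ.dN_pos (σ := σ) h0 h1
  have h4 := Γ.pos (σ + δ)
  have h5 := Γ.pos (σ - δ)
  unfold mN
  have e1 : (vv Γ.ρ σ δ).2.2.2.1 = Γ.ρ (σ + δ) := by simp only [vv, cl_of h0.le h1]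
  have e2 : (vv Γ.ρ σ δ).2.2.2.2 = Γ.ρ (σ - δ) := by simp only [vv, cl_of h0.le h1]
  rw [e1, e2]
  positivity

lemma c_norm : Γ.c (σ + δ) (σ - δ) = sin δ * cN (vv Γ.ρ σ δ) / eN (vv Γ.ρ σ δ) := by
  have hs := (sδ_pos h0 h1).ne'
  have he := (Γ.eN_pos (σ := σ) h0 h1).ne'
  unfold c
  rw [Γ.C_norm h0 h1, Γ.E_norm h0 h1]
  field_simp

lemma d_norm : Γ.c (σ - δ) (σ + δ) = sin δ * dN (vv Γ.ρ σ δ) / eN (vv Γ.ρ σ δ) := by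
  have hs := (sδ_pos h0 h1).ne'
  have he := (Γ.eN_pos (σ := σ) h0 h1).ne'
  unfold c
  rw [Γ.D_norm h0 h1, Γ.E_symm, Γ.E_norm h0 h1]
  field_simp

lemma a_norm : Γ.a (σ + δ) (σ - δ)
    = -((vv Γ.ρ σ δ).1 * cos δ + (vv Γ.ρ σ δ).2.1 * sin δ) / cN (vv Γ.ρ σ δ) / sin δ := by
  have hs := (sδ_pos h0 h1).ne'
  have he := (Γ.cN_pos (σ := σ) h0 h1).ne'
  unfold a
  rw [Γ.C_norm h0 h1, Γ.Q_norm h0 h1]
  field_simp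

lemma b_norm : Γ.a (σ - δ) (σ + δ)
    = ((vv Γ.ρ σ δ).1 * cos δ - (vv Γ.ρ σ δ).2.1 * sin δ) / dN (vv Γ.ρ σ δ) / sin δ := by
  have hs := (sδ_pos h0 h1).ne'
  have he := (Γ.dN_pos (σ := σ) h0 h1).ne'
  unfold a
  rw [Γ.D_norm h0 h1, Γ.Q_norm' h0 h1]
  field_simp

lemma B_norm : Γ.B (σ + δ) (σ - δ) = σ + π / 2 + psi Γ.ρ σ δ := by
  have hs := (sδ_pos h0 h1).ne'
  unfold B psi
  rw [Γ.P_pN h0 h1, Γ.R_rN h0 h1, show (σ + δ + (σ - δ)) / 2 = σ by ring]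
  unfold vv
  simp only [cl_of h0.le h1]
  congr 2
  rw [sq, mul_assoc, mul_div_mul_left _ _ hs, mul_comm]

lemma n_norm : Γ.n (σ + δ) (σ - δ)
    = (sin (cl δ))⁻¹ * (XiN (vv Γ.ρ σ δ) * hN (vv Γ.ρ σ δ)) := by
  have hs := (sδ_pos h0 h1).ne'
  have he := (Γ.eN_pos (σ := σ) h0 h1).ne'
  have hc := (Γ.cN_pos (σ := σ) h0 h1).ne'
  have hd := (Γ.dN_pos (σ := σ) h0 h1).ne'
  have hm := (Γ.mN_pos (σ := σ) h0 h1).ne'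
  have hoff := offδ (σ := σ) h0 h1
  have oa := Γ.one_add_a hoff
  have ob := Γ.one_add_a hoff.symm
  unfold n
  rw [Γ.E_norm h0 h1, Γ.c_norm h0 h1, Γ.d_norm h0 h1, cl_of h0.le h1]
  have e1 : (vv Γ.ρ σ δ).2.2.2.1 = Γ.ρ (σ + δ) := by simp only [vv, cl_of h0.le h1]
  have e2 : (vv Γ.ρ σ δ).2.2.2.2 = Γ.ρ (σ - δ) := by simp only [vv, cl_of h0.le h1]
  rw [← e1, ← e2]
  have ha : 1 + Γ.a (σ + δ) (σ - δ) ^ 2
      = eN (vv Γ.ρ σ δ) ^ 2 / (sin δ ^ 2 * cN (vv Γ.ρ σ δ) ^ 2) := by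
    rw [Γ.c_norm h0 h1] at oa
    rw [eq_div_iff (by positivity)]
    field_simp at oa
    linear_combination oa
  have hb : 1 + Γ.a (σ - δ) (σ + δ) ^ 2
      = eN (vv Γ.ρ σ δ) ^ 2 / (sin δ ^ 2 * dN (vv Γ.ρ σ δ) ^ 2) := by
    rw [Γ.d_norm h0 h1] at ob
    rw [eq_div_iff (by positivity)]
    field_simp at ob
    linear_combination ob
  have hab : (Γ.a (σ + δ) (σ - δ) + Γ.a (σ - δ) (σ + δ)) ^ 2
      = 4 * (vv Γ.ρ σ δ).1 ^ 2 * ((vv Γ.ρ σ δ).2.1 ^ 2 + (vv Γ.ρ σ δ).2.2.1 ^ 2)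
        / (sin δ ^ 2 * cN (vv Γ.ρ σ δ) ^ 2 * dN (vv Γ.ρ σ δ) ^ 2) := by
    have hsum : Γ.a (σ + δ) (σ - δ) + Γ.a (σ - δ) (σ + δ)
        = -2 * (vv Γ.ρ σ δ).1 * rN Γ.ρ σ δ / (sin δ * cN (vv Γ.ρ σ δ) * dN (vv Γ.ρ σ δ)) := by
      rw [Γ.a_norm h0 h1, Γ.b_norm h0 h1]
      have hk : (vv Γ.ρ σ δ).2.2.1 = rN Γ.ρ σ δ * cos δ := by simp only [vv, cl_of h0.le h1]
      have hr : (vv Γ.ρ σ δ).2.1 = rN Γ.ρ σ δ * sin δ := by simp only [vv, cl_of h0.le h1]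
      field_simp
      unfold cN dN
      rw [hk, hr]
      linear_combination (-2 * (vv Γ.ρ σ δ).1 * rN Γ.ρ σ δ) * (sin_sq_add_cos_sq δ)
    rw [hsum, div_pow]
    have hk : (vv Γ.ρ σ δ).2.2.1 = rN Γ.ρ σ δ * cos δ := by simp only [vv, cl_of h0.le h1]
    have hr : (vv Γ.ρ σ δ).2.1 = rN Γ.ρ σ δ * sin δ := by simp only [vv, cl_of h0.le h1]
    rw [hk, hr]
    field_simp
    linear_combination (-4 * (vv Γ.ρ σ δ).1 ^ 2 * rN Γ.ρ σ δ ^ 2) * (sin_sq_add_cos_sq δ)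
  have key := nF_norm (s := sin δ) (e := eN (vv Γ.ρ σ δ)) (p := (vv Γ.ρ σ δ).1)
    (k := (vv Γ.ρ σ δ).2.2.1) (rs := (vv Γ.ρ σ δ).2.2.2.1) (rt := (vv Γ.ρ σ δ).2.2.2.2)
    hs he hc hd hm ha hb hab
  have key2 : nF (sin δ * eN (vv Γ.ρ σ δ)) (sin δ * cN (vv Γ.ρ σ δ) / eN (vv Γ.ρ σ δ))
      (sin δ * dN (vv Γ.ρ σ δ) / eN (vv Γ.ρ σ δ)) (Γ.a (σ + δ) (σ - δ)) (Γ.a (σ - δ) (σ + δ))
      (vv Γ.ρ σ δ).2.2.2.1 (vv Γ.ρ σ δ).2.2.2.2 = _ := key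
  rw [key2]
  have hE := sqE_N (vv Γ.ρ σ δ)
  unfold XiN hN L1N L2N UsN UtN mN cN dN
  rw [hE]
  ring

end norm
end Crv
end Pool.Agent.Helper91
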