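import Pool.Agent.Helper91.RpJ

open Real MeasureTheory Set Filter Topology intervalIntegral

noncomputable section

namespace Pool.Agent.Helper91

def Gf (s e d x y ρ f0 f1 : ℝ) : ℝ :=
  (1 / 2) * (-(ρ * f1 * s * e * d * (s ^ 2 + x * y))
    - ρ * f0 * e * d * (3 * x * (s ^ 2 + x * y) + (2 / 3) * (x - y) ^ 3)
    + f0 * e ^ 3 * x * (s ^ 2 + y ^ 2))

lemma uF_norm {s e : ℝ} (hs : s ≠ 0) (he : e ≠ 0) (d x y ρ f0 f1 : ℝ) :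
    uF (s * e) (s * d / e) (x / s) (y / s) ρ f0 f1 = Gf s e d x y ρ f0 f1 := by
  unfold uF Gf
  field_simp

def xN (v : V5) (s k : ℝ) : ℝ := -(v.1 * k + v.2.1 * s) / cN v
def yN (v : V5) (s k : ℝ) : ℝ := (v.1 * k - v.2.1 * s) / dN v

lemma eN_cont : Continuous eN := by unfold eN; fun_prop
lemma cN_cont : Continuous cN := by unfold cN; fun_prop
lemma dN_cont : Continuous dN := by unfold dN; fun_prop
lemma mN_cont : Continuous mN := by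
  have := cN_cont; have := dN_cont
  unfold mN; fun_prop

section
variable {η : ℝ} {ρ : ℝ → ℝ}

lemma vv_facts (h : Good η ρ) (hη1 : 60 * η ≤ 1) (σ δ : ℝ) :
    0 < cN (vv ρ σ δ) ∧ 0 < dN (vv ρ σ δ) ∧ 0 < eN (vv ρ σ δ) ∧ 0 < mN (vv ρ σ δ) := by
  obtain ⟨a1, a2, a3, a4, a5⟩ := (V5_dist _ _ _).1 (vv_v0 h σ δ)
  simp only [v0, sub_zero] at a1 a2 a3 a4 a5
  rw [abs_le] at a1 a3 a4 a5
  have h1 : 0 < cN (vv ρ σ δ) := by unfold cN; linarith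
  have h2 : 0 < dN (vv ρ σ δ) := by unfold dN; linarith
  refine ⟨h1, h2, ?_, ?_⟩
  · unfold eN
    apply sqrt_pos.2
    have : 0 < (vv ρ σ δ).1 := by linarith
    positivity
  · unfold mN
    have : 0 < (vv ρ σ δ).2.2.2.1 := by linarith
    have : 0 < (vv ρ σ δ).2.2.2.2 := by linarith
    positivity

end

namespace Crv
variable (Γ : Crv) (φ : Tst)

section norm
variable {σ δ : ℝ} (h0 : 0 < δ) (h1 : δ ≤ π / 2)
include h0 h1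

lemma psi_deriv : HasDerivAt (fun σ => σ + psi Γ.ρ σ δ) (hN (vv Γ.ρ σ δ)) σ := by
  have hs := sδ_pos h0 h1
  have hoff := offδ (σ := σ) h0 h1
  have hP : ∀ σ, Γ.P (σ + δ) (σ - δ)
      = -(Γ.X (σ + δ) - Γ.X (σ - δ)) * sin σ + (Γ.Y (σ + δ) - Γ.Y (σ - δ)) * cos σ := by
    intro σ; unfold P
    rw [show (σ + δ + (σ - δ)) / 2 = σ by ring]
  have hR : ∀ σ, Γ.R (σ + δ) (σ - δ)
      = -(Γ.X (σ + δ) - Γ.X (σ - δ)) * cos σ - (Γ.Y (σ + δ) - Γ.Y (σ - δ)) * sin σ := by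
    intro σ; unfold R
    rw [show (σ + δ + (σ - δ)) / 2 = σ by ring]
  have hX1 := (Γ.hX (σ + δ)).comp_add_const σ δ
  have hX2 := (Γ.hX (σ - δ)).comp_sub_const σ δ
  have hY1 := (Γ.hY (σ + δ)).comp_add_const σ δ
  have hY2 := (Γ.hY (σ - δ)).comp_sub_const σ δ
  have dP : HasDerivAt (fun σ => Γ.P (σ + δ) (σ - δ))
      (Γ.ρ (σ + δ) * cos δ - Γ.ρ (σ - δ) * cos δ + Γ.R (σ + δ) (σ - δ)) σ := by
    have := ((hX1.sub hX2).neg.mul (hasDerivAt_sin σ)).add ((hY1.sub hY2).mul (hasDerivAt_cos σ))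
    refine (this.congr_of_eventuallyEq (Eventually.of_forall fun x => hP x)).congr_deriv ?_
    rw [hR, sin_add, cos_add, sin_sub, cos_sub]
    simp only [Pi.neg_apply, Pi.sub_apply]
    linear_combination ((Γ.ρ (σ + δ) - Γ.ρ (σ - δ)) * cos δ) * (sin_sq_add_cos_sq σ)
  have dR : HasDerivAt (fun σ => Γ.R (σ + δ) (σ - δ))
      (Γ.ρ (σ + δ) * sin δ + Γ.ρ (σ - δ) * sin δ - Γ.P (σ + δ) (σ - δ)) σ := by
    have := ((hX1.sub hX2).neg.mul (hasDerivAt_cos σ)).sub ((hY1.sub hY2).mul (hasDerivAt_sin σ))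
    refine (this.congr_of_eventuallyEq (Eventually.of_forall fun x => hR x)).congr_deriv ?_
    rw [hP, sin_add, cos_add, sin_sub, cos_sub]
    simp only [Pi.neg_apply, Pi.sub_apply]
    linear_combination ((Γ.ρ (σ + δ) + Γ.ρ (σ - δ)) * sin δ) * (sin_sq_add_cos_sq σ)
  have hPne := Γ.P_ne hoff
  have h2 := (hasDerivAt_id σ).add ((dR.div dP hPne).arctan)
  have e : (fun σ => σ + psi Γ.ρ σ δ) = (fun σ => σ + arctan (Γ.R (σ + δ) (σ - δ) / Γ.P (σ + δ) (σ - δ))) := by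
    ext x
    have := Γ.B_norm (σ := x) h0 h1
    unfold B at this
    rw [show (x + δ + (x - δ)) / 2 = x by ring] at this
    linarith
  rw [e]
  refine HasDerivAt.congr_deriv (f := fun σ => σ + arctan (Γ.R (σ + δ) (σ - δ) / Γ.P (σ + δ) (σ - δ))) h2 ?_
  have hcN := Γ.C_norm (σ := σ) h0 h1
  have hdN := Γ.D_norm (σ := σ) h0 h1
  have heN := Γ.E_norm (σ := σ) h0 h1
  have e1 : (vv Γ.ρ σ δ).2.2.2.1 = Γ.ρ (σ + δ) := by simp only [vv, cl_of h0.le h1]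
  have e2 : (vv Γ.ρ σ δ).2.2.2.2 = Γ.ρ (σ - δ) := by simp only [vv, cl_of h0.le h1]
  have hE := Γ.E_pos hoff
  have hEe := Γ.sqE' (σ + δ) (σ - δ)
  have hC := Γ.C_PR (σ + δ) (σ - δ)
  have hD := Γ.P_eq (σ + δ) (σ - δ)
  rw [show (σ + δ - (σ - δ)) / 2 = δ by ring] at hC hD
  have hh : hN (vv Γ.ρ σ δ) = (Γ.ρ (σ + δ) * Γ.C (σ + δ) (σ - δ) + Γ.ρ (σ - δ) * Γ.C (σ - δ) (σ + δ))
      / Γ.E (σ + δ) (σ - δ) ^ 2 := by
    have hee := (Γ.eN_pos (σ := σ) h0 h1).ne'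
    unfold hN mN
    rw [hcN, hdN, heN, e1, e2]
    field_simp
  rw [hh]
  have h5 : 1 + (Γ.R (σ + δ) (σ - δ) / Γ.P (σ + δ) (σ - δ)) ^ 2
      = Γ.E (σ + δ) (σ - δ) ^ 2 / Γ.P (σ + δ) (σ - δ) ^ 2 := by
    field_simp; linear_combination -hEe
  simp only [Pi.div_apply]
  rw [h5]
  have hD' : Γ.C (σ - δ) (σ + δ) = Γ.P (σ + δ) (σ - δ) * (2 * sin δ) - Γ.C (σ + δ) (σ - δ) := by
    linarith
  rw [hD', hC]
  field_simp
  linear_combination hEe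

lemma U1_norm : Γ.U φ (σ + δ) (σ - δ) = Gf (sin (cl δ)) (eN (vv Γ.ρ σ δ)) (dN (vv Γ.ρ σ δ))
    (xN (vv Γ.ρ σ δ) (sin (cl δ)) (cos (cl δ))) (yN (vv Γ.ρ σ δ) (sin (cl δ)) (cos (cl δ)))
    (Γ.ρ (σ - cl δ)) (φ.f0 (σ + π / 2 + psi Γ.ρ σ δ)) (φ.f1 (σ + π / 2 + psi Γ.ρ σ δ)) := by
  have hs := sδ_pos h0 h1
  unfold U
  rw [Γ.E_norm h0 h1, Γ.d_norm h0 h1, Γ.a_norm h0 h1, Γ.b_norm h0 h1, Γ.B_norm h0 h1,
    cl_of h0.le h1, uF_norm hs.ne' (Γ.eN_pos h0 h1).ne']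
  rfl

lemma U2_norm : Γ.U φ (σ - δ) (σ + δ) = Gf (sin (cl δ)) (eN (vv Γ.ρ σ δ)) (cN (vv Γ.ρ σ δ))
    (yN (vv Γ.ρ σ δ) (sin (cl δ)) (cos (cl δ))) (xN (vv Γ.ρ σ δ) (sin (cl δ)) (cos (cl δ)))
    (Γ.ρ (σ + cl δ)) (φ.f0 (σ + π / 2 + psi Γ.ρ σ δ)) (φ.f1 (σ + π / 2 + psi Γ.ρ σ δ)) := by
  have hs := sδ_pos h0 h1
  unfold U
  rw [Γ.E_symm, Γ.B_symm, Γ.E_norm h0 h1, Γ.c_norm h0 h1, Γ.a_norm h0 h1, Γ.b_norm h0 h1,
    Γ.B_norm h0 h1, cl_of h0.le h1, uF_norm hs.ne' (Γ.eN_pos h0 h1).ne']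
  rfl

end norm

/-- continuous extensions to `δ = 0` -/
def U1 (z : ℝ × ℝ) : ℝ := Gf (sin (cl z.2)) (eN (vv Γ.ρ z.1 z.2)) (dN (vv Γ.ρ z.1 z.2))
    (xN (vv Γ.ρ z.1 z.2) (sin (cl z.2)) (cos (cl z.2)))
    (yN (vv Γ.ρ z.1 z.2) (sin (cl z.2)) (cos (cl z.2)))
    (Γ.ρ (z.1 - cl z.2)) (φ.f0 (z.1 + π / 2 + psi Γ.ρ z.1 z.2))
    (φ.f1 (z.1 + π / 2 + psi Γ.ρ z.1 z.2))
def U2 (z : ℝ × ℝ) : ℝ := Gf (sin (cl z.2)) (eN (vv Γ.ρ z.1 z.2)) (cN (vv Γ.ρ z.1 z.2))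
    (yN (vv Γ.ρ z.1 z.2) (sin (cl z.2)) (cos (cl z.2)))
    (xN (vv Γ.ρ z.1 z.2) (sin (cl z.2)) (cos (cl z.2)))
    (Γ.ρ (z.1 + cl z.2)) (φ.f0 (z.1 + π / 2 + psi Γ.ρ z.1 z.2))
    (φ.f1 (z.1 + π / 2 + psi Γ.ρ z.1 z.2))
def JN (z : ℝ × ℝ) : ℝ :=
  (φ.f2 (z.1 + π / 2 + psi Γ.ρ z.1 z.2) + φ.f0 (z.1 + π / 2 + psi Γ.ρ z.1 z.2))
    * (sin (cl z.2) * eN (vv Γ.ρ z.1 z.2)) * cos (2 * cl z.2) * Γ.ρ (z.1 + cl z.2) * Γ.ρ (z.1 - cl z.2)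
def NN (z : ℝ × ℝ) : ℝ := (sin (cl z.2))⁻¹ * (XiN (vv Γ.ρ z.1 z.2) * hN (vv Γ.ρ z.1 z.2))

variable {Γ} {η : ℝ} (hg : Good η Γ.ρ) (c : Cst) (hη2 : 12 * η ≤ c.r0)

section
include c hη2 in
lemma l60 (hg : Good η Γ.ρ) : 60 * η ≤ 1 := by linarith [c.r0l, hg.nn]

include hg hη2 c

lemma basic_cont : Continuous (fun z : ℝ × ℝ => vv Γ.ρ z.1 z.2) ∧
    Continuous (fun z : ℝ × ℝ => φ.f0 (z.1 + π / 2 + psi Γ.ρ z.1 z.2)) ∧
    Continuous (fun z : ℝ × ℝ => φ.f1 (z.1 + π / 2 + psi Γ.ρ z.1 z.2)) ∧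
    Continuous (fun z : ℝ × ℝ => φ.f2 (z.1 + π / 2 + psi Γ.ρ z.1 z.2)) := by
  have h1 := vv_cont hg.cont
  have h2 := psi_cont hg (l60 c hη2 hg)
  have h3 : Continuous (fun z : ℝ × ℝ => z.1 + π / 2 + psi Γ.ρ z.1 z.2) :=
    (continuous_fst.add continuous_const).add h2
  exact ⟨h1, φ.c0.comp h3, φ.c1.comp h3, φ.c2.comp h3⟩

lemma xN_cont : Continuous (fun z : ℝ × ℝ => xN (vv Γ.ρ z.1 z.2) (sin (cl z.2)) (cos (cl z.2))) := by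
  have h1 := vv_cont hg.cont
  have h2 := cl_cont
  have a1 := h1.fst
  have a2 := h1.snd.fst
  have a3 := cN_cont.comp h1
  unfold xN
  exact Continuous.div (by fun_prop) a3 fun z => (vv_facts hg (l60 c hη2 hg) _ _).1.ne'

lemma yN_cont : Continuous (fun z : ℝ × ℝ => yN (vv Γ.ρ z.1 z.2) (sin (cl z.2)) (cos (cl z.2))) := by
  have h1 := vv_cont hg.cont
  have h2 := cl_cont
  have a1 := h1.fst
  have a2 := h1.snd.fst
  have a3 := dN_cont.comp h1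
  unfold yN
  exact Continuous.div (by fun_prop) a3 fun z => (vv_facts hg (l60 c hη2 hg) _ _).2.1.ne'

lemma U1_cont : Continuous (Γ.U1 φ) := by
  obtain ⟨h1, h2, h3, h4⟩ := basic_cont φ hg c hη2
  have h5 := xN_cont hg c hη2
  have h6 := yN_cont hg c hη2
  have h7 := cl_cont
  have h8 := eN_cont.comp h1
  have h9 := dN_cont.comp h1
  have h10 := Γ.cont
  simp only [Function.comp_def] at h8 h9
  unfold U1 Gf
  fun_prop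

lemma U2_cont : Continuous (Γ.U2 φ) := by
  obtain ⟨h1, h2, h3, h4⟩ := basic_cont φ hg c hη2
  have h5 := xN_cont hg c hη2
  have h6 := yN_cont hg c hη2
  have h7 := cl_cont
  have h8 := eN_cont.comp h1
  have h9 := cN_cont.comp h1
  have h10 := Γ.cont
  simp only [Function.comp_def] at h8 h9
  unfold U2 Gf
  fun_prop

lemma JN_cont : Continuous (Γ.JN φ) := by
  obtain ⟨h1, h2, h3, h4⟩ := basic_cont φ hg c hη2
  have h7 := cl_cont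
  have h8 := eN_cont.comp h1
  have h10 := Γ.cont
  simp only [Function.comp_def] at h8
  unfold JN
  fun_prop

lemma hN_cont : Continuous (fun z : ℝ × ℝ => hN (vv Γ.ρ z.1 z.2)) := by
  have h1 := vv_cont hg.cont
  have h8 := eN_cont.comp h1
  have h9 := mN_cont.comp h1
  unfold hN
  exact Continuous.div h9 (h8.pow 2) fun z =>
    pow_ne_zero _ (vv_facts hg (l60 c hη2 hg) _ _).2.2.1.ne'

lemma hN_bd (z : ℝ × ℝ) : |hN (vv Γ.ρ z.1 z.2)| ≤ 3 := by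
  obtain ⟨a1, a2, a3, a4⟩ := vv_facts hg (l60 c hη2 hg) z.1 z.2
  have b := box (vv_ball c hg hη2 z.1 z.2)
  obtain ⟨b1, b2, b3, b4, b5⟩ := b
  have hE := sqE_N (vv Γ.ρ z.1 z.2)
  unfold hN
  rw [abs_of_pos (by positivity), hE, div_le_iff₀ (by rw [← hE]; positivity)]
  rw [abs_le] at b1 b2 b3 b4 b5
  unfold mN cN dN
  nlinarith [sq_nonneg (vv Γ.ρ z.1 z.2).2.1]

lemma NN_cont : Continuous Γ.NN := by
  have hK := c.K1
  unfold NN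
  refine inv_mul_cont (C := 30000 * c.K * η ^ 2 * 3)
    (F := fun z => XiN (vv Γ.ρ z.1 z.2) * hN (vv Γ.ρ z.1 z.2)) ?_ ?_
  · exact (Xi_vv_cont c hg hη2 continuous_fst continuous_snd).mul (hN_cont hg c hη2)
  · intro z
    have h1 := Xi_vv_bd c hg hη2 z.1 z.2
    have h2 := hN_bd hg c hη2 z
    rw [abs_mul]
    calc _ ≤ (30000 * c.K * η ^ 2 * sin (cl z.2) ^ 2) * 3 := by gcongr
      _ = _ := by ring

end

end Crv
end Pool.Agent.Helper91
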