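import Pool.Agent.Helper91.RpK

open Real MeasureTheory Set Filter Topology intervalIntegral

noncomputable section

namespace Pool.Agent.Helper91

lemma shift_int {h : ℝ → ℝ → ℝ} (hs : ∀ s t, h (s + 2 * π) t = h s t)
    (ht : ∀ s t, h s (t + 2 * π) = h s t) (δ : ℝ) :
    ∫ t in 0..(2 * π), h (t + 2 * δ) t = ∫ σ in 0..(2 * π), h (σ + δ) (σ - δ) := by
  have hper : Function.Periodic (fun σ => h (σ + δ) (σ - δ)) (2 * π) := by
    intro σ
    simp only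
    rw [show σ + 2 * π + δ = σ + δ + 2 * π by ring, hs, show σ + 2 * π - δ = σ - δ + 2 * π by ring, ht]
  have e : ∫ t in 0..(2 * π), h (t + 2 * δ) t
      = ∫ t in 0..(2 * π), (fun σ => h (σ + δ) (σ - δ)) (t + δ) := by
    congr 1; ext t
    simp only
    rw [show t + δ + δ = t + 2 * δ by ring, show t + δ - δ = t by ring]
  rw [e, intervalIntegral.integral_comp_add_right (fun σ => h (σ + δ) (σ - δ)), zero_add,
    add_comm (2 * π) δ, hper.intervalIntegral_add_eq δ 0, zero_add]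

namespace Crv
variable (Γ : Crv) (φ : Tst)

lemma f_per_s (s t : ℝ) : Γ.f φ (s + 2 * π) t = Γ.f φ s t := by
  simp only [f, f0B_per_s, f2B_per_s, E_per_s, n_per_s, Γ.per]
  rw [show s + 2 * π - t = s - t + 2 * π by ring, cos_add_two_pi]
lemma f_per_t (s t : ℝ) : Γ.f φ s (t + 2 * π) = Γ.f φ s t := by
  simp only [f, f0B_per_t, f2B_per_t, E_per_t, n_per_t, Γ.per]
  rw [show s - (t + 2 * π) = s - t - 2 * π by ring, cos_sub_two_pi]
lemma U_per_t (s t : ℝ) : Γ.U φ s (t + 2 * π) = Γ.U φ s t := by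
  simp only [U, E_per_t, c_per_s, a_per_s, a_per_t, f0B_per_t, f1B_per_t, Γ.per]

lemma trunc2 {η : ℝ} (h0 : 0 < η) (h1 : η ≤ π / 2) :
    ∫ δ in η..(π / 2), ∫ σ in 0..(2 * π), Γ.f φ (σ + δ) (σ - δ)
      = (1 / 2) * ∫ σ in 0..(2 * π), (Γ.U φ (σ - η) (σ + η) - Γ.U φ (σ + η) (σ - η)) := by
  have key := Γ.trunc φ (η := 2 * η) (by linarith) (by linarith)
  have e1 : ∫ ω in (2 * η)..π, ∫ t in 0..(2 * π), Γ.f φ (t + ω) t
      = 2 * ∫ δ in η..(π / 2), ∫ σ in 0..(2 * π), Γ.f φ (σ + δ) (σ - δ) := by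
    have h2 := intervalIntegral.mul_integral_comp_mul_left (a := η) (b := π / 2)
      (f := fun ω => ∫ t in 0..(2 * π), Γ.f φ (t + ω) t) 2
    rw [show 2 * (π / 2) = π by ring] at h2
    rw [← h2]
    congr 1
    apply intervalIntegral.integral_congr
    intro δ _
    exact shift_int (Γ.f_per_s φ) (Γ.f_per_t φ) δ
  have e2 : ∫ t in 0..(2 * π), (Γ.U φ (t + (2 * π - 2 * η)) t - Γ.U φ (t + 2 * η) t)
      = ∫ σ in 0..(2 * π), (Γ.U φ (σ - η) (σ + η) - Γ.U φ (σ + η) (σ - η)) := by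
    have i1 : IntervalIntegrable (fun t => Γ.U φ (t + (2 * π - 2 * η)) t) volume 0 (2 * π) := by
      apply ContinuousOn.intervalIntegrable
      exact cont_comp_off (Γ.contOn_U φ) (by fun_prop) (by fun_prop) fun t _ =>
        off1 (by linarith [pi_pos]) (by linarith)
    have i2 : IntervalIntegrable (fun t => Γ.U φ (t + 2 * η) t) volume 0 (2 * π) := by
      apply ContinuousOn.intervalIntegrable
      exact cont_comp_off (Γ.contOn_U φ) (by fun_prop) (by fun_prop) fun t _ =>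
        off1 (by linarith) (by linarith [pi_pos])
    have i3 : IntervalIntegrable (fun σ => Γ.U φ (σ - η) (σ + η)) volume 0 (2 * π) := by
      apply ContinuousOn.intervalIntegrable
      exact cont_comp_off (Γ.contOn_U φ) (by fun_prop) (by fun_prop) fun t _ =>
        (offδ (σ := t) h0 h1).symm
    have i4 : IntervalIntegrable (fun σ => Γ.U φ (σ + η) (σ - η)) volume 0 (2 * π) := by
      apply ContinuousOn.intervalIntegrable
      exact cont_comp_off (Γ.contOn_U φ) (by fun_prop) (by fun_prop) fun t _ =>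
        (offδ (σ := t) h0 h1)
    rw [intervalIntegral.integral_sub i1 i2, intervalIntegral.integral_sub i3 i4]
    congr 1
    · have h3 := shift_int (Γ.U_per_s φ) (Γ.U_per_t φ) (-η)
      have e3 : ∫ t in 0..(2 * π), Γ.U φ (t + (2 * π - 2 * η)) t
          = ∫ t in 0..(2 * π), Γ.U φ (t + 2 * -η) t := by
        congr 1; ext t
        rw [show t + (2 * π - 2 * η) = t + 2 * -η + 2 * π by ring, Γ.U_per_s]
      rw [e3, h3]
      congr 1; ext t
      rw [← sub_eq_add_neg, sub_neg_eq_add]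
    · exact shift_int (Γ.U_per_s φ) (Γ.U_per_t φ) η
  rw [e1, e2] at key
  linarith

section norm
variable {σ δ : ℝ} (h0 : 0 < δ) (h1 : δ ≤ π / 2)
include h0 h1

lemma f_norm : Γ.f φ (σ + δ) (σ - δ)
    = Γ.JN φ (σ, δ) - φ.f0 (σ + π / 2 + psi Γ.ρ σ δ) * Γ.NN (σ, δ) := by
  unfold f JN NN
  simp only
  rw [Γ.B_norm h0 h1, Γ.E_norm h0 h1, Γ.n_norm h0 h1, cl_of h0.le h1,
    show σ + δ - (σ - δ) = 2 * δ by ring]

end norm

lemma vv_zero (ρ : ℝ → ℝ) (σ : ℝ) : vv ρ σ 0 = (2 * ρ σ, 0, 0, ρ σ, ρ σ) := by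
  unfold vv pN rN
  rw [cl_zero]
  simp only [zero_mul, add_zero, sub_zero]
  rw [pL_const _ le_rfl (by positivity), rL_const]
  simp

lemma psi_zero (ρ : ℝ → ℝ) (σ : ℝ) : psi ρ σ 0 = 0 := by
  unfold psi; rw [vv_zero]; simp

lemma U1_zero (σ : ℝ) : Γ.U1 φ (σ, 0) = (2 / 3) * (Γ.ρ σ ^ 3 * φ.f0 (σ + π / 2)) := by
  have hp := Γ.pos σ
  have e : √((2 * Γ.ρ σ) ^ 2 + 0 ^ 2) = 2 * Γ.ρ σ := by
    rw [zero_pow (by norm_num), add_zero, sqrt_sq (by positivity)]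
  unfold U1
  simp only [vv_zero, psi_zero, cl_zero, sin_zero, cos_zero, sub_zero, add_zero]
  unfold eN dN xN yN cN dN Gf
  simp only [e]
  field_simp
  ring

lemma U2_zero (σ : ℝ) : Γ.U2 φ (σ, 0) = -(2 / 3) * (Γ.ρ σ ^ 3 * φ.f0 (σ + π / 2)) := by
  have hp := Γ.pos σ
  have e : √((2 * Γ.ρ σ) ^ 2 + 0 ^ 2) = 2 * Γ.ρ σ := by
    rw [zero_pow (by norm_num), add_zero, sqrt_sq (by positivity)]
  unfold U2
  simp only [vv_zero, psi_zero, cl_zero, sin_zero, cos_zero, sub_zero, add_zero]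
  unfold eN xN yN cN dN Gf
  simp only [e]
  field_simp
  ring

lemma param_cont {F : ℝ × ℝ → ℝ} (hF : Continuous F) (a b : ℝ) :
    Continuous (fun δ => ∫ σ in a..b, F (σ, δ)) := by
  apply intervalIntegral.continuous_parametric_intervalIntegral_of_continuous'
  simp only [Function.uncurry_def]
  exact hF.comp (by fun_prop)

variable {Γ} {η : ℝ} (hg : Good η Γ.ρ) (c : Cst) (hη2 : 12 * η ≤ c.r0)

include hg hη2 c in
theorem limit_formula :
    ∫ δ in 0..(π / 2), ∫ σ in 0..(2 * π),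
      (Γ.JN φ (σ, δ) - φ.f0 (σ + π / 2 + psi Γ.ρ σ δ) * Γ.NN (σ, δ))
      = -(2 / 3) * ∫ σ in 0..(2 * π), Γ.ρ σ ^ 3 * φ.f0 (σ + π / 2) := by
  have hpi := pi_pos
  have cJ := JN_cont φ hg c hη2
  have cN := NN_cont hg c hη2
  have c1 := U1_cont φ hg c hη2
  have c2 := U2_cont φ hg c hη2
  obtain ⟨-, cf0, -, -⟩ := basic_cont φ hg c hη2
  have cF : Continuous (fun z : ℝ × ℝ => Γ.JN φ z - φ.f0 (z.1 + π / 2 + psi Γ.ρ z.1 z.2) * Γ.NN z) :=
    cJ.sub (cf0.mul cN)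
  set H : ℝ → ℝ := fun δ => ∫ σ in 0..(2 * π),
      (Γ.JN φ (σ, δ) - φ.f0 (σ + π / 2 + psi Γ.ρ σ δ) * Γ.NN (σ, δ)) with hH
  have cH : Continuous H := param_cont cF 0 (2 * π)
  have cL : Continuous (fun η' => ∫ δ in η'..(π / 2), H δ) := by
    have h3 : (fun η' => ∫ δ in η'..(π / 2), H δ) = fun η' => -∫ δ in (π / 2)..η', H δ := by
      ext η'; rw [intervalIntegral.integral_symm]
    rw [h3]
    exact (intervalIntegral.continuous_primitive (fun a b => cH.intervalIntegrable a b) _).neg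
  have cR : Continuous (fun η' => (1 / 2) * ∫ σ in 0..(2 * π), (Γ.U2 φ (σ, η') - Γ.U1 φ (σ, η'))) :=
    continuous_const.mul (param_cont (c2.sub c1) 0 (2 * π))
  have heq : ∀ η' ∈ Ioc 0 (π / 2), ∫ δ in η'..(π / 2), H δ
      = (1 / 2) * ∫ σ in 0..(2 * π), (Γ.U2 φ (σ, η') - Γ.U1 φ (σ, η')) := by
    intro η' hη'
    have h4 := Γ.trunc2 φ hη'.1 hη'.2
    have h5 : ∫ δ in η'..(π / 2), H δ
        = ∫ δ in η'..(π / 2), ∫ σ in 0..(2 * π), Γ.f φ (σ + δ) (σ - δ) := by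
      apply intervalIntegral.integral_congr
      intro δ hδ
      rw [uIcc_of_le hη'.2] at hδ
      simp only [hH]
      congr 1; ext σ
      rw [Γ.f_norm φ (by linarith [hη'.1, hδ.1]) hδ.2]
    rw [h5, h4]
    congr 2; ext σ
    rw [Γ.U1_norm φ hη'.1 hη'.2, Γ.U2_norm φ hη'.1 hη'.2]
    rfl
  have hlim1 : Tendsto (fun η' => ∫ δ in η'..(π / 2), H δ) (𝓝[>] 0) (𝓝 (∫ δ in 0..(π / 2), H δ)) :=
    (cL.tendsto 0).mono_left nhdsWithin_le_nhds
  have hlim2 : Tendsto (fun η' => (1 / 2) * ∫ σ in 0..(2 * π), (Γ.U2 φ (σ, η') - Γ.U1 φ (σ, η')))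
      (𝓝[>] 0) (𝓝 ((1 / 2) * ∫ σ in 0..(2 * π), (Γ.U2 φ (σ, 0) - Γ.U1 φ (σ, 0)))) :=
    (cR.tendsto 0).mono_left nhdsWithin_le_nhds
  have hev : (fun η' => ∫ δ in η'..(π / 2), H δ) =ᶠ[𝓝[>] 0]
      (fun η' => (1 / 2) * ∫ σ in 0..(2 * π), (Γ.U2 φ (σ, η') - Γ.U1 φ (σ, η'))) := by
    filter_upwards [Ioc_mem_nhdsGT (by positivity : (0 : ℝ) < π / 2)] with η' hη'
    exact heq η' hη'
  have := tendsto_nhds_unique (hlim1.congr' hev) hlim2
  rw [this, ← intervalIntegral.integral_const_mul, ← intervalIntegral.integral_const_mul]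
  congr 1; ext σ
  rw [U1_zero, U2_zero]; ring

end Crv
end Pool.Agent.Helper91
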