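import Pool.Agent.Helper91.RpL

open Real MeasureTheory Set Filter Topology intervalIntegral

noncomputable section

namespace Pool.Agent.Helper91

namespace Crv
variable {Γ : Crv} (φ : Tst) {η : ℝ} (hg : Good η Γ.ρ) (c : Cst) (hη2 : 12 * η ≤ c.r0)

include hg hη2 c in
lemma subst_inner {δ : ℝ} (h0 : 0 < δ) (h1 : δ ≤ π / 2) :
    ∫ σ in 0..(2 * π), φ.f0 (σ + π / 2 + psi Γ.ρ σ δ) * Γ.NN (σ, δ)
      = ∫ θ in 0..(2 * π), φ.f0 (θ + π / 2) * itg Γ.ρ θ δ := by
  have h60 := l60 c hη2 hg
  set G : ℝ → ℝ := fun θ => φ.f0 (θ + π / 2) * itg Γ.ρ θ δ with hG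
  have cG : Continuous G := by
    have h2 := φ.c0
    have h3 : Continuous (fun θ => itg Γ.ρ θ δ) := by
      have := Continuous.comp (g := fun z : ℝ × ℝ => itg Γ.ρ z.1 z.2) (itg_cont c hg hη2)
        (f := fun θ => (θ, δ)) (by fun_prop)
      simpa only [Function.comp_def] using this
    exact (h2.comp (by fun_prop)).mul h3
  have hper : Function.Periodic G (2 * π) := by
    intro θ
    simp only [hG]
    have e1 : φ.f0 (θ + 2 * π + π / 2) = φ.f0 (θ + π / 2) := by
      rw [show θ + 2 * π + π / 2 = θ + π / 2 + π + π by ring, φ.p0, φ.p0]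
    rw [e1]
    unfold itg
    rw [SS_per hg h60 Γ.per, vv_per Γ.per]
  have hd : ∀ σ ∈ uIcc 0 (2 * π), HasDerivAt (fun σ => σ + psi Γ.ρ σ δ) (hN (vv Γ.ρ σ δ)) σ :=
    fun σ _ => Γ.psi_deriv h0 h1
  have hc : ContinuousOn (fun σ => hN (vv Γ.ρ σ δ)) (uIcc 0 (2 * π)) := by
    have := Continuous.comp (g := fun z : ℝ × ℝ => hN (vv Γ.ρ z.1 z.2)) (hN_cont hg c hη2)
        (f := fun θ => (θ, δ)) (by fun_prop)
    simp only [Function.comp_def] at this
    exact this.continuousOn
  have key := intervalIntegral.integral_comp_mul_deriv hd hc cG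
  have e2 : ∀ σ, (G ∘ fun σ => σ + psi Γ.ρ σ δ) σ * hN (vv Γ.ρ σ δ)
      = φ.f0 (σ + π / 2 + psi Γ.ρ σ δ) * Γ.NN (σ, δ) := by
    intro σ
    simp only [Function.comp, hG]
    have hS : SS Γ.ρ δ (σ + psi Γ.ρ σ δ) = σ := SS_unique hg h60 rfl
    unfold itg NN
    rw [hS, show σ + psi Γ.ρ σ δ + π / 2 = σ + π / 2 + psi Γ.ρ σ δ by ring]
    ring
  have e3 : psi Γ.ρ (2 * π) δ = psi Γ.ρ 0 δ := by
    unfold psi
    have := vv_per Γ.per 0 δ
    rw [zero_add] at this
    rw [this]
  simp only [e2] at key
  rw [key, e3, zero_add, add_comm (2 * π), hper.intervalIntegral_add_eq (psi Γ.ρ 0 δ) 0, zero_add]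

include hg hη2 c in
theorem subst_formula :
    ∫ δ in 0..(π / 2), ∫ σ in 0..(2 * π), φ.f0 (σ + π / 2 + psi Γ.ρ σ δ) * Γ.NN (σ, δ)
      = ∫ θ in 0..(2 * π), φ.f0 (θ + π / 2) * qq Γ.ρ θ := by
  have hpi := pi_pos
  have e1 : ∫ δ in 0..(π / 2), ∫ σ in 0..(2 * π), φ.f0 (σ + π / 2 + psi Γ.ρ σ δ) * Γ.NN (σ, δ)
      = ∫ δ in 0..(π / 2), ∫ θ in 0..(2 * π), φ.f0 (θ + π / 2) * itg Γ.ρ θ δ := by
    apply intervalIntegral.integral_congr_ae
    refine Eventually.of_forall fun δ hδ => ?_
    rw [uIoc_of_le (by positivity)] at hδ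
    exact subst_inner φ hg c hη2 hδ.1 hδ.2
  have hc : Continuous (Function.uncurry fun δ θ => φ.f0 (θ + π / 2) * itg Γ.ρ θ δ) := by
    have h2 := φ.c0
    have h3 := Continuous.comp (g := fun z : ℝ × ℝ => itg Γ.ρ z.1 z.2) (itg_cont c hg hη2)
        (f := fun z : ℝ × ℝ => (z.2, z.1)) (by fun_prop)
    simp only [Function.comp_def] at h3
    simp only [Function.uncurry_def]
    exact (h2.comp (by fun_prop : Continuous fun z : ℝ × ℝ => z.2 + π / 2)).mul h3
  rw [e1, interval_swap' (h := fun δ θ => φ.f0 (θ + π / 2) * itg Γ.ρ θ δ) (by positivity)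
    (by positivity) hc.continuousOn]
  congr 1; ext θ
  rw [intervalIntegral.integral_const_mul]
  rfl

end Crv

/-- torus integral in symmetric coordinates -/
lemma torus {k : ℝ → ℝ → ℝ} (hk : Continuous (Function.uncurry k))
    (hs : ∀ s t, k (s + 2 * π) t = k s t) (ht : ∀ s t, k s (t + 2 * π) = k s t)
    (hsym : ∀ s t, k t s = k s t) :
    ∫ t in 0..(2 * π), ∫ s in 0..(2 * π), k s t
      = 4 * ∫ δ in 0..(π / 2), ∫ σ in 0..(2 * π), k (σ + δ) (σ - δ) := by
  have hpi := pi_pos
  have kc : ∀ {p q : ℝ × ℝ → ℝ}, Continuous p → Continuous q → Continuous fun z => k (p z) (q z) :=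
    fun hp hq => hk.comp (hp.prodMk hq)
  have e1 : ∀ t, ∫ s in 0..(2 * π), k s t = ∫ ω in 0..(2 * π), k (t + ω) t := by
    intro t
    have hper : Function.Periodic (fun s => k s t) (2 * π) := fun s => hs s t
    have := intervalIntegral.integral_comp_add_left (a := 0) (b := 2 * π) (fun s => k s t) t
    rw [this, add_zero, hper.intervalIntegral_add_eq t 0, zero_add]
  simp only [e1]
  have c1 : Continuous (Function.uncurry fun t ω => k (t + ω) t) := by
    simp only [Function.uncurry_def]
    exact kc (by fun_prop) (by fun_prop)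
  rw [interval_swap' (h := fun t ω => k (t + ω) t) (by positivity) (by positivity)
    c1.continuousOn]
  set G : ℝ → ℝ := fun ω => ∫ t in 0..(2 * π), k (t + ω) t with hG
  have cG : Continuous G := by
    apply intervalIntegral.continuous_parametric_intervalIntegral_of_continuous'
    simp only [Function.uncurry_def]
    exact kc (by fun_prop) (by fun_prop)
  have hrefl : ∀ ω, G (2 * π - ω) = G ω := by
    intro ω
    simp only [hG]
    have hper : Function.Periodic (fun t => k (t - ω) t) (2 * π) := fun t => by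
      simp only
      rw [ht, show t + 2 * π - ω = t - ω + 2 * π by ring, hs]
    have e2 : ∫ t in 0..(2 * π), k (t + ω) t = ∫ t in 0..(2 * π), (fun t => k (t - ω) t) (t + ω) := by
      congr 1; ext t
      simp only
      rw [hsym, add_sub_cancel_right]
    rw [e2, intervalIntegral.integral_comp_add_right (fun t => k (t - ω) t), zero_add,
      add_comm (2 * π) ω, hper.intervalIntegral_add_eq ω 0, zero_add]
    congr 1; ext t
    rw [show t + (2 * π - ω) = t - ω + 2 * π by ring, hs]
  have split : ∫ ω in 0..(2 * π), G ω = 2 * ∫ ω in 0..π, G ω := by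
    rw [← intervalIntegral.integral_add_adjacent_intervals (b := π) (cG.intervalIntegrable _ _)
      (cG.intervalIntegrable _ _)]
    have h3 : ∫ ω in π..(2 * π), G ω = ∫ ω in 0..π, G ω := by
      have := intervalIntegral.integral_comp_sub_left (a := 0) (b := π) G (2 * π)
      rw [sub_zero, show 2 * π - π = π by ring] at this
      rw [← this]
      congr 1; ext ω; exact hrefl ω
    rw [h3]; ring
  have h2 := intervalIntegral.mul_integral_comp_mul_left (a := 0) (b := π / 2) (f := G) 2
  rw [show 2 * (π / 2) = π by ring, mul_zero] at h2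
  rw [split, ← h2]
  have h4 : ∀ δ, G (2 * δ) = ∫ σ in 0..(2 * π), k (σ + δ) (σ - δ) := fun δ => shift_int hs ht δ
  simp only [h4]
  ring

/-! ### the test function -/

def PhA (x : ℝ) : ℝ := ∫ y in 0..x, cos y * |sin y|
def PhB (x : ℝ) : ℝ := ∫ y in 0..x, sin y * |sin y|

lemma PhA_deriv (x : ℝ) : HasDerivAt PhA (cos x * |sin x|) x := by
  have hc : Continuous fun y : ℝ => cos y * |sin y| := by fun_prop
  exact intervalIntegral.integral_hasDerivAt_right (hc.intervalIntegrable _ _)
    (hc.stronglyMeasurableAtFilter _ _) hc.continuousAt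

lemma PhB_deriv (x : ℝ) : HasDerivAt PhB (sin x * |sin x|) x := by
  have hc : Continuous fun y : ℝ => sin y * |sin y| := by fun_prop
  exact intervalIntegral.integral_hasDerivAt_right (hc.intervalIntegrable _ _)
    (hc.stronglyMeasurableAtFilter _ _) hc.continuousAt

lemma PhA_add (x : ℝ) : PhA (x + π) = -PhA x := by
  have hc : Continuous fun y : ℝ => cos y * |sin y| := by fun_prop
  unfold PhA
  rw [← intervalIntegral.integral_add_adjacent_intervals (b := π) (hc.intervalIntegrable _ _)
      (hc.intervalIntegrable _ _)]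
  have h1 : ∫ y in 0..π, cos y * |sin y| = 0 := by
    have e : ∫ y in 0..π, cos y * |sin y| = ∫ y in 0..π, sin y * cos y := by
      apply intervalIntegral.integral_congr
      intro y hy
      rw [uIcc_of_le pi_pos.le] at hy
      simp only
      rw [abs_of_nonneg (sin_nonneg_of_nonneg_of_le_pi hy.1 hy.2)]; ring
    rw [e, integral_sin_mul_cos₁]; simp
  have h2 : ∫ y in π..(x + π), cos y * |sin y| = -∫ y in 0..x, cos y * |sin y| := by
    have := intervalIntegral.integral_comp_add_right (a := 0) (b := x)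
      (fun y => cos y * |sin y|) π
    rw [zero_add] at this
    rw [← this, ← intervalIntegral.integral_neg]
    congr 1; ext y
    rw [cos_add_pi, sin_add_pi, abs_neg]; ring
  rw [h1, h2, zero_add]

lemma PhB_add (x : ℝ) : PhB (x + π) = π / 2 - PhB x := by
  have hc : Continuous fun y : ℝ => sin y * |sin y| := by fun_prop
  unfold PhB
  rw [← intervalIntegral.integral_add_adjacent_intervals (b := π) (hc.intervalIntegrable _ _)
      (hc.intervalIntegrable _ _)]
  have h1 : ∫ y in 0..π, sin y * |sin y| = π / 2 := by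
    have e : ∫ y in 0..π, sin y * |sin y| = ∫ y in 0..π, sin y ^ 2 := by
      apply intervalIntegral.integral_congr
      intro y hy
      rw [uIcc_of_le pi_pos.le] at hy
      simp only
      rw [abs_of_nonneg (sin_nonneg_of_nonneg_of_le_pi hy.1 hy.2)]; ring
    rw [e, integral_sin_sq]; simp
  have h2 : ∫ y in π..(x + π), sin y * |sin y| = -∫ y in 0..x, sin y * |sin y| := by
    have := intervalIntegral.integral_comp_add_right (a := 0) (b := x)
      (fun y => sin y * |sin y|) π
    rw [zero_add] at this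
    rw [← this, ← intervalIntegral.integral_neg]
    congr 1; ext y
    rw [sin_add_pi, abs_neg]; ring
  rw [h1, h2]; ring

def Ph (x : ℝ) : ℝ := sin x * PhA x - cos x * PhB x + π / 4 * cos x
def Ph1 (x : ℝ) : ℝ := cos x * PhA x + sin x * PhB x - π / 4 * sin x
def Ph2 (x : ℝ) : ℝ := |sin x| - Ph x

/-- the test function attached to a direction -/
def tst (α : ℝ) : Tst where
  f0 x := Ph (x - α)
  f1 x := Ph1 (x - α)
  f2 x := Ph2 (x - α)
  h0 x := by
    have h : HasDerivAt Ph (Ph1 (x - α)) (x - α) := by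
      have := (((hasDerivAt_sin (x - α)).mul (PhA_deriv (x - α))).sub
        ((hasDerivAt_cos (x - α)).mul (PhB_deriv (x - α)))).add
        ((hasDerivAt_cos (x - α)).const_mul (π / 4))
      refine HasDerivAt.congr_deriv (f := Ph) this ?_
      unfold Ph1; ring
    exact h.comp_sub_const x α
  h1 x := by
    have h : HasDerivAt Ph1 (Ph2 (x - α)) (x - α) := by
      have := (((hasDerivAt_cos (x - α)).mul (PhA_deriv (x - α))).add
        ((hasDerivAt_sin (x - α)).mul (PhB_deriv (x - α)))).sub
        ((hasDerivAt_sin (x - α)).const_mul (π / 4))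
      refine HasDerivAt.congr_deriv (f := Ph1) this ?_
      unfold Ph2 Ph
      linear_combination |sin (x - α)| * sin_sq_add_cos_sq (x - α)
    exact h.comp_sub_const x α
  c2 := by
    have hA : Continuous PhA := continuous_iff_continuousAt.2 fun x => (PhA_deriv x).continuousAt
    have hB : Continuous PhB := continuous_iff_continuousAt.2 fun x => (PhB_deriv x).continuousAt
    unfold Ph2 Ph
    fun_prop
  p0 x := by
    unfold Ph
    rw [show x + π - α = x - α + π by ring, sin_add_pi, cos_add_pi, PhA_add, PhB_add]; ring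
  p1 x := by
    unfold Ph1
    rw [show x + π - α = x - α + π by ring, sin_add_pi, cos_add_pi, PhA_add, PhB_add]; ring
  p2 x := by
    unfold Ph2 Ph
    rw [show x + π - α = x - α + π by ring, sin_add_pi, cos_add_pi, PhA_add, PhB_add, abs_neg]; ring

lemma tst_ode (α x : ℝ) : (tst α).f2 x + (tst α).f0 x = |sin (x - α)| := by
  simp only [tst, Ph2]; ring

end Pool.Agent.Helper91
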