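import Pool.Agent.Helper91.RpM

open Real MeasureTheory Set Filter Topology intervalIntegral

noncomputable section

namespace Pool.Agent.Helper91

namespace Crv
variable (Γ : Crv)

/-- the coordinate orthogonal to the direction `α` -/
def yc (α s : ℝ) : ℝ := -(Γ.X s * sin α) + Γ.Y s * cos α

/-- the kernel -/
def kk (α s t : ℝ) : ℝ := Γ.ρ s * Γ.ρ t * cos (s - t) * |Γ.yc α s - Γ.yc α t|

lemma P_pos {σ δ : ℝ} (h0 : 0 < δ) (h1 : δ ≤ π / 2) : 0 < Γ.P (σ + δ) (σ - δ) := by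
  have h2 := Γ.P_eq (σ + δ) (σ - δ)
  have h3 := Γ.C_pos (offδ (σ := σ) h0 h1)
  have h4 := Γ.C_pos (offδ (σ := σ) h0 h1).symm
  have hs := sδ_pos h0 h1
  rw [show (σ + δ - (σ - δ)) / 2 = δ by ring] at h2
  have h5 : 0 < Γ.P (σ + δ) (σ - δ) * (2 * sin δ) := by linarith
  exact pos_of_mul_pos_left h5 (by positivity)

lemma chord_dir {σ δ : ℝ} (h0 : 0 < δ) (h1 : δ ≤ π / 2) :
    Γ.X (σ + δ) - Γ.X (σ - δ) = Γ.E (σ + δ) (σ - δ) * cos (Γ.B (σ + δ) (σ - δ)) ∧
    Γ.Y (σ + δ) - Γ.Y (σ - δ) = Γ.E (σ + δ) (σ - δ) * sin (Γ.B (σ + δ) (σ - δ)) := by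
  have hP := Γ.P_pos (σ := σ) h0 h1
  have hE := Γ.E_pos (offδ (σ := σ) h0 h1)
  have hEe := Γ.sqE' (σ + δ) (σ - δ)
  set E := Γ.E (σ + δ) (σ - δ)
  have hX : Γ.X (σ + δ) - Γ.X (σ - δ)
      = -(Γ.P (σ + δ) (σ - δ) * sin σ) - Γ.R (σ + δ) (σ - δ) * cos σ := by
    unfold P R
    rw [show (σ + δ + (σ - δ)) / 2 = σ by ring]
    linear_combination (-(Γ.X (σ + δ) - Γ.X (σ - δ))) * (sin_sq_add_cos_sq σ)
  have hY : Γ.Y (σ + δ) - Γ.Y (σ - δ)
      = Γ.P (σ + δ) (σ - δ) * cos σ - Γ.R (σ + δ) (σ - δ) * sin σ := by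
    unfold P R
    rw [show (σ + δ + (σ - δ)) / 2 = σ by ring]
    linear_combination (-(Γ.Y (σ + δ) - Γ.Y (σ - δ))) * (sin_sq_add_cos_sq σ)
  set P := Γ.P (σ + δ) (σ - δ)
  set R := Γ.R (σ + δ) (σ - δ)
  have hsq : √(1 + (R / P) ^ 2) = E / P := by
    rw [show 1 + (R / P) ^ 2 = (E / P) ^ 2 by
      rw [div_pow, div_pow, hEe]; field_simp]
    exact sqrt_sq (by positivity)
  have hc : E * cos (arctan (R / P)) = P := by
    rw [cos_arctan, hsq]; field_simp
  have hs : E * sin (arctan (R / P)) = R := by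
    rw [sin_arctan, hsq]; field_simp
  have hB : Γ.B (σ + δ) (σ - δ) = (σ + arctan (R / P)) + π / 2 := by
    unfold B
    rw [show (σ + δ + (σ - δ)) / 2 = σ by ring]; ring
  rw [hB, cos_add_pi_div_two, sin_add_pi_div_two, hX, hY, sin_add, cos_add]
  constructor
  · linear_combination (sin σ) * hc + (cos σ) * hs
  · linear_combination -(cos σ) * hc + (sin σ) * hs

lemma kk_norm {σ δ : ℝ} (h0 : 0 < δ) (h1 : δ ≤ π / 2) (α : ℝ) :
    Γ.kk α (σ + δ) (σ - δ) = Γ.JN (tst α) (σ, δ) := by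
  obtain ⟨hx, hy⟩ := Γ.chord_dir (σ := σ) h0 h1
  have hE := Γ.E_pos (offδ (σ := σ) h0 h1)
  unfold kk JN
  simp only
  rw [tst_ode, cl_of h0.le h1, ← Γ.E_norm h0 h1, ← Γ.B_norm h0 h1,
    show σ + δ - (σ - δ) = 2 * δ by ring]
  have e : Γ.yc α (σ + δ) - Γ.yc α (σ - δ)
      = Γ.E (σ + δ) (σ - δ) * sin (Γ.B (σ + δ) (σ - δ) - α) := by
    unfold yc
    rw [sin_sub]
    linear_combination (-sin α) * hx + cos α * hy
  rw [e, abs_mul, abs_of_pos hE]
  ring

lemma yc_cont (α : ℝ) : Continuous (Γ.yc α) := by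
  have := Γ.contX; have := Γ.contY
  unfold yc; fun_prop

variable {Γ} {η : ℝ} (hg : Good η Γ.ρ) (c : Cst) (hη2 : 12 * η ≤ c.r0)

include hg hη2 c in
/-- the double integral is the same for all directions -/
theorem J_const (hq : ∀ θ, -(2 / 3) * (Γ.ρ θ ^ 3 + Γ.ρ (θ + π) ^ 3)
      + (qq Γ.ρ θ + qq Γ.ρ (θ + π)) = -(4 / 3)) (α : ℝ) :
    ∫ t in 0..(2 * π), ∫ s in 0..(2 * π), Γ.kk α s t
      = -(8 / 3) * ∫ θ in 0..(2 * π), (tst α).f0 (θ + π / 2) := by
  have hpi := pi_pos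
  have hy := Γ.yc_cont α
  have hρ := Γ.cont
  have h60 := l60 c hη2 hg
  have perY : ∀ s, Γ.yc α (s + 2 * π) = Γ.yc α s := fun s => by
    unfold yc; rw [Γ.perX, Γ.perY]
  have hk : Continuous (Function.uncurry (Γ.kk α)) := by
    simp only [Function.uncurry_def, kk]
    fun_prop
  have t1 := torus hk (fun s t => by
      unfold kk; rw [Γ.per, perY, show s + 2 * π - t = s - t + 2 * π by ring, cos_add_two_pi])
    (fun s t => by
      unfold kk; rw [Γ.per, perY, show s - (t + 2 * π) = s - t - 2 * π by ring, cos_sub_two_pi])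
    (fun s t => by
      unfold kk
      rw [abs_sub_comm, show t - s = -(s - t) by ring, cos_neg]; ring)
  rw [t1]
  have t2 : ∫ δ in 0..(π / 2), ∫ σ in 0..(2 * π), Γ.kk α (σ + δ) (σ - δ)
      = ∫ δ in 0..(π / 2), ∫ σ in 0..(2 * π), Γ.JN (tst α) (σ, δ) := by
    apply intervalIntegral.integral_congr_ae
    refine Eventually.of_forall fun δ hδ => ?_
    rw [uIoc_of_le (by positivity)] at hδ
    congr 1; ext σ
    exact Γ.kk_norm hδ.1 hδ.2 α
  have cJ := JN_cont (tst α) hg c hη2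
  have cN := NN_cont hg c hη2
  obtain ⟨-, cf0, -, -⟩ := basic_cont (tst α) hg c hη2
  have t3 := limit_formula (tst α) hg c hη2
  have t4 := subst_formula (tst α) hg c hη2
  have cfN : Continuous (fun z : ℝ × ℝ => (tst α).f0 (z.1 + π / 2 + psi Γ.ρ z.1 z.2) * Γ.NN z) :=
    cf0.mul cN
  have slice : ∀ {F : ℝ × ℝ → ℝ}, Continuous F → ∀ δ,
      IntervalIntegrable (fun σ => F (σ, δ)) volume 0 (2 * π) := fun hF δ =>
    (hF.comp (by fun_prop : Continuous fun σ : ℝ => (σ, δ))).intervalIntegrable _ _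
  have t5 : ∫ δ in 0..(π / 2), ∫ σ in 0..(2 * π),
      (Γ.JN (tst α) (σ, δ) - (tst α).f0 (σ + π / 2 + psi Γ.ρ σ δ) * Γ.NN (σ, δ))
      = (∫ δ in 0..(π / 2), ∫ σ in 0..(2 * π), Γ.JN (tst α) (σ, δ))
        - ∫ δ in 0..(π / 2), ∫ σ in 0..(2 * π),
          (tst α).f0 (σ + π / 2 + psi Γ.ρ σ δ) * Γ.NN (σ, δ) := by
    rw [← intervalIntegral.integral_sub]
    · congr 1; ext δ
      rw [intervalIntegral.integral_sub (slice cJ δ) (slice cfN δ)]
    · exact (param_cont cJ 0 (2 * π)).intervalIntegrable _ _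
    · exact (param_cont cfN 0 (2 * π)).intervalIntegrable _ _
  rw [t5, t4] at t3
  have t6 : ∫ δ in 0..(π / 2), ∫ σ in 0..(2 * π), Γ.JN (tst α) (σ, δ)
      = -(2 / 3) * (∫ σ in 0..(2 * π), Γ.ρ σ ^ 3 * (tst α).f0 (σ + π / 2))
        + ∫ θ in 0..(2 * π), (tst α).f0 (θ + π / 2) * qq Γ.ρ θ := by linarith
  have cq : Continuous (qq Γ.ρ) := by
    unfold qq
    apply intervalIntegral.continuous_parametric_intervalIntegral_of_continuous'
    simp only [Function.uncurry_def]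
    exact itg_cont c hg hη2
  have cf : Continuous (tst α).f0 := (tst α).c0
  have cf' : Continuous (fun θ => (tst α).f0 (θ + π / 2)) := cf.comp (by fun_prop)
  -- symmetrize
  have half : ∀ h : ℝ → ℝ, Continuous h → (∀ x, h (x + 2 * π) = h x) →
      ∫ θ in 0..(2 * π), (tst α).f0 (θ + π / 2) * h θ
        = (1 / 2) * ∫ θ in 0..(2 * π), (tst α).f0 (θ + π / 2) * (h θ + h (θ + π)) := by
    intro h hh hper
    have hP : Function.Periodic (fun θ => (tst α).f0 (θ + π / 2) * h θ) (2 * π) := fun θ => by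
      simp only
      rw [hper, show θ + 2 * π + π / 2 = θ + π / 2 + π + π by ring, (tst α).p0, (tst α).p0]
    have e1 : ∫ θ in 0..(2 * π), (tst α).f0 (θ + π / 2) * h (θ + π)
        = ∫ θ in 0..(2 * π), (tst α).f0 (θ + π / 2) * h θ := by
      have e2 : ∫ θ in 0..(2 * π), (tst α).f0 (θ + π / 2) * h (θ + π)
          = ∫ θ in 0..(2 * π), (fun θ => (tst α).f0 (θ + π / 2) * h θ) (θ + π) := by
        congr 1; ext θ
        simp only
        rw [show θ + π + π / 2 = θ + π / 2 + π by ring, (tst α).p0]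
      rw [e2, intervalIntegral.integral_comp_add_right
        (fun θ => (tst α).f0 (θ + π / 2) * h θ), zero_add, add_comm (2 * π) π,
        hP.intervalIntegral_add_eq π 0, zero_add]
    simp only [mul_add]
    rw [intervalIntegral.integral_add, e1]
    · ring
    · exact (cf'.mul hh).intervalIntegrable _ _
    · exact (cf'.mul (hh.comp (by fun_prop : Continuous fun θ : ℝ => θ + π))).intervalIntegrable _ _
  have e3 : ∫ σ in 0..(2 * π), Γ.ρ σ ^ 3 * (tst α).f0 (σ + π / 2)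
      = ∫ σ in 0..(2 * π), (tst α).f0 (σ + π / 2) * Γ.ρ σ ^ 3 := by
    congr 1; ext σ; ring
  rw [t2, t6, e3, half (fun θ => Γ.ρ θ ^ 3) (by fun_prop) (fun x => by simp only [Γ.per]),
    half (qq Γ.ρ) cq (fun x => qq_per hg h60 Γ.per x)]
  have e4 : (∫ θ in 0..(2 * π), (tst α).f0 (θ + π / 2)) * (-(4 / 3))
      = -(2 / 3) * (∫ θ in 0..(2 * π), (tst α).f0 (θ + π / 2) * (Γ.ρ θ ^ 3 + Γ.ρ (θ + π) ^ 3))
        + ∫ θ in 0..(2 * π), (tst α).f0 (θ + π / 2) * (qq Γ.ρ θ + qq Γ.ρ (θ + π)) := by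
    rw [← intervalIntegral.integral_mul_const, ← intervalIntegral.integral_const_mul,
      ← intervalIntegral.integral_add]
    · congr 1; ext θ
      linear_combination (-(tst α).f0 (θ + π / 2)) * hq θ
    · exact (continuous_const.mul (cf'.mul (by fun_prop :
        Continuous fun θ => Γ.ρ θ ^ 3 + Γ.ρ (θ + π) ^ 3))).intervalIntegrable _ _
    · exact (cf'.mul (by fun_prop :
        Continuous fun θ => qq Γ.ρ θ + qq Γ.ρ (θ + π))).intervalIntegrable _ _
  linear_combination -2 * e4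

end Crv

end Pool.Agent.Helper91
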