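import Pool.Agent.Helper91.RpN

open Real MeasureTheory Set Filter Topology intervalIntegral

noncomputable section

namespace Pool.Agent.Helper91

namespace Crv
variable (Γ : Crv)

/-- support function -/
def h (θ : ℝ) : ℝ := Γ.X θ * cos θ + Γ.Y θ * sin θ

/-- the convex body bounded by the curve, in coordinates -/
def body2 : Set (ℝ × ℝ) := {w | ∀ θ, w.1 * cos θ + w.2 * sin θ ≤ Γ.h θ}

lemma C_nonneg (s t : ℝ) : 0 ≤ Γ.C s t := by
  by_cases ho : Off s t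
  · exact (Γ.C_pos ho).le
  · unfold Off at ho
    push Not at ho
    obtain ⟨k, hk⟩ := sin_eq_zero_iff.1 ho
    have hs : s = t + k * (2 * π) := by linarith
    have hper : Function.Periodic (fun s => Γ.C s t) (2 * π) := fun s => Γ.C_per_s s t
    have : Γ.C s t = Γ.C t t := by
      rw [hs]; exact hper.int_mul k t
    rw [this, C_self]

lemma C_eq_h (θ t : ℝ) : Γ.C θ t = Γ.h θ - (Γ.X t * cos θ + Γ.Y t * sin θ) := by
  unfold C h; ring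

lemma curve_mem (t : ℝ) : (Γ.X t, Γ.Y t) ∈ Γ.body2 := by
  intro θ
  have := Γ.C_nonneg θ t
  rw [C_eq_h] at this
  simp only
  linarith

lemma Y_mono : StrictMonoOn Γ.Y (Icc (-(π / 2)) (π / 2)) := by
  apply strictMonoOn_of_deriv_pos (convex_Icc _ _) Γ.contY.continuousOn
  intro x hx
  rw [interior_Icc] at hx
  rw [(Γ.hY x).deriv]
  exact mul_pos (Γ.pos x) (cos_pos_of_mem_Ioo hx)

lemma Y_anti : StrictAntiOn Γ.Y (Icc (π / 2) (3 * π / 2)) := by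
  apply strictAntiOn_of_deriv_neg (convex_Icc _ _) Γ.contY.continuousOn
  intro x hx
  rw [interior_Icc] at hx
  rw [(Γ.hY x).deriv]
  have h1 : 0 < cos (x - π) := cos_pos_of_mem_Ioo ⟨by linarith [hx.1], by linarith [hx.2]⟩
  rw [cos_sub_pi] at h1
  have := mul_pos (Γ.pos x) h1
  linarith

def y0 : ℝ := Γ.Y (-(π / 2))
def y1 : ℝ := Γ.Y (π / 2)

lemma y01 : Γ.y0 < Γ.y1 :=
  Γ.Y_mono ⟨le_rfl, by linarith [pi_pos]⟩ ⟨by linarith [pi_pos], le_rfl⟩ (by linarith [pi_pos])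

lemma Y_end : Γ.Y (3 * π / 2) = Γ.y0 := by
  unfold y0
  rw [show 3 * π / 2 = -(π / 2) + 2 * π by ring, Γ.perY]

def cy (y : ℝ) : ℝ := max Γ.y0 (min y Γ.y1)

lemma cy_mem (y : ℝ) : Γ.cy y ∈ Icc Γ.y0 Γ.y1 :=
  ⟨le_max_left _ _, max_le Γ.y01.le (min_le_right _ _)⟩

lemma cy_mono : Monotone Γ.cy := fun a b hab => by
  unfold cy; gcongr

lemma cy_of {y : ℝ} (h : y ∈ Icc Γ.y0 Γ.y1) : Γ.cy y = y := by
  unfold cy; rw [min_eq_left h.2, max_eq_right h.1]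

lemma tt_ex (y : ℝ) : ∃ t ∈ Icc (-(π / 2)) (π / 2), Γ.Y t = Γ.cy y := by
  have := intermediate_value_Icc (a := -(π / 2)) (b := π / 2) (by linarith [pi_pos])
    Γ.contY.continuousOn
  exact this (Γ.cy_mem y)

lemma ss_ex (y : ℝ) : ∃ s ∈ Icc (π / 2) (3 * π / 2), Γ.Y s = Γ.cy y := by
  have := intermediate_value_Icc' (a := π / 2) (b := 3 * π / 2) (by linarith [pi_pos])
    Γ.contY.continuousOn
  rw [Y_end] at this
  exact this (Γ.cy_mem y)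

def tt (y : ℝ) : ℝ := (Γ.tt_ex y).choose
def ss (y : ℝ) : ℝ := (Γ.ss_ex y).choose

lemma tt_mem (y : ℝ) : Γ.tt y ∈ Icc (-(π / 2)) (π / 2) := (Γ.tt_ex y).choose_spec.1
lemma tt_Y (y : ℝ) : Γ.Y (Γ.tt y) = Γ.cy y := (Γ.tt_ex y).choose_spec.2
lemma ss_mem (y : ℝ) : Γ.ss y ∈ Icc (π / 2) (3 * π / 2) := (Γ.ss_ex y).choose_spec.1
lemma ss_Y (y : ℝ) : Γ.Y (Γ.ss y) = Γ.cy y := (Γ.ss_ex y).choose_spec.2

lemma tt_mono : Monotone Γ.tt := fun a b hab => by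
  rw [← Γ.Y_mono.le_iff_le (Γ.tt_mem a) (Γ.tt_mem b), tt_Y, tt_Y]
  exact Γ.cy_mono hab

lemma ss_anti : Antitone Γ.ss := fun a b hab => by
  rw [← Γ.Y_anti.le_iff_ge (Γ.ss_mem a) (Γ.ss_mem b), ss_Y, ss_Y]
  exact Γ.cy_mono hab

def hi (y : ℝ) : ℝ := Γ.X (Γ.tt y)
def lo (y : ℝ) : ℝ := Γ.X (Γ.ss y)

lemma hi_meas : Measurable Γ.hi := Γ.contX.measurable.comp Γ.tt_mono.measurable
lemma lo_meas : Measurable Γ.lo := Γ.contX.measurable.comp Γ.ss_anti.measurable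

lemma tt_Ioo {y : ℝ} (h : y ∈ Ioo Γ.y0 Γ.y1) : Γ.tt y ∈ Ioo (-(π / 2)) (π / 2) := by
  have h1 := Γ.tt_mem y
  have h2 := Γ.tt_Y y
  rw [Γ.cy_of ⟨h.1.le, h.2.le⟩] at h2
  refine ⟨lt_of_le_of_ne h1.1 ?_, lt_of_le_of_ne h1.2 ?_⟩
  · intro h3; rw [← h3] at h2; exact h.1.ne h2
  · intro h3; rw [h3] at h2; exact h.2.ne' h2

lemma ss_Ioo {y : ℝ} (h : y ∈ Ioo Γ.y0 Γ.y1) : Γ.ss y ∈ Ioo (π / 2) (3 * π / 2) := by
  have h1 := Γ.ss_mem y
  have h2 := Γ.ss_Y y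
  rw [Γ.cy_of ⟨h.1.le, h.2.le⟩] at h2
  refine ⟨lt_of_le_of_ne h1.1 ?_, lt_of_le_of_ne h1.2 ?_⟩
  · intro h3; rw [← h3] at h2; exact h.2.ne' h2
  · intro h3; rw [h3, Y_end] at h2; exact h.1.ne h2

lemma le_hi {x y : ℝ} (h : y ∈ Ioo Γ.y0 Γ.y1) (hm : (x, y) ∈ Γ.body2) : x ≤ Γ.hi y := by
  have h1 := hm (Γ.tt y)
  have h2 := Γ.tt_Y y
  rw [Γ.cy_of ⟨h.1.le, h.2.le⟩] at h2
  have h3 : 0 < cos (Γ.tt y) := cos_pos_of_mem_Ioo (Γ.tt_Ioo h)
  simp only [Crv.h, h2] at h1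
  unfold hi
  by_contra hc
  push Not at hc
  nlinarith

lemma lo_le {x y : ℝ} (h : y ∈ Ioo Γ.y0 Γ.y1) (hm : (x, y) ∈ Γ.body2) : Γ.lo y ≤ x := by
  have h1 := hm (Γ.ss y)
  have h2 := Γ.ss_Y y
  rw [Γ.cy_of ⟨h.1.le, h.2.le⟩] at h2
  have hs := Γ.ss_Ioo h
  have h3 : 0 < cos (Γ.ss y - π) :=
    cos_pos_of_mem_Ioo ⟨by linarith [hs.1], by linarith [hs.2]⟩
  rw [cos_sub_pi] at h3
  simp only [Crv.h, h2] at h1
  unfold lo
  by_contra hc
  push Not at hc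
  nlinarith

lemma hi_mem {y : ℝ} (h : y ∈ Ioo Γ.y0 Γ.y1) : (Γ.hi y, y) ∈ Γ.body2 := by
  have h2 := Γ.tt_Y y
  rw [Γ.cy_of ⟨h.1.le, h.2.le⟩] at h2
  have := Γ.curve_mem (Γ.tt y)
  rw [h2] at this
  exact this

lemma lo_mem {y : ℝ} (h : y ∈ Ioo Γ.y0 Γ.y1) : (Γ.lo y, y) ∈ Γ.body2 := by
  have h2 := Γ.ss_Y y
  rw [Γ.cy_of ⟨h.1.le, h.2.le⟩] at h2
  have := Γ.curve_mem (Γ.ss y)
  rw [h2] at this
  exact this

lemma lo_le_hi {y : ℝ} (h : y ∈ Ioo Γ.y0 Γ.y1) : Γ.lo y ≤ Γ.hi y := Γ.lo_le h (Γ.hi_mem h)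

lemma slice_iff {x y : ℝ} (h : y ∈ Ioo Γ.y0 Γ.y1) :
    (x, y) ∈ Γ.body2 ↔ Γ.lo y ≤ x ∧ x ≤ Γ.hi y := by
  constructor
  · intro hm; exact ⟨Γ.lo_le h hm, Γ.le_hi h hm⟩
  · rintro ⟨h1, h2⟩ θ
    have h3 := Γ.hi_mem h θ
    have h4 := Γ.lo_mem h θ
    simp only at h3 h4 ⊢
    rcases le_total 0 (cos θ) with hc | hc
    · nlinarith
    · nlinarith

lemma outside {x y : ℝ} (hm : (x, y) ∈ Γ.body2) : y ∈ Icc Γ.y0 Γ.y1 := by
  have h1 := hm (π / 2)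
  have h2 := hm (-(π / 2))
  simp only [Crv.h, cos_neg, sin_neg, cos_pi_div_two, sin_pi_div_two, mul_zero, mul_one,
    zero_add, mul_neg] at h1 h2
  exact ⟨by unfold y0; linarith, h1⟩

/-- sign function -/
def sg (x : ℝ) : ℝ := if 0 < x then 1 else -1

lemma sg_meas : Measurable sg :=
  Measurable.ite (measurableSet_lt measurable_const measurable_id) measurable_const measurable_const

lemma sg_bd (x : ℝ) : |sg x| ≤ 1 := by
  unfold sg; split_ifs <;> simp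

lemma int_sg_const {f : ℝ → ℝ} {a b c : ℝ} (hab : a ≤ b) {g : ℝ → ℝ}
    (h : ∀ r ∈ Ioo a b, g r = c * f r) : ∫ r in a..b, g r = c * ∫ r in a..b, f r := by
  rw [← intervalIntegral.integral_const_mul]
  apply intervalIntegral.integral_congr_ae
  have : ∀ᵐ r ∂(volume : Measure ℝ), r ≠ b := by
    simp [ae_iff, measure_singleton]
  filter_upwards [this] with r hr hr2
  rw [uIoc_of_le hab] at hr2
  exact h r ⟨hr2.1, lt_of_le_of_ne hr2.2 hr⟩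

lemma A_eq {y : ℝ} (h : y ∈ Ioo Γ.y0 Γ.y1) :
    Γ.hi y - Γ.lo y = (1 / 2) * ∫ r in (-(π / 2))..(3 * π / 2), sg (Γ.Y r - y) * (Γ.ρ r * sin r) := by
  have hpi := pi_pos
  set f : ℝ → ℝ := fun r => Γ.ρ r * sin r with hf
  have cf : Continuous f := by have := Γ.cont; fun_prop
  have ht := Γ.tt_Ioo h
  have hs := Γ.ss_Ioo h
  have hY : Γ.Y (Γ.tt y) = y := by rw [tt_Y, Γ.cy_of ⟨h.1.le, h.2.le⟩]
  have hY' : Γ.Y (Γ.ss y) = y := by rw [ss_Y, Γ.cy_of ⟨h.1.le, h.2.le⟩]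
  set t := Γ.tt y
  set s := Γ.ss y
  have FTC : ∀ a b, ∫ r in a..b, f r = -(Γ.X b - Γ.X a) := by
    intro a b
    have := integral_eq_sub_of_hasDerivAt (f := fun r => -Γ.X r) (f' := f) (a := a) (b := b)
      (fun r _ => by
        have h5 := (Γ.hX r).neg
        rw [neg_neg] at h5
        exact h5) (cf.intervalIntegrable _ _)
    rw [this]; ring
  have meas : Measurable (fun r => sg (Γ.Y r - y) * f r) :=
    (sg_meas.comp (Γ.contY.measurable.sub_const y)).mul cf.measurable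
  have integ : ∀ a b, IntervalIntegrable (fun r => sg (Γ.Y r - y) * f r) volume a b := by
    intro a b
    refine (cf.intervalIntegrable a b).mono_fun meas.aestronglyMeasurable
      (Eventually.of_forall fun r => ?_)
    beta_reduce
    rw [norm_mul, norm_eq_abs, norm_eq_abs]
    calc _ ≤ 1 * |f r| := mul_le_mul_of_nonneg_right (sg_bd _) (abs_nonneg _)
      _ = _ := one_mul _
  have i1 : ∫ r in (-(π / 2))..t, sg (Γ.Y r - y) * f r = (-1) * ∫ r in (-(π / 2))..t, f r := by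
    apply int_sg_const ht.1.le
    intro r hr
    have : Γ.Y r < Γ.Y t := Γ.Y_mono ⟨hr.1.le, by linarith [hr.2, ht.2]⟩ ⟨ht.1.le, ht.2.le⟩ hr.2
    rw [hY] at this
    unfold sg
    rw [if_neg (by linarith)]
  have i2 : ∫ r in t..s, sg (Γ.Y r - y) * f r = 1 * ∫ r in t..s, f r := by
    apply int_sg_const (by linarith [ht.2, hs.1])
    intro r hr
    have : y < Γ.Y r := by
      rcases le_total r (π / 2) with h1 | h1
      · rw [← hY]; exact Γ.Y_mono ⟨ht.1.le, ht.2.le⟩ ⟨by linarith [hr.1, ht.1], h1⟩ hr.1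
      · rw [← hY']; exact Γ.Y_anti ⟨h1, by linarith [hr.2, hs.2]⟩ ⟨hs.1.le, hs.2.le⟩ hr.2
    unfold sg
    rw [if_pos (by linarith)]
  have i3 : ∫ r in s..(3 * π / 2), sg (Γ.Y r - y) * f r = (-1) * ∫ r in s..(3 * π / 2), f r := by
    apply int_sg_const hs.2.le
    intro r hr
    have : Γ.Y r < Γ.Y s := Γ.Y_anti ⟨hs.1.le, hs.2.le⟩ ⟨by linarith [hr.1, hs.1], hr.2.le⟩ hr.1
    rw [hY'] at this
    unfold sg
    rw [if_neg (by linarith)]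
  rw [← intervalIntegral.integral_add_adjacent_intervals (b := t) (integ _ _) (integ _ _),
    ← intervalIntegral.integral_add_adjacent_intervals (a := t) (b := s) (integ _ _) (integ _ _),
    i1, i2, i3, FTC, FTC, FTC]
  have hX : Γ.X (3 * π / 2) = Γ.X (-(π / 2)) := by
    rw [show 3 * π / 2 = -(π / 2) + 2 * π by ring, Γ.perX]
  rw [hX]
  change Γ.X t - Γ.X s = _
  ring

end Crv

end Pool.Agent.Helper91
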