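import Pool.Agent.Helper91.RpO

open Real MeasureTheory Set Filter Topology intervalIntegral

noncomputable section

namespace Pool.Agent.Helper91

lemma swap_meas {h : ℝ → ℝ → ℝ} {a b c d K : ℝ} (hab : a ≤ b) (hcd : c ≤ d)
    (hm : Measurable (Function.uncurry h))
    (hb : ∀ x ∈ Ioc a b, ∀ y ∈ Ioc c d, |h x y| ≤ K) :
    ∫ x in a..b, ∫ y in c..d, h x y = ∫ y in c..d, ∫ x in a..b, h x y := by
  simp only [intervalIntegral.integral_of_le hab, intervalIntegral.integral_of_le hcd]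
  apply integral_integral_swap
  have hprod : (volume.restrict (Ioc a b)).prod (volume.restrict (Ioc c d))
      = (volume : Measure (ℝ × ℝ)).restrict (Ioc a b ×ˢ Ioc c d) := by
    rw [Measure.prod_restrict]; rfl
  rw [hprod]
  have hfin : (volume : Measure (ℝ × ℝ)) (Ioc a b ×ˢ Ioc c d) < ⊤ := by
    rw [Measure.volume_eq_prod, Measure.prod_prod]
    exact ENNReal.mul_lt_top (by simp) (by simp)
  have : IsFiniteMeasure ((volume : Measure (ℝ × ℝ)).restrict (Ioc a b ×ˢ Ioc c d)) :=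
    ⟨by rw [Measure.restrict_apply_univ]; exact hfin⟩
  refine Integrable.of_bound ?_ K ?_
  · exact hm.aestronglyMeasurable
  · refine (ae_restrict_iff' (measurableSet_Ioc.prod measurableSet_Ioc)).2
      (Eventually.of_forall fun z hz => ?_)
    exact hb z.1 hz.1 z.2 hz.2

/-- radial function in the plane -/
def rad2 (K : Set (ℝ × ℝ)) (z u : ℝ × ℝ) : ℝ := sSup {l : ℝ | 0 ≤ l ∧ z + l • u ∈ K}

namespace Crv
variable (Γ : Crv)

def SS2 : Set (ℝ × ℝ) := {z | z.2 ∈ Ioo Γ.y0 Γ.y1 ∧ Γ.lo z.2 ≤ z.1 ∧ z.1 ≤ Γ.hi z.2}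

lemma SS2_meas : MeasurableSet Γ.SS2 := by
  have h1 := Γ.lo_meas
  have h2 := Γ.hi_meas
  refine (measurableSet_Ioo.preimage measurable_snd).inter ?_
  exact (measurableSet_le (h1.comp measurable_snd) measurable_fst).inter
    (measurableSet_le measurable_fst (h2.comp measurable_snd))

lemma SS2_sub : Γ.SS2 ⊆ Γ.body2 := fun z hz => (Γ.slice_iff hz.1).2 hz.2

lemma ae_eq : Γ.body2 =ᵐ[volume] Γ.SS2 := by
  have h1 : Γ.body2 \ Γ.SS2 ⊆ (univ ×ˢ {Γ.y0}) ∪ (univ ×ˢ {Γ.y1}) := by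
    rintro ⟨x, y⟩ ⟨hb, hS⟩
    have h2 := Γ.outside hb
    by_contra hc
    simp only [mem_union, mem_prod, mem_univ, mem_singleton_iff, true_and, not_or] at hc
    have h3 : y ∈ Ioo Γ.y0 Γ.y1 :=
      ⟨lt_of_le_of_ne h2.1 (Ne.symm hc.1), lt_of_le_of_ne h2.2 hc.2⟩
    exact hS ⟨h3, (Γ.slice_iff h3).1 hb⟩
  have h4 : (volume : Measure (ℝ × ℝ)) (Γ.body2 \ Γ.SS2) = 0 := by
    refine measure_mono_null h1 ?_
    rw [measure_union_null_iff]
    constructor
    · rw [Measure.volume_eq_prod, Measure.prod_prod]; simp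
    · rw [Measure.volume_eq_prod, Measure.prod_prod]; simp
  rw [ae_eq_set]
  refine ⟨h4, ?_⟩
  rw [sdiff_eq_empty.2 Γ.SS2_sub]; simp

lemma X_bd : ∃ M, ∀ x ∈ Icc (-(π / 2)) (3 * π / 2), |Γ.X x| ≤ M := by
  obtain ⟨M, hM⟩ := isCompact_Icc.exists_bound_of_continuousOn (Γ.contX.continuousOn
    (s := Icc (-(π / 2)) (3 * π / 2)))
  exact ⟨M, hM⟩

lemma hilo_bd : ∃ M, ∀ y, |Γ.hi y| ≤ M ∧ |Γ.lo y| ≤ M := by
  obtain ⟨M, hM⟩ := Γ.X_bd
  refine ⟨M, fun y => ⟨hM _ ?_, hM _ ?_⟩⟩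
  · have := Γ.tt_mem y
    exact ⟨this.1, by linarith [this.2, pi_pos]⟩
  · have := Γ.ss_mem y
    exact ⟨by linarith [this.1, pi_pos], this.2⟩

lemma SS2_box : ∃ M, Γ.SS2 ⊆ Icc (-M) M ×ˢ Icc Γ.y0 Γ.y1 := by
  obtain ⟨M, hM⟩ := Γ.hilo_bd
  refine ⟨M, fun z hz => ⟨⟨?_, ?_⟩, hz.1.1.le, hz.1.2.le⟩⟩
  · have := (abs_le.1 (hM z.2).2).1
    linarith [hz.2.1]
  · have := (abs_le.1 (hM z.2).1).2
    linarith [hz.2.2]

lemma SS2_fin : (volume : Measure (ℝ × ℝ)) Γ.SS2 < ⊤ := by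
  obtain ⟨M, hM⟩ := Γ.SS2_box
  refine lt_of_le_of_lt (measure_mono hM) ?_
  rw [Measure.volume_eq_prod, Measure.prod_prod]
  exact ENNReal.mul_lt_top (by simp) (by simp)

lemma int_SS2 {g : ℝ × ℝ → ℝ} (hg : Measurable g) {C : ℝ} (hb : ∀ z ∈ Γ.SS2, |g z| ≤ C) :
    ∫ z in Γ.SS2, g z = ∫ y in Γ.y0..Γ.y1, ∫ x in (Γ.lo y)..(Γ.hi y), g (x, y) := by
  have hint : IntegrableOn g Γ.SS2 volume := by
    refine Measure.integrableOn_of_bounded (M := C) Γ.SS2_fin.ne hg.aestronglyMeasurable ?_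
    refine (ae_restrict_iff' Γ.SS2_meas).2 (Eventually.of_forall fun z hz => ?_)
    exact hb z hz
  rw [← MeasureTheory.integral_indicator Γ.SS2_meas, Measure.volume_eq_prod, integral_prod_symm]
  · have e1 : ∀ y, ∫ x, Γ.SS2.indicator g (x, y)
        = (Ioo Γ.y0 Γ.y1).indicator (fun y => ∫ x in (Γ.lo y)..(Γ.hi y), g (x, y)) y := by
      intro y
      by_cases hy : y ∈ Ioo Γ.y0 Γ.y1
      · rw [indicator_of_mem hy, intervalIntegral.integral_of_le (Γ.lo_le_hi hy),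
          ← integral_Icc_eq_integral_Ioc, ← MeasureTheory.integral_indicator measurableSet_Icc]
        congr 1; ext x
        by_cases hx : x ∈ Icc (Γ.lo y) (Γ.hi y)
        · rw [indicator_of_mem hx, indicator_of_mem (show (x, y) ∈ Γ.SS2 from ⟨hy, hx.1, hx.2⟩)]
        · rw [indicator_of_notMem hx, indicator_of_notMem]
          intro h; exact hx ⟨h.2.1, h.2.2⟩
      · rw [indicator_of_notMem hy]
        have : ∀ x, Γ.SS2.indicator g (x, y) = 0 := fun x => by
          rw [indicator_of_notMem]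
          intro h; exact hy h.1
        simp only [this, integral_zero]
    simp only [e1]
    rw [MeasureTheory.integral_indicator measurableSet_Ioo, intervalIntegral.integral_of_le Γ.y01.le,
      integral_Ioc_eq_integral_Ioo]
  · have := (integrable_indicator_iff Γ.SS2_meas).2 hint
    exact this

lemma vol_body2 : (volume : Measure (ℝ × ℝ)).real Γ.body2 = ∫ y in Γ.y0..Γ.y1, (Γ.hi y - Γ.lo y) := by
  have h1 : (volume : Measure (ℝ × ℝ)).real Γ.body2 = (volume : Measure (ℝ × ℝ)).real Γ.SS2 := by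
    unfold Measure.real
    rw [measure_congr Γ.ae_eq]
  rw [h1]
  have h2 := Γ.int_SS2 (g := fun _ => 1) measurable_const (C := 1) (by simp)
  simp only [intervalIntegral.integral_const, smul_eq_mul, mul_one] at h2
  rw [← h2]
  simp

lemma rad_eq {z : ℝ × ℝ} (hz : z ∈ Γ.SS2) : rad2 Γ.body2 z (1, 0) = Γ.hi z.2 - z.1 := by
  unfold rad2
  have : {l : ℝ | 0 ≤ l ∧ z + l • ((1 : ℝ), (0 : ℝ)) ∈ Γ.body2} = Icc 0 (Γ.hi z.2 - z.1) := by
    ext l
    have e : z + l • ((1 : ℝ), (0 : ℝ)) = (z.1 + l, z.2) := by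
      ext <;> simp
    simp only [mem_ofPred_eq, e, mem_Icc, Γ.slice_iff hz.1]
    constructor
    · rintro ⟨h1, h2, h3⟩; exact ⟨h1, by linarith⟩
    · rintro ⟨h1, h2⟩; exact ⟨h1, by linarith [hz.2.1], by linarith⟩
  rw [this, csSup_Icc (by linarith [hz.2.2])]

lemma int_rad : ∫ z in Γ.body2, rad2 Γ.body2 z (1, 0)
    = (1 / 2) * ∫ y in Γ.y0..Γ.y1, (Γ.hi y - Γ.lo y) ^ 2 := by
  obtain ⟨M, hM⟩ := Γ.hilo_bd
  rw [setIntegral_congr_set Γ.ae_eq, setIntegral_congr_fun Γ.SS2_meas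
    (fun z hz => Γ.rad_eq hz (z := z))]
  rw [Γ.int_SS2 (g := fun z => Γ.hi z.2 - z.1)
    ((Γ.hi_meas.comp measurable_snd).sub measurable_fst) (C := 2 * M)]
  · rw [← intervalIntegral.integral_const_mul]
    congr 1; ext y
    simp only
    rw [intervalIntegral.integral_sub (by simp) (by simp), intervalIntegral.integral_const, integral_id,
      smul_eq_mul]
    ring
  · intro z hz
    have h1 := abs_le.1 (hM z.2).1
    have h2 := abs_le.1 (hM z.2).2
    rw [abs_le]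
    constructor <;> linarith [hz.2.1, hz.2.2]

/-! ### sign integrals -/

lemma sg_meas2 (Γ : Crv) : Measurable (fun z : ℝ × ℝ => sg (Γ.Y z.1 - z.2)) :=
  sg_meas.comp ((Γ.contY.measurable.comp measurable_fst).sub measurable_snd)

lemma int_sg {a m M : ℝ} (h1 : m ≤ a) (h2 : a ≤ M) : ∫ y in m..M, sg (a - y) = 2 * a - m - M := by
  have hm : Measurable (fun y => sg (a - y)) := sg_meas.comp (measurable_const.sub measurable_id)
  have integ : ∀ p q, IntervalIntegrable (fun y => sg (a - y)) volume p q := fun p q =>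
    (continuous_const (y := (1 : ℝ))).intervalIntegrable p q |>.mono_fun hm.aestronglyMeasurable
      (Eventually.of_forall fun y => by simpa using sg_bd (a - y))
  rw [← intervalIntegral.integral_add_adjacent_intervals (b := a) (integ _ _) (integ _ _),
    int_sg_const (f := fun _ => 1) (c := 1) h1 (fun r hr => by
      unfold sg; rw [if_pos (by linarith [hr.2])]; ring),
    int_sg_const (f := fun _ => 1) (c := -1) h2 (fun r hr => by
      unfold sg; rw [if_neg (by linarith [hr.1])]; ring)]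
  simp; ring

lemma int_sg2 {a b m M : ℝ} (h1 : m ≤ a) (h2 : a ≤ M) (h3 : m ≤ b) (h4 : b ≤ M) :
    ∫ y in m..M, sg (a - y) * sg (b - y) = (M - m) - 2 * |a - b| := by
  wlog hab : a ≤ b generalizing a b
  · have := this h3 h4 h1 h2 (le_of_not_ge hab)
    rw [abs_sub_comm, ← this]
    congr 1; ext y; ring
  have hm : Measurable (fun y => sg (a - y) * sg (b - y)) :=
    (sg_meas.comp (measurable_const.sub measurable_id)).mul
      (sg_meas.comp (measurable_const.sub measurable_id))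
  have integ : ∀ p q, IntervalIntegrable (fun y => sg (a - y) * sg (b - y)) volume p q := fun p q =>
    (continuous_const (y := (1 : ℝ))).intervalIntegrable p q |>.mono_fun hm.aestronglyMeasurable
      (Eventually.of_forall fun y => by
        beta_reduce
        rw [norm_mul, norm_one]
        exact mul_le_one₀ (by simpa using sg_bd (a - y)) (norm_nonneg _) (by simpa using sg_bd (b - y)))
  rw [← intervalIntegral.integral_add_adjacent_intervals (b := a) (integ _ _) (integ _ _),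
    ← intervalIntegral.integral_add_adjacent_intervals (a := a) (b := b) (integ _ _) (integ _ _),
    int_sg_const (f := fun _ => 1) (c := 1) h1 (fun r hr => by
      unfold sg; rw [if_pos (by linarith [hr.2]), if_pos (by linarith [hr.2])]),
    int_sg_const (f := fun _ => 1) (c := -1) hab (fun r hr => by
      unfold sg; rw [if_neg (by linarith [hr.1]), if_pos (by linarith [hr.2])]),
    int_sg_const (f := fun _ => 1) (c := 1) h4 (fun r hr => by
      unfold sg; rw [if_neg (by linarith [hr.1]), if_neg (by linarith [hr.1])]; norm_num)]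
  rw [abs_of_nonpos (by linarith)]
  simp; ring

lemma Y_mem {r : ℝ} (h : r ∈ Icc (-(π / 2)) (3 * π / 2)) : Γ.y0 ≤ Γ.Y r ∧ Γ.Y r ≤ Γ.y1 := by
  have := Γ.outside (Γ.curve_mem r)
  exact this

/-- the coordinate function `ρ sin` -/
def fs (r : ℝ) : ℝ := Γ.ρ r * sin r

lemma fs_cont : Continuous Γ.fs := by
  have := Γ.cont
  unfold fs; fun_prop

lemma fs_int0 : ∫ r in (-(π / 2))..(3 * π / 2), Γ.fs r = 0 := by
  have := integral_eq_sub_of_hasDerivAt (f := fun r => -Γ.X r) (f' := Γ.fs) (a := -(π / 2))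
    (b := 3 * π / 2)
      (fun r _ => by
        have h5 := (Γ.hX r).neg
        rw [neg_neg] at h5
        exact h5) (Γ.fs_cont.intervalIntegrable _ _)
  rw [this, show 3 * π / 2 = -(π / 2) + 2 * π by ring, Γ.perX]; ring

lemma fs_bd : ∃ M, ∀ r ∈ Icc (-(π / 2)) (3 * π / 2), |Γ.fs r| ≤ M := by
  obtain ⟨M, hM⟩ := isCompact_Icc.exists_bound_of_continuousOn (Γ.fs_cont.continuousOn
    (s := Icc (-(π / 2)) (3 * π / 2)))
  exact ⟨M, hM⟩

lemma congr_Ioo {a b : ℝ} (hab : a ≤ b) {f g : ℝ → ℝ} (h : ∀ r ∈ Ioo a b, f r = g r) :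
    ∫ r in a..b, f r = ∫ r in a..b, g r := by
  have := int_sg_const (c := 1) (f := g) hab (g := f) (fun r hr => by rw [h r hr, one_mul])
  rw [this, one_mul]

/-- the area as a line integral -/
theorem vol_formula : (volume : Measure (ℝ × ℝ)).real Γ.body2
    = ∫ r in (-(π / 2))..(3 * π / 2), Γ.fs r * Γ.Y r := by
  have hpi := pi_pos
  have hab : -(π / 2) ≤ 3 * π / 2 := by linarith
  obtain ⟨M, hM⟩ := Γ.fs_bd
  rw [vol_body2]
  have e1 : ∫ y in Γ.y0..Γ.y1, (Γ.hi y - Γ.lo y)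
      = ∫ y in Γ.y0..Γ.y1, (1 / 2) * ∫ r in (-(π / 2))..(3 * π / 2), sg (Γ.Y r - y) * Γ.fs r :=
    congr_Ioo Γ.y01.le fun y hy => Γ.A_eq hy
  rw [e1, intervalIntegral.integral_const_mul,
    swap_meas (h := fun y r => sg (Γ.Y r - y) * Γ.fs r) (K := M) Γ.y01.le hab]
  · have e2 : ∫ r in (-(π / 2))..(3 * π / 2), ∫ y in Γ.y0..Γ.y1, sg (Γ.Y r - y) * Γ.fs r
        = ∫ r in (-(π / 2))..(3 * π / 2), (2 * (Γ.fs r * Γ.Y r) - (Γ.y0 + Γ.y1) * Γ.fs r) := by
      apply congr_Ioo hab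
      intro r hr
      have hY := Γ.Y_mem (r := r) ⟨hr.1.le, hr.2.le⟩
      rw [intervalIntegral.integral_mul_const, int_sg hY.1 hY.2]; ring
    have c1 := Γ.fs_cont
    have c2 := Γ.contY
    rw [e2, intervalIntegral.integral_sub
      ((by fun_prop : Continuous fun r => 2 * (Γ.fs r * Γ.Y r)).intervalIntegrable _ _)
      ((by fun_prop : Continuous fun r => (Γ.y0 + Γ.y1) * Γ.fs r).intervalIntegrable _ _),
      intervalIntegral.integral_const_mul, intervalIntegral.integral_const_mul, fs_int0]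
    ring
  · have h1 : Measurable (fun z : ℝ × ℝ => sg (Γ.Y z.2 - z.1)) := Γ.sg_meas2.comp measurable_swap
    exact h1.mul (Γ.fs_cont.measurable.comp measurable_snd)
  · intro y _ r hr
    rw [abs_mul]
    have h2 := hM r ⟨hr.1.le, hr.2⟩
    calc _ ≤ 1 * |Γ.fs r| := mul_le_mul_of_nonneg_right (sg_bd _) (abs_nonneg _)
      _ ≤ M := by rw [one_mul]; exact h2

theorem F_formula : ∫ y in Γ.y0..Γ.y1, (Γ.hi y - Γ.lo y) ^ 2
    = -(1 / 2) * ∫ t in (-(π / 2))..(3 * π / 2), ∫ s in (-(π / 2))..(3 * π / 2),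
      Γ.fs s * Γ.fs t * |Γ.Y s - Γ.Y t| := by
  have hpi := pi_pos
  have hab : -(π / 2) ≤ 3 * π / 2 := by linarith
  obtain ⟨M, hM⟩ := Γ.fs_bd
  obtain ⟨N, hN⟩ := Γ.hilo_bd
  have hM0 : 0 ≤ M := (abs_nonneg _).trans (hM 0 ⟨by linarith, by linarith⟩)
  have hN0 : 0 ≤ N := (abs_nonneg _).trans (hN 0).1
  have c1 := Γ.fs_cont
  have c2 := Γ.contY
  set A : ℝ → ℝ := fun y => Γ.hi y - Γ.lo y with hA
  have mA : Measurable A := Γ.hi_meas.sub Γ.lo_meas
  have bA : ∀ y, |A y| ≤ 2 * N := fun y => by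
    have h1 := abs_le.1 (hN y).1
    have h2 := abs_le.1 (hN y).2
    simp only [hA]
    rw [abs_le]; constructor <;> linarith
  have Aeq : ∀ y ∈ Ioo Γ.y0 Γ.y1,
      A y = (1 / 2) * ∫ r in (-(π / 2))..(3 * π / 2), sg (Γ.Y r - y) * Γ.fs r := fun y hy => Γ.A_eq hy
  have e1 : ∫ y in Γ.y0..Γ.y1, A y ^ 2
      = ∫ y in Γ.y0..Γ.y1, (1 / 2) * ∫ r in (-(π / 2))..(3 * π / 2), A y * (sg (Γ.Y r - y) * Γ.fs r) :=
    congr_Ioo Γ.y01.le fun y hy => by
      rw [intervalIntegral.integral_const_mul]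
      rw [sq]; nth_rewrite 2 [Aeq y hy]; ring
  have e2 : ∀ r ∈ Ioo (-(π / 2)) (3 * π / 2), ∫ y in Γ.y0..Γ.y1, A y * sg (Γ.Y r - y)
      = (1 / 2) * ∫ s in (-(π / 2))..(3 * π / 2), Γ.fs s * ((Γ.y1 - Γ.y0) - 2 * |Γ.Y s - Γ.Y r|) := by
    intro r hr
    have hYr := Γ.Y_mem (r := r) ⟨hr.1.le, hr.2.le⟩
    have e3 : ∫ y in Γ.y0..Γ.y1, A y * sg (Γ.Y r - y)
        = ∫ y in Γ.y0..Γ.y1, (1 / 2) * ∫ s in (-(π / 2))..(3 * π / 2),
          sg (Γ.Y s - y) * Γ.fs s * sg (Γ.Y r - y) :=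
      congr_Ioo Γ.y01.le fun y hy => by
        rw [intervalIntegral.integral_mul_const, Aeq y hy]; ring
    rw [e3, intervalIntegral.integral_const_mul,
      swap_meas (h := fun y s => sg (Γ.Y s - y) * Γ.fs s * sg (Γ.Y r - y)) (K := M) Γ.y01.le hab]
    · congr 1
      apply congr_Ioo hab
      intro s hs
      have hYs := Γ.Y_mem (r := s) ⟨hs.1.le, hs.2.le⟩
      have := int_sg2 hYs.1 hYs.2 hYr.1 hYr.2
      rw [← this, ← intervalIntegral.integral_const_mul]
      congr 1; ext y; ring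
    · have h1 : Measurable (fun z : ℝ × ℝ => sg (Γ.Y z.2 - z.1)) := Γ.sg_meas2.comp measurable_swap
      have h2 : Measurable (fun z : ℝ × ℝ => sg (Γ.Y r - z.1)) :=
        sg_meas.comp (measurable_const.sub measurable_fst)
      exact (h1.mul (Γ.fs_cont.measurable.comp measurable_snd)).mul h2
    · intro y _ s hs
      rw [abs_mul, abs_mul]
      have h2 := hM s ⟨hs.1.le, hs.2⟩
      calc _ ≤ 1 * |Γ.fs s| * 1 := by gcongr; exact sg_bd _; exact sg_bd _
        _ ≤ M := by rw [one_mul, mul_one]; exact h2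
  rw [e1, intervalIntegral.integral_const_mul,
    swap_meas (h := fun y r => A y * (sg (Γ.Y r - y) * Γ.fs r)) (K := 2 * N * M) Γ.y01.le hab]
  · have e4 : ∫ r in (-(π / 2))..(3 * π / 2), ∫ y in Γ.y0..Γ.y1, A y * (sg (Γ.Y r - y) * Γ.fs r)
        = ∫ r in (-(π / 2))..(3 * π / 2), -∫ s in (-(π / 2))..(3 * π / 2),
          Γ.fs s * Γ.fs r * |Γ.Y s - Γ.Y r| := by
      apply congr_Ioo hab
      intro r hr
      have e5 : ∫ y in Γ.y0..Γ.y1, A y * (sg (Γ.Y r - y) * Γ.fs r)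
          = (∫ y in Γ.y0..Γ.y1, A y * sg (Γ.Y r - y)) * Γ.fs r := by
        rw [← intervalIntegral.integral_mul_const]
        congr 1; ext y; ring
      rw [e5, e2 r hr]
      have e6 : ∫ s in (-(π / 2))..(3 * π / 2), Γ.fs s * ((Γ.y1 - Γ.y0) - 2 * |Γ.Y s - Γ.Y r|)
          = (Γ.y1 - Γ.y0) * (∫ s in (-(π / 2))..(3 * π / 2), Γ.fs s)
            - 2 * ∫ s in (-(π / 2))..(3 * π / 2), Γ.fs s * |Γ.Y s - Γ.Y r| := by
        rw [← intervalIntegral.integral_const_mul, ← intervalIntegral.integral_const_mul,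
          ← intervalIntegral.integral_sub
          ((by fun_prop : Continuous fun s => (Γ.y1 - Γ.y0) * Γ.fs s).intervalIntegrable _ _)
          ((by fun_prop : Continuous fun s => 2 * (Γ.fs s * |Γ.Y s - Γ.Y r|)).intervalIntegrable _ _)]
        congr 1; ext s; ring
      have e7 : ∫ s in (-(π / 2))..(3 * π / 2), Γ.fs s * Γ.fs r * |Γ.Y s - Γ.Y r|
          = (∫ s in (-(π / 2))..(3 * π / 2), Γ.fs s * |Γ.Y s - Γ.Y r|) * Γ.fs r := by
        rw [← intervalIntegral.integral_mul_const]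
        congr 1; ext s; ring
      rw [e6, e7, fs_int0]; ring
    rw [e4, intervalIntegral.integral_neg]; ring
  · have h1 : Measurable (fun z : ℝ × ℝ => sg (Γ.Y z.2 - z.1)) := Γ.sg_meas2.comp measurable_swap
    exact (mA.comp measurable_fst).mul (h1.mul (Γ.fs_cont.measurable.comp measurable_snd))
  · intro y _ r hr
    rw [abs_mul, abs_mul]
    have h2 := hM r ⟨hr.1.le, hr.2⟩
    calc _ ≤ 2 * N * (1 * M) := by gcongr; exact bA y; exact sg_bd _
      _ = _ := by ring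

lemma abs_deriv (x : ℝ) : HasDerivAt (fun x : ℝ => x * |x| / 2) |x| x := by
  have hc : Continuous fun y : ℝ => |y| := continuous_abs
  have h1 := intervalIntegral.integral_hasDerivAt_right (hc.intervalIntegrable 0 x)
    (hc.stronglyMeasurableAtFilter _ _) hc.continuousAt
  refine h1.congr_of_eventuallyEq (Eventually.of_forall fun u => ?_)
  simp only
  rcases le_total 0 u with h | h
  · have : ∫ y in 0..u, |y| = ∫ y in 0..u, y := by
      apply intervalIntegral.integral_congr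
      intro y hy
      rw [uIcc_of_le h] at hy
      exact abs_of_nonneg hy.1
    rw [this, integral_id, abs_of_nonneg h]; ring
  · have : ∫ y in 0..u, |y| = ∫ y in 0..u, -y := by
      apply intervalIntegral.integral_congr
      intro y hy
      rw [uIcc_of_ge h] at hy
      exact abs_of_nonpos hy.2
    rw [this, intervalIntegral.integral_neg, integral_id, abs_of_nonpos h]; ring

lemma cosint0 (t : ℝ) : ∫ s in (-(π / 2))..(3 * π / 2), Γ.ρ s * cos s * |Γ.Y s - Γ.Y t| = 0 := by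
  have c1 := Γ.cont
  have c2 := Γ.contY
  have := integral_eq_sub_of_hasDerivAt (f := fun s => (Γ.Y s - Γ.Y t) * |Γ.Y s - Γ.Y t| / 2)
    (f' := fun s => Γ.ρ s * cos s * |Γ.Y s - Γ.Y t|) (a := -(π / 2)) (b := 3 * π / 2)
    (fun s _ => by
      have h1 := (abs_deriv (Γ.Y s - Γ.Y t)).comp s ((Γ.hY s).sub_const (Γ.Y t))
      refine h1.congr_deriv ?_
      ring)
    ((by fun_prop : Continuous fun s => Γ.ρ s * cos s * |Γ.Y s - Γ.Y t|).intervalIntegrable _ _)
  rw [this, show 3 * π / 2 = -(π / 2) + 2 * π by ring, Γ.perY]; ring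

theorem F_formula2 : ∫ y in Γ.y0..Γ.y1, (Γ.hi y - Γ.lo y) ^ 2
    = -(1 / 2) * ∫ t in 0..(2 * π), ∫ s in 0..(2 * π), Γ.kk 0 s t := by
  have c1 := Γ.cont
  have c2 := Γ.contY
  rw [F_formula]
  congr 1
  have hy : ∀ s, Γ.yc 0 s = Γ.Y s := fun s => by simp [yc]
  have e0 : ∀ t, ∫ s in (-(π / 2))..(3 * π / 2), Γ.kk 0 s t
      = ∫ s in (-(π / 2))..(3 * π / 2), Γ.fs s * Γ.fs t * |Γ.Y s - Γ.Y t| := by
    intro t
    have e1 : ∀ s, Γ.kk 0 s t = Γ.fs s * Γ.fs t * |Γ.Y s - Γ.Y t|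
        + Γ.ρ t * cos t * (Γ.ρ s * cos s * |Γ.Y s - Γ.Y t|) := by
      intro s
      unfold kk fs
      rw [hy, hy, cos_sub]; ring
    simp only [e1]
    have c3 := Γ.fs_cont
    rw [intervalIntegral.integral_add
      ((by fun_prop : Continuous fun s => Γ.fs s * Γ.fs t * |Γ.Y s - Γ.Y t|).intervalIntegrable _ _)
      ((by fun_prop : Continuous fun s =>
        Γ.ρ t * cos t * (Γ.ρ s * cos s * |Γ.Y s - Γ.Y t|)).intervalIntegrable _ _),
      intervalIntegral.integral_const_mul, cosint0]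
    ring
  simp only [← e0]
  have per_s : ∀ t, Function.Periodic (fun s => Γ.kk 0 s t) (2 * π) := fun t s => by
    simp only [kk, hy]
    rw [Γ.per, Γ.perY, show s + 2 * π - t = s - t + 2 * π by ring, cos_add_two_pi]
  have per_t : Function.Periodic (fun t => ∫ s in 0..(2 * π), Γ.kk 0 s t) (2 * π) := fun t => by
    simp only [kk, hy]
    congr 1; ext s
    rw [Γ.per, Γ.perY, show s - (t + 2 * π) = s - t - 2 * π by ring, cos_sub_two_pi]
  have e2 : ∀ t, ∫ s in (-(π / 2))..(3 * π / 2), Γ.kk 0 s t = ∫ s in 0..(2 * π), Γ.kk 0 s t := by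
    intro t
    have := (per_s t).intervalIntegral_add_eq (-(π / 2)) 0
    rw [zero_add] at this
    rw [← this]
    congr 1; ring
  simp only [e2]
  have := per_t.intervalIntegral_add_eq (-(π / 2)) 0
  rw [zero_add] at this
  rw [← this]
  congr 1; ring

end Crv

end Pool.Agent.Helper91
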