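import Pool.Agent.Helper91.RpP
import Pool.Agent.Helper91.RpDef

open Real MeasureTheory Set Filter Topology intervalIntegral

noncomputable section

namespace Pool.Agent.Helper91

abbrev E2 := EuclideanSpace ℝ (Fin 2)

/-! ### rotation in the plane -/

def Tm (α : ℝ) (w : E2) : ℝ × ℝ :=
  (w 0 * cos α + w 1 * sin α, -(w 0 * sin α) + w 1 * cos α)

lemma Tm_eq (α : ℝ) : Tm α = Complex.measurableEquivRealProd ∘ (rotation (Circle.exp (-α)))
    ∘ Complex.orthonormalBasisOneI.repr.symm := by
  ext w
  · simp only [Function.comp, Complex.orthonormalBasisOneI_repr_symm_apply,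
      Complex.measurableEquivRealProd_apply, rotation_apply, Tm, Circle.coe_exp]
    simp [Complex.exp_re, Complex.exp_im]
    ring
  · simp only [Function.comp, Complex.orthonormalBasisOneI_repr_symm_apply,
      Complex.measurableEquivRealProd_apply, rotation_apply, Tm, Circle.coe_exp]
    simp [Complex.exp_re, Complex.exp_im]
    ring

lemma Tm_mp (α : ℝ) : MeasurePreserving (Tm α) volume volume := by
  rw [Tm_eq]
  exact Complex.volume_preserving_equiv_real_prod.comp
    ((rotation (Circle.exp (-α))).measurePreserving.comp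
      Complex.orthonormalBasisOneI.measurePreserving_repr_symm)

lemma Tm_emb (α : ℝ) : MeasurableEmbedding (Tm α) := by
  rw [Tm_eq]
  exact Complex.measurableEquivRealProd.measurableEmbedding.comp
    ((rotation (Circle.exp (-α))).toHomeomorph.measurableEmbedding.comp
      Complex.orthonormalBasisOneI.repr.symm.toHomeomorph.measurableEmbedding)

namespace Crv
variable (Γ : Crv)

/-- rotated curve -/
def rot (α : ℝ) : Crv where
  ρ θ := Γ.ρ (θ + α)
  X θ := Γ.X (θ + α) * cos α + Γ.Y (θ + α) * sin α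
  Y θ := -(Γ.X (θ + α) * sin α) + Γ.Y (θ + α) * cos α
  cont := Γ.cont.comp (by fun_prop)
  pos x := Γ.pos _
  per x := by rw [show x + 2 * π + α = x + α + 2 * π by ring, Γ.per]
  hX x := by
    have h1 := (((Γ.hX (x + α)).comp_add_const x α).mul_const (cos α)).add
      (((Γ.hY (x + α)).comp_add_const x α).mul_const (sin α))
    refine h1.congr_deriv ?_
    rw [sin_add, cos_add]
    linear_combination (-Γ.ρ (x + α) * sin x) * (sin_sq_add_cos_sq α)
  hY x := by
    have h1 := (((Γ.hX (x + α)).comp_add_const x α).mul_const (sin α)).neg.add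
      (((Γ.hY (x + α)).comp_add_const x α).mul_const (cos α))
    refine h1.congr_deriv ?_
    rw [sin_add, cos_add]
    linear_combination (Γ.ρ (x + α) * cos x) * (sin_sq_add_cos_sq α)
  perX x := by rw [show x + 2 * π + α = x + α + 2 * π by ring, Γ.perX, Γ.perY]
  perY x := by rw [show x + 2 * π + α = x + α + 2 * π by ring, Γ.perX, Γ.perY]

/-- circle -/
def disc (r : ℝ) (hr : 0 < r) : Crv where
  ρ _ := r
  X θ := r * cos θ
  Y θ := r * sin θ
  cont := continuous_const
  pos _ := hr
  per _ := rfl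
  hX x := ((hasDerivAt_cos x).const_mul r).congr_deriv (by ring)
  hY x := ((hasDerivAt_sin x).const_mul r)
  perX x := by rw [cos_add_two_pi]
  perY x := by rw [sin_add_two_pi]

/-- the closed curve with given radius of curvature -/
def ofRho (ρ : ℝ → ℝ) (hc : Continuous ρ) (hp : ∀ x, 0 < ρ x) (hper : ∀ x, ρ (x + 2 * π) = ρ x)
    (h1 : ∫ x in 0..(2 * π), ρ x * sin x = 0) (h2 : ∫ x in 0..(2 * π), ρ x * cos x = 0) : Crv where
  ρ := ρ
  X x := -∫ y in 0..x, ρ y * sin y
  Y x := ∫ y in 0..x, ρ y * cos y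
  cont := hc
  pos := hp
  per := hper
  hX x := by
    have hcc : Continuous fun y : ℝ => ρ y * sin y := by fun_prop
    exact (intervalIntegral.integral_hasDerivAt_right (hcc.intervalIntegrable _ _)
      (hcc.stronglyMeasurableAtFilter _ _) hcc.continuousAt).neg
  hY x := by
    have hcc : Continuous fun y : ℝ => ρ y * cos y := by fun_prop
    exact (intervalIntegral.integral_hasDerivAt_right (hcc.intervalIntegrable _ _)
      (hcc.stronglyMeasurableAtFilter _ _) hcc.continuousAt)
  perX x := by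
    have hcc : Continuous fun y : ℝ => ρ y * sin y := by fun_prop
    have hP : Function.Periodic (fun y => ρ y * sin y) (2 * π) := fun y => by
      simp only; rw [hper, sin_add_two_pi]
    rw [← intervalIntegral.integral_add_adjacent_intervals (b := x) (hcc.intervalIntegrable _ _)
      (hcc.intervalIntegrable _ _), hP.intervalIntegral_add_eq x 0, zero_add, h1, add_zero]
  perY x := by
    have hcc : Continuous fun y : ℝ => ρ y * cos y := by fun_prop
    have hP : Function.Periodic (fun y => ρ y * cos y) (2 * π) := fun y => by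
      simp only; rw [hper, cos_add_two_pi]
    rw [← intervalIntegral.integral_add_adjacent_intervals (b := x) (hcc.intervalIntegrable _ _)
      (hcc.intervalIntegrable _ _), hP.intervalIntegral_add_eq x 0, zero_add, h2, add_zero]

/-- the body in the Euclidean plane -/
def bodyE : Set E2 := {w | ∀ θ, w 0 * cos θ + w 1 * sin θ ≤ Γ.h θ}

lemma rot_h (α θ : ℝ) : (Γ.rot α).h θ = Γ.h (θ + α) := by
  unfold h rot
  simp only
  rw [cos_add, sin_add]; ring

lemma body_pre (α : ℝ) : Tm α ⁻¹' (Γ.rot α).body2 = Γ.bodyE := by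
  ext w
  simp only [mem_preimage, body2, bodyE, mem_ofPred_eq, Tm, rot_h]
  constructor
  · intro hw θ
    have := hw (θ - α)
    rw [sub_add_cancel, cos_sub, sin_sub] at this
    refine le_trans (le_of_eq ?_) this
    linear_combination (-(w 0 * cos θ + w 1 * sin θ)) * (sin_sq_add_cos_sq α)
  · intro hw θ
    have := hw (θ + α)
    rw [cos_add, sin_add] at this
    refine le_trans (le_of_eq ?_) this
    ring

lemma vol_bodyE (α : ℝ) : volume.real Γ.bodyE = volume.real (Γ.rot α).body2 := by
  rw [← Γ.body_pre α]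
  unfold Measure.real
  rw [(Tm_mp α).measure_preimage_emb (Tm_emb α)]

lemma rad_bodyE (α : ℝ) (w u : E2) (h0 : u 0 = cos α) (h1 : u 1 = sin α) :
    radFn Γ.bodyE w u = rad2 (Γ.rot α).body2 (Tm α w) (1, 0) := by
  unfold radFn rad2
  congr 1
  ext l
  simp only [mem_ofPred_eq]
  rw [← Γ.body_pre α, mem_preimage]
  have : Tm α (w + l • u) = Tm α w + l • ((1 : ℝ), (0 : ℝ)) := by
    unfold Tm
    ext
    · simp [h0, h1]
      linear_combination l * sin_sq_add_cos_sq α
    · simp [h0, h1]; ring
  rw [this]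

lemma kk_rot (α s t : ℝ) : (Γ.rot α).kk 0 s t = Γ.kk α (s + α) (t + α) := by
  unfold kk rot yc
  simp only [sin_zero, cos_zero]
  rw [show s + α - (t + α) = s - t by ring]
  congr 2
  ring

lemma kk_shift (α : ℝ) : ∫ t in 0..(2 * π), ∫ s in 0..(2 * π), (Γ.rot α).kk 0 s t
    = ∫ t in 0..(2 * π), ∫ s in 0..(2 * π), Γ.kk α s t := by
  have perY : ∀ s, Γ.yc α (s + 2 * π) = Γ.yc α s := fun s => by
    unfold yc; rw [Γ.perX, Γ.perY]
  simp only [kk_rot]
  have per_s : ∀ t, Function.Periodic (fun s => Γ.kk α s t) (2 * π) := fun t s => by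
    simp only [kk]
    rw [Γ.per, perY, show s + 2 * π - t = s - t + 2 * π by ring, cos_add_two_pi]
  have per_t : Function.Periodic (fun t => ∫ s in 0..(2 * π), Γ.kk α s t) (2 * π) := fun t => by
    simp only [kk]
    congr 1; ext s
    rw [Γ.per, perY, show s - (t + 2 * π) = s - t - 2 * π by ring, cos_sub_two_pi]
  have e1 : ∀ t, ∫ s in 0..(2 * π), Γ.kk α (s + α) t = ∫ s in 0..(2 * π), Γ.kk α s t := by
    intro t
    rw [intervalIntegral.integral_comp_add_right (fun s => Γ.kk α s t), zero_add,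
      add_comm (2 * π) α, (per_s t).intervalIntegral_add_eq α 0, zero_add]
  simp only [e1]
  rw [intervalIntegral.integral_comp_add_right (fun t => ∫ s in 0..(2 * π), Γ.kk α s t), zero_add,
      add_comm (2 * π) α, per_t.intervalIntegral_add_eq α 0, zero_add]

theorem int_rad_bodyE (α : ℝ) (u : E2) (h0 : u 0 = cos α) (h1 : u 1 = sin α) :
    ∫ w in Γ.bodyE, radFn Γ.bodyE w u
      = -(1 / 4) * ∫ t in 0..(2 * π), ∫ s in 0..(2 * π), Γ.kk α s t := by
  have e1 : ∫ w in Γ.bodyE, radFn Γ.bodyE w u
      = ∫ w in Tm α ⁻¹' (Γ.rot α).body2, rad2 (Γ.rot α).body2 (Tm α w) (1, 0) := by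
    rw [Γ.body_pre α]
    congr 1; ext w
    exact Γ.rad_bodyE α w u h0 h1
  rw [e1, (Tm_mp α).setIntegral_preimage_emb (Tm_emb α)
    (fun z => rad2 (Γ.rot α).body2 z (1, 0)), int_rad, F_formula2, kk_shift]
  ring

end Crv

lemma exists_angle (u : E2) (hu : ‖u‖ = 1) : ∃ α, u 0 = cos α ∧ u 1 = sin α := by
  have h1 : u 0 ^ 2 + u 1 ^ 2 = 1 := by
    have := EuclideanSpace.norm_sq_eq u
    rw [hu] at this
    simp [Fin.sum_univ_two] at this
    linarith
  have h2 : ‖(⟨u 0, u 1⟩ : ℂ)‖ = 1 := by
    rw [Complex.norm_eq_sqrt_sq_add_sq, h1, sqrt_one]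
  refine ⟨Complex.arg ⟨u 0, u 1⟩, ?_, ?_⟩
  · have := Complex.norm_mul_cos_arg ⟨u 0, u 1⟩
    rw [h2, one_mul] at this
    exact this.symm
  · have := Complex.norm_mul_sin_arg ⟨u 0, u 1⟩
    rw [h2, one_mul] at this
    exact this.symm

end Pool.Agent.Helper91
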