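import Pool.Agent.Helper91.RpQ

open Real MeasureTheory Set Filter Topology intervalIntegral

noncomputable section

namespace Pool.Agent.Helper91

/-! ### covariogram facts -/

lemma cov_zero {n : ℕ} (K : Set (EuclideanSpace ℝ (Fin n))) : covariogram K 0 = volume.real K := by
  unfold covariogram
  congr 1
  ext y; simp

lemma cov_pos {n : ℕ} {K : Set (EuclideanSpace ℝ (Fin n))} (hK : IsBody K)
    {a b : EuclideanSpace ℝ (Fin n)} (ha : a ∈ K) (hb : b ∈ K) {t : ℝ} (ht0 : 0 ≤ t) (ht1 : t < 1) :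
    0 < covariogram K (t • (a - b)) := by
  obtain ⟨hc, hcomp, w, hw⟩ := hK
  unfold covariogram Measure.real
  apply ENNReal.toReal_pos
  · have ho : IsOpen (interior K ∩ {y | y - t • (a - b) ∈ interior K}) :=
      isOpen_interior.inter (isOpen_interior.preimage (by fun_prop))
    have hne : (interior K ∩ {y | y - t • (a - b) ∈ interior K}).Nonempty := by
      refine ⟨(1 - t) • w + t • a, ?_, ?_⟩
      · exact hc.combo_interior_self_mem_interior hw ha (by linarith) ht0 (by ring)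
      · have h2 := hc.combo_interior_self_mem_interior hw hb (by linarith : 0 < 1 - t) ht0 (by ring)
        have e : (1 - t) • w + t • a - t • (a - b) = (1 - t) • w + t • b := by
          rw [smul_sub]; abel
        simp only [mem_ofPred_eq]
        rw [e]; exact h2
    have := ho.measure_pos volume hne
    refine (lt_of_lt_of_le this (measure_mono ?_)).ne'
    rintro y ⟨h1, h2⟩
    have h3 : y - t • (a - b) ∈ interior K := h2
    exact ⟨interior_subset h1, show y - t • (a - b) ∈ K from interior_subset h3⟩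
  · exact ((measure_mono inter_subset_left).trans_lt hcomp.measure_lt_top).ne

lemma cov_ne {n : ℕ} {K : Set (EuclideanSpace ℝ (Fin n))} {x : EuclideanSpace ℝ (Fin n)}
    (h : covariogram K x ≠ 0) : ∃ y, y ∈ K ∧ y - x ∈ K := by
  by_contra hc
  push Not at hc
  apply h
  unfold covariogram
  have : K ∩ {y | y - x ∈ K} = ∅ := by
    ext y
    simp only [mem_inter_iff, mem_ofPred_eq, mem_empty_iff_false, iff_false, not_and]
    exact hc y
  rw [this]; simp

namespace Crv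
variable (Γ Γ' : Crv)

lemma h_cont : Continuous Γ.h := by
  have := Γ.contX; have := Γ.contY
  unfold h; fun_prop

lemma h_per (θ : ℝ) : Γ.h (θ + 2 * π) = Γ.h θ := by
  unfold h; rw [Γ.perX, Γ.perY, cos_add_two_pi, sin_add_two_pi]

lemma body_convex : Convex ℝ Γ.bodyE := by
  intro x hx y hy a b ha hb hab θ
  have h1 := hx θ
  have h2 := hy θ
  simp only [PiLp.add_apply, PiLp.smul_apply, smul_eq_mul]
  have e : (a * x 0 + b * y 0) * cos θ + (a * x 1 + b * y 1) * sin θ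
      = a * (x 0 * cos θ + x 1 * sin θ) + b * (y 0 * cos θ + y 1 * sin θ) := by ring
  rw [e]
  calc _ ≤ a * Γ.h θ + b * Γ.h θ := by gcongr
    _ = Γ.h θ := by rw [← add_mul, hab, one_mul]

lemma body_closed : IsClosed Γ.bodyE := by
  have : Γ.bodyE = ⋂ θ, {w : E2 | w 0 * cos θ + w 1 * sin θ ≤ Γ.h θ} := by
    ext w; simp [bodyE]
  rw [this]
  refine isClosed_iInter fun θ => isClosed_le ?_ continuous_const
  fun_prop

lemma body_bounded : Bornology.IsBounded Γ.bodyE := by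
  obtain ⟨M, hM⟩ : ∃ M, ∀ w ∈ Γ.bodyE, |w 0| ≤ M ∧ |w 1| ≤ M := by
    refine ⟨max (max (Γ.h 0) (Γ.h π)) (max (Γ.h (π / 2)) (Γ.h (-(π / 2)))), fun w hw => ?_⟩
    have h1 := hw 0
    have h2 := hw π
    have h3 := hw (π / 2)
    have h4 := hw (-(π / 2))
    simp only [cos_zero, sin_zero, cos_pi, sin_pi, cos_neg, sin_neg, cos_pi_div_two,
      sin_pi_div_two, mul_one, mul_zero, add_zero, zero_add, mul_neg] at h1 h2 h3 h4
    constructor
    · rw [abs_le]
      have a1 := le_max_left (Γ.h 0) (Γ.h π)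
      have a2 := le_max_right (Γ.h 0) (Γ.h π)
      have a3 := le_max_left (max (Γ.h 0) (Γ.h π)) (max (Γ.h (π / 2)) (Γ.h (-(π / 2))))
      constructor <;> linarith
    · rw [abs_le]
      have a1 := le_max_left (Γ.h (π / 2)) (Γ.h (-(π / 2)))
      have a2 := le_max_right (Γ.h (π / 2)) (Γ.h (-(π / 2)))
      have a3 := le_max_right (max (Γ.h 0) (Γ.h π)) (max (Γ.h (π / 2)) (Γ.h (-(π / 2))))
      constructor <;> linarith
  refine (Metric.isBounded_iff_subset_closedBall (0 : E2)).2 ⟨√(M ^ 2 + M ^ 2), fun w hw => ?_⟩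
  obtain ⟨h1, h2⟩ := hM w hw
  rw [mem_closedBall_zero_iff, EuclideanSpace.norm_eq]
  apply sqrt_le_sqrt
  simp only [Fin.sum_univ_two, norm_eq_abs]
  gcongr

lemma body_interior : (interior Γ.bodyE).Nonempty := by
  -- center
  set w0 : E2 := !₂[(Γ.X 0 + Γ.X π) / 2, (Γ.Y 0 + Γ.Y π) / 2] with hw0
  have e0 : w0 0 = (Γ.X 0 + Γ.X π) / 2 := rfl
  have e1 : w0 1 = (Γ.Y 0 + Γ.Y π) / 2 := rfl
  set m : ℝ → ℝ := fun θ => Γ.h θ - (w0 0 * cos θ + w0 1 * sin θ) with hm
  have mc : Continuous m := by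
    have := Γ.h_cont
    simp only [hm]; fun_prop
  have mC : ∀ θ, m θ = (1 / 2) * (Γ.C θ 0 + Γ.C θ π) := by
    intro θ
    simp only [hm, e0, e1]
    rw [C_eq_h, C_eq_h]; ring
  have mpos : ∀ θ, 0 < m θ := by
    intro θ
    rw [mC]
    have h1 := Γ.C_nonneg θ 0
    have h2 := Γ.C_nonneg θ π
    have h3 : 0 < Γ.C θ 0 ∨ 0 < Γ.C θ π := by
      by_cases ho : Off θ 0
      · exact Or.inl (Γ.C_pos ho)
      · right
        apply Γ.C_pos
        unfold Off at ho ⊢
        push Not at ho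
        rw [sub_zero] at ho
        rw [show (θ - π) / 2 = θ / 2 - π / 2 by ring, sin_sub_pi_div_two]
        intro hc
        have := sin_sq_add_cos_sq (θ / 2)
        rw [ho, neg_eq_zero.1 hc] at this
        norm_num at this
    rcases h3 with h3 | h3 <;> linarith
  obtain ⟨θ0, _, hθ0⟩ := isCompact_Icc.exists_isMinOn (s := Icc 0 (2 * π))
    ⟨0, le_rfl, by positivity⟩ mc.continuousOn
  have hper : Function.Periodic m (2 * π) := fun θ => by
    simp only [hm]
    rw [Γ.h_per, cos_add_two_pi, sin_add_two_pi]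
  have hmin : ∀ θ, m θ0 ≤ m θ := by
    intro θ
    obtain ⟨y, hy, hy2⟩ := hper.exists_mem_Ico₀ (by positivity) θ
    rw [hy2]
    exact hθ0 ⟨hy.1, hy.2.le⟩
  refine ⟨w0, mem_interior.2 ⟨Metric.ball w0 (m θ0), ?_, Metric.isOpen_ball,
    Metric.mem_ball_self (mpos θ0)⟩⟩
  intro w hw θ
  have hd : (w 0 - w0 0) * cos θ + (w 1 - w0 1) * sin θ ≤ m θ0 := by
    have h1 : (w 0 - w0 0) ^ 2 + (w 1 - w0 1) ^ 2 ≤ (m θ0) ^ 2 := by
      rw [Metric.mem_ball, EuclideanSpace.dist_eq] at hw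
      simp only [Fin.sum_univ_two, Real.dist_eq, sq_abs] at hw
      have h5 : 0 ≤ (w 0 - w0 0) ^ 2 + (w 1 - w0 1) ^ 2 := by positivity
      have := sq_sqrt h5
      rw [← this]
      gcongr
    have h2 := sin_sq_add_cos_sq θ
    apply le_of_sq_le_sq _ (mpos θ0).le
    refine le_trans ?_ h1
    nlinarith [sq_nonneg ((w 0 - w0 0) * sin θ - (w 1 - w0 1) * cos θ)]
  have h3 := hmin θ
  simp only [hm] at h3 hd ⊢
  nlinarith

lemma isBody : IsBody Γ.bodyE :=
  ⟨Γ.body_convex, Metric.isCompact_of_isClosed_isBounded Γ.body_closed Γ.body_bounded,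
    Γ.body_interior⟩

lemma vol_pos : 0 < volume.real Γ.bodyE := by
  have h := Γ.isBody
  rw [← cov_zero]
  obtain ⟨w, hw⟩ := h.2.2
  have := cov_pos h (interior_subset hw) (interior_subset hw) (t := 0) le_rfl (by norm_num)
  simpa using this

/-- width -/
def wd (θ : ℝ) : ℝ := Γ.h θ + Γ.h (θ + π)

lemma wd_C (θ : ℝ) : Γ.wd θ = Γ.C θ (θ + π) := by
  unfold wd C h
  rw [cos_add_pi, sin_add_pi]; ring

def pt (t : ℝ) : E2 := !₂[Γ.X t, Γ.Y t]

lemma pt_mem (t : ℝ) : Γ.pt t ∈ Γ.bodyE := fun θ => by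
  have := Γ.curve_mem t θ
  simpa [pt] using this

lemma wd_le (h : ∀ x, covariogram Γ.bodyE x = covariogram Γ'.bodyE x) (θ : ℝ) :
    Γ.wd θ ≤ Γ'.wd θ := by
  have key : ∀ t : ℝ, 0 ≤ t → t < 1 → t * Γ.wd θ ≤ Γ'.wd θ := by
    intro t h0 h1
    have hp := cov_pos Γ.isBody (Γ.pt_mem θ) (Γ.pt_mem (θ + π)) h0 h1
    rw [h] at hp
    obtain ⟨y, hy1, hy2⟩ := cov_ne hp.ne'
    have a1 := hy1 θ
    have a2 := hy2 (θ + π)
    rw [cos_add_pi, sin_add_pi] at a2
    simp only [PiLp.sub_apply, PiLp.smul_apply, smul_eq_mul] at a2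
    have p0 : ∀ s, (Γ.pt s) 0 = Γ.X s := fun s => rfl
    have p1 : ∀ s, (Γ.pt s) 1 = Γ.Y s := fun s => rfl
    rw [p0, p0, p1, p1] at a2
    have e : t * Γ.wd θ = t * (Γ.X θ - Γ.X (θ + π)) * cos θ + t * (Γ.Y θ - Γ.Y (θ + π)) * sin θ := by
      rw [wd_C]; unfold C; ring
    rw [e]
    unfold wd
    linarith
  by_contra hc
  push Not at hc
  have hw' : 0 ≤ Γ'.wd θ := by rw [wd_C]; exact Γ'.C_nonneg _ _
  have hw : 0 < Γ.wd θ := lt_of_le_of_lt hw' hc
  have h2 := key ((Γ'.wd θ / Γ.wd θ + 1) / 2) (by positivity) (by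
    have : Γ'.wd θ / Γ.wd θ < 1 := (div_lt_one hw).2 hc
    linarith)
  have h3 : (Γ'.wd θ / Γ.wd θ + 1) / 2 * Γ.wd θ = (Γ'.wd θ + Γ.wd θ) / 2 := by
    field_simp
  rw [h3] at h2
  linarith

lemma wd_eq (h : ∀ x, covariogram Γ.bodyE x = covariogram Γ'.bodyE x) (θ : ℝ) :
    Γ.wd θ = Γ'.wd θ :=
  le_antisymm (wd_le Γ Γ' h θ) (wd_le Γ' Γ (fun x => (h x).symm) θ)

lemma rho_of_wd {w : ℝ} (h : ∀ θ, Γ.wd θ = w) (θ : ℝ) : Γ.ρ θ + Γ.ρ (θ + π) = w := by
  have hX1 := Γ.hX θ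
  have dC : ∀ θ, HasDerivAt Γ.wd (-(Γ.Q θ (θ + π))) θ := by
    intro θ
    have h1 := (((Γ.hX θ).sub ((Γ.hX (θ + π)).comp_add_const θ π)).mul (hasDerivAt_cos θ)).add
      (((Γ.hY θ).sub ((Γ.hY (θ + π)).comp_add_const θ π)).mul (hasDerivAt_sin θ))
    refine (h1.congr_of_eventuallyEq (Eventually.of_forall fun x => ?_)).congr_deriv ?_
    · rw [wd_C]; rfl
    · simp only [Pi.sub_apply]
      rw [sin_add_pi, cos_add_pi]; unfold Q; ring
  have hQ : ∀ θ, Γ.Q θ (θ + π) = 0 := by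
    intro θ
    have h1 := dC θ
    have h2 : HasDerivAt Γ.wd 0 θ := by
      have : Γ.wd = fun _ => w := by ext x; exact h x
      rw [this]; exact hasDerivAt_const _ _
    have := h1.unique h2
    linarith
  have dQ : HasDerivAt (fun θ => Γ.Q θ (θ + π)) (Γ.C θ (θ + π) - Γ.ρ θ - Γ.ρ (θ + π)) θ := by
    have h1 := (((Γ.hX θ).sub ((Γ.hX (θ + π)).comp_add_const θ π)).mul (hasDerivAt_sin θ)).sub
      (((Γ.hY θ).sub ((Γ.hY (θ + π)).comp_add_const θ π)).mul (hasDerivAt_cos θ))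
    refine (h1.congr_of_eventuallyEq (Eventually.of_forall fun x => rfl)).congr_deriv ?_
    simp only [Pi.sub_apply]
    rw [sin_add_pi, cos_add_pi]; unfold C
    linear_combination (-Γ.ρ θ - Γ.ρ (θ + π)) * (sin_sq_add_cos_sq θ)
  have h3 : HasDerivAt (fun θ => Γ.Q θ (θ + π)) 0 θ := by
    have : (fun θ => Γ.Q θ (θ + π)) = fun _ => 0 := by ext x; exact hQ x
    rw [this]; exact hasDerivAt_const _ _
  have h4 := dQ.unique h3
  rw [← wd_C, h] at h4
  linarith

end Crv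

end Pool.Agent.Helper91
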