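import Pool.Agent.Helper91.RpR

open Real MeasureTheory Set Filter Topology intervalIntegral

noncomputable section

namespace Pool.Agent.Helper91

lemma cos3_poly (x : ℝ) : cos (3 * x) = 4 * cos x ^ 3 - 3 * cos x := cos_three_mul x

lemma int_per_sin {f : ℝ → ℝ} (hf : Continuous f) (hp : ∀ x, f (x + π) = f x) :
    ∫ x in 0..(2 * π), f x * sin x = 0 := by
  have hc : Continuous fun x : ℝ => f x * sin x := by fun_prop
  rw [← intervalIntegral.integral_add_adjacent_intervals (b := π) (hc.intervalIntegrable _ _)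
      (hc.intervalIntegrable _ _)]
  have := intervalIntegral.integral_comp_add_right (a := 0) (b := π) (fun x => f x * sin x) π
  rw [zero_add, show π + π = 2 * π by ring] at this
  rw [← this, ← intervalIntegral.integral_add (hc.intervalIntegrable _ _)
    ((by fun_prop : Continuous fun x => f (x + π) * sin (x + π)).intervalIntegrable _ _)]
  have : ∀ x, f x * sin x + f (x + π) * sin (x + π) = 0 := fun x => by
    rw [hp, sin_add_pi]; ring
  simp only [this, intervalIntegral.integral_zero]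

lemma int_per_cos {f : ℝ → ℝ} (hf : Continuous f) (hp : ∀ x, f (x + π) = f x) :
    ∫ x in 0..(2 * π), f x * cos x = 0 := by
  have hc : Continuous fun x : ℝ => f x * cos x := by fun_prop
  rw [← intervalIntegral.integral_add_adjacent_intervals (b := π) (hc.intervalIntegrable _ _)
      (hc.intervalIntegrable _ _)]
  have := intervalIntegral.integral_comp_add_right (a := 0) (b := π) (fun x => f x * cos x) π
  rw [zero_add, show π + π = 2 * π by ring] at this
  rw [← this, ← intervalIntegral.integral_add (hc.intervalIntegrable _ _)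
    ((by fun_prop : Continuous fun x => f (x + π) * cos (x + π)).intervalIntegrable _ _)]
  have : ∀ x, f x * cos x + f (x + π) * cos (x + π) = 0 := fun x => by
    rw [hp, cos_add_pi]; ring
  simp only [this, intervalIntegral.integral_zero]

lemma sc3_deriv (x : ℝ) : HasDerivAt (fun x => sin x * cos x ^ 3) (cos (3 * x) * cos x) x := by
  refine ((hasDerivAt_sin x).mul ((hasDerivAt_cos x).pow 3)).congr_deriv ?_
  rw [cos3_poly]
  simp only [Pi.pow_apply]
  push_cast
  linear_combination (-3 * cos x ^ 2) * (sin_sq_add_cos_sq x)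

lemma c4_deriv (x : ℝ) :
    HasDerivAt (fun x => -cos x ^ 4 + 3 / 2 * cos x ^ 2) (cos (3 * x) * sin x) x := by
  refine (((hasDerivAt_cos x).pow 4).neg.add (((hasDerivAt_cos x).pow 2).const_mul (3 / 2))).congr_deriv ?_
  rw [cos3_poly]
  push_cast
  ring

lemma int_cos3_cos : ∫ x in 0..(2 * π), cos (3 * x) * cos x = 0 := by
  rw [integral_eq_sub_of_hasDerivAt (f := fun x => sin x * cos x ^ 3) (fun x _ => sc3_deriv x)
    ((by fun_prop : Continuous fun x : ℝ => cos (3 * x) * cos x).intervalIntegrable _ _)]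
  simp

lemma int_cos3_sin : ∫ x in 0..(2 * π), cos (3 * x) * sin x = 0 := by
  rw [integral_eq_sub_of_hasDerivAt (f := fun x => -cos x ^ 4 + 3 / 2 * cos x ^ 2)
    (fun x _ => c4_deriv x)
    ((by fun_prop : Continuous fun x : ℝ => cos (3 * x) * sin x).intervalIntegrable _ _)]
  simp

section
variable {η0 : ℝ} {g : ℝ → ℝ}

lemma rho_sin (h : GB η0 g) : ∫ x in 0..(2 * π), rhoG η0 g x * sin x = 0 := by
  have hg : Continuous g := cont_of_lip h.lip
  have e : ∀ x, rhoG η0 g x * sin x = (1 + g x) * sin x + η0 * (cos (3 * x) * sin x) := fun x => by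
    unfold rhoG; ring
  simp only [e]
  rw [intervalIntegral.integral_add
    ((by fun_prop : Continuous fun x => (1 + g x) * sin x).intervalIntegrable _ _)
    ((by fun_prop : Continuous fun x => η0 * (cos (3 * x) * sin x)).intervalIntegrable _ _),
    int_per_sin (by fun_prop) (fun x => by rw [h.per]), intervalIntegral.integral_const_mul,
    int_cos3_sin]
  ring

lemma rho_cos (h : GB η0 g) : ∫ x in 0..(2 * π), rhoG η0 g x * cos x = 0 := by
  have hg : Continuous g := cont_of_lip h.lip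
  have e : ∀ x, rhoG η0 g x * cos x = (1 + g x) * cos x + η0 * (cos (3 * x) * cos x) := fun x => by
    unfold rhoG; ring
  simp only [e]
  rw [intervalIntegral.integral_add
    ((by fun_prop : Continuous fun x => (1 + g x) * cos x).intervalIntegrable _ _)
    ((by fun_prop : Continuous fun x => η0 * (cos (3 * x) * cos x)).intervalIntegrable _ _),
    int_per_cos (by fun_prop) (fun x => by rw [h.per]), intervalIntegral.integral_const_mul,
    int_cos3_cos]
  ring

lemma rho_pos {c : Cst} (P : Par c η0) (h : GB η0 g) (x : ℝ) : 0 < rhoG η0 g x := by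
  have h1 := h.good.bd x
  have h2 := P.l1
  have h3 := c.r0l
  rw [abs_le] at h1
  linarith

/-- the constructed curve -/
def Gam {c : Cst} (P : Par c η0) (h : GB η0 g) : Crv :=
  Crv.ofRho (rhoG η0 g) h.good.cont (rho_pos P h) h.per2 (rho_sin h) (rho_cos h)

lemma fix_eq (hT : ∀ x, TT η0 g x = g x) (h : GB η0 g) (θ : ℝ) :
    -(2 / 3) * (rhoG η0 g θ ^ 3 + rhoG η0 g (θ + π) ^ 3)
      + (qq (rhoG η0 g) θ + qq (rhoG η0 g) (θ + π)) = -(4 / 3) := by
  have h1 := hT θ
  unfold TT at h1
  have h2 : rhoG η0 g (θ + π) = 1 + g θ - η0 * cos (3 * θ) := by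
    unfold rhoG
    rw [h.per, show 3 * (θ + π) = 3 * θ + π + 2 * π by ring, cos_add_two_pi, cos_add_pi]; ring
  have h3 : rhoG η0 g θ = 1 + g θ + η0 * cos (3 * θ) := rfl
  rw [h2]
  nth_rewrite 1 [h3]
  linear_combination 4 * h1

end

/-! ### the disc -/

lemma vv_one (σ δ : ℝ) : vv (fun _ => 1) σ δ = v0 := by
  unfold vv pN rN v0
  rw [pL_const _ (cl_nonneg _) (cl_le _), rL_const]
  simp

lemma XiN_v0 : XiN v0 = 0 := by
  unfold XiN UsN v0
  norm_num

lemma qq_one (θ : ℝ) : qq (fun _ => 1) θ = 0 := by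
  unfold qq itg
  simp only [vv_one, XiN_v0, mul_zero, intervalIntegral.integral_zero]

lemma good_one {η : ℝ} (h : 0 ≤ η) : Good η (fun _ => 1) :=
  ⟨fun x => by simp [h], fun x y => by simp; positivity⟩

namespace Crv

lemma kk_disc {r : ℝ} (hr : 0 < r) (α s t : ℝ) :
    (disc r hr).kk α s t = r ^ 3 * (disc 1 one_pos).kk α s t := by
  unfold kk yc disc
  simp only
  have : -(r * cos s * sin α) + r * sin s * cos α - (-(r * cos t * sin α) + r * sin t * cos α)
      = r * (-(1 * cos s * sin α) + 1 * sin s * cos α - (-(1 * cos t * sin α) + 1 * sin t * cos α)) := by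
    ring
  rw [this, abs_mul, abs_of_pos hr]; ring

lemma int_kk_disc {r : ℝ} (hr : 0 < r) (α : ℝ) :
    ∫ t in 0..(2 * π), ∫ s in 0..(2 * π), (disc r hr).kk α s t
      = r ^ 3 * ∫ t in 0..(2 * π), ∫ s in 0..(2 * π), (disc 1 one_pos).kk α s t := by
  simp only [kk_disc hr, intervalIntegral.integral_const_mul]

lemma vol_E (Γ : Crv) : volume.real Γ.bodyE = ∫ x in (-(π / 2))..(3 * π / 2), Γ.ρ x * sin x * Γ.Y x := by
  rw [Γ.vol_bodyE 0, vol_formula]
  congr 1; ext x
  simp [fs, rot]

lemma int_sin_sq : ∫ x in (-(π / 2))..(3 * π / 2), sin x ^ 2 = π := by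
  rw [integral_sin_sq]
  have h1 : cos (3 * π / 2) = 0 := by
    rw [show 3 * π / 2 = π / 2 + π by ring, cos_add_pi]; simp
  rw [cos_neg, cos_pi_div_two, h1]; ring

lemma vol_disc {r : ℝ} (hr : 0 < r) : volume.real (disc r hr).bodyE = π * r ^ 2 := by
  rw [vol_E]
  have e : ∀ x, (disc r hr).ρ x * sin x * (disc r hr).Y x = r ^ 2 * sin x ^ 2 := fun x => by
    simp only [disc]; ring
  simp only [e]
  rw [intervalIntegral.integral_const_mul, int_sin_sq]; ring

lemma wd_disc {r : ℝ} (hr : 0 < r) (θ : ℝ) : (disc r hr).wd θ = 2 * r := by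
  unfold wd h disc
  simp only
  rw [cos_add_pi, sin_add_pi]
  linear_combination (2 * r) * (sin_sq_add_cos_sq θ)

lemma disc_ball {r : ℝ} (hr : 0 < r) : (disc r hr).bodyE = Metric.closedBall (0 : E2) r := by
  have hh : ∀ θ, (disc r hr).h θ = r := fun θ => by
    unfold h disc
    simp only
    linear_combination r * (sin_sq_add_cos_sq θ)
  ext w
  have hn : ‖w‖ ^ 2 = w 0 ^ 2 + w 1 ^ 2 := by
    have := EuclideanSpace.norm_sq_eq w
    simpa [Fin.sum_univ_two] using this
  rw [mem_closedBall_zero_iff]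
  constructor
  · intro hw
    by_cases h0 : w = 0
    · rw [h0, norm_zero]; exact hr.le
    · have hp : 0 < ‖w‖ := norm_pos_iff.2 h0
      obtain ⟨α, h1, h2⟩ := exists_angle (‖w‖⁻¹ • w) (by
        rw [norm_smul, norm_inv, norm_norm]; field_simp)
      have := hw α
      rw [hh, ← h1, ← h2] at this
      simp only [PiLp.smul_apply, smul_eq_mul] at this
      have e : w 0 * (‖w‖⁻¹ * w 0) + w 1 * (‖w‖⁻¹ * w 1) = ‖w‖ := by
        have : w 0 * (‖w‖⁻¹ * w 0) + w 1 * (‖w‖⁻¹ * w 1) = ‖w‖⁻¹ * (w 0 ^ 2 + w 1 ^ 2) := by ring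
        rw [this, ← hn]; field_simp
      rwa [e] at this
  · intro hw θ
    rw [hh]
    refine le_trans ?_ hw
    apply le_of_sq_le_sq _ (norm_nonneg _)
    rw [hn]
    have h2 := sin_sq_add_cos_sq θ
    nlinarith [sq_nonneg (w 0 * sin θ - w 1 * cos θ)]

/-- radial mean body of order one -/
lemma radialMean_one (Γ : Crv) (α : ℝ) (u : E2) (h0 : u 0 = cos α) (h1 : u 1 = sin α) :
    radialMean 1 Γ.bodyE u = (volume.real Γ.bodyE)⁻¹ *
      (-(1 / 4) * ∫ t in 0..(2 * π), ∫ s in 0..(2 * π), Γ.kk α s t) := by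
  unfold radialMean
  rw [if_neg one_ne_zero]
  simp only [rpow_one, div_one]
  rw [Γ.int_rad_bodyE α u h0 h1]

end Crv

lemma anti_deriv (r e k x : ℝ) : HasDerivAt (fun x =>
      r ^ 2 * ((x - sin x * cos x) / 2)
      + r * e * (2 / 3 * sin x ^ 3 - sin x ^ 5)
      + e ^ 2 * (-(sin x * cos x ^ 7) / 2 + 7 / 12 * (sin x * cos x ^ 5) - 1 / 48 * (sin x * cos x ^ 3)
        - 1 / 32 * (x + sin x * cos x))
      + k * (r * -cos x + e * (-cos x ^ 4 + 3 / 2 * cos x ^ 2)))
    ((r + e * cos (3 * x)) * sin x * (r * sin x + e * (sin x * cos x ^ 3) + k)) x := by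
  have s := hasDerivAt_sin x
  have c := hasDerivAt_cos x
  have i := hasDerivAt_id x
  have t1 := ((i.sub (s.mul c)).div_const 2).const_mul (r ^ 2)
  have t2 := (((s.pow 3).const_mul (2 / 3)).sub (s.pow 5)).const_mul (r * e)
  have t3 := ((((((s.mul (c.pow 7)).neg).div_const 2).add ((s.mul (c.pow 5)).const_mul (7 / 12))).sub
    ((s.mul (c.pow 3)).const_mul (1 / 48))).sub ((i.add (s.mul c)).const_mul (1 / 32))).const_mul (e ^ 2)
  have t4 := ((c.neg.const_mul r).add (((c.pow 4).neg.add ((c.pow 2).const_mul (3 / 2))).const_mul e)).const_mul k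
  have t := ((t1.add t2).add t3).add t4
  refine (t.congr_of_eventuallyEq (Eventually.of_forall fun y => ?_)).congr_deriv ?_
  · simp only [Pi.add_apply, Pi.sub_apply, Pi.mul_apply, Pi.pow_apply, Pi.neg_apply, id]
  · simp only [Pi.pow_apply]
    rw [cos3_poly]
    have hs : sin x ^ 2 = 1 - cos x ^ 2 := by linarith [sin_sq_add_cos_sq x]
    have h3 : sin x ^ 3 = sin x * (1 - cos x ^ 2) := by rw [← hs]; ring
    have h4 : sin x ^ 4 = (1 - cos x ^ 2) ^ 2 := by rw [← hs]; ring
    push_cast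
    ring_nf
    simp only [hs, h3, h4]
    ring

lemma vol_const {r e k : ℝ} :
    ∫ x in (-(π / 2))..(3 * π / 2), (r + e * cos (3 * x)) * sin x * (r * sin x + e * (sin x * cos x ^ 3) + k)
      = π * r ^ 2 - e ^ 2 * π / 16 := by
  rw [integral_eq_sub_of_hasDerivAt (fun x _ => anti_deriv r e k x)
    ((by fun_prop : Continuous fun x : ℝ =>
      (r + e * cos (3 * x)) * sin x * (r * sin x + e * (sin x * cos x ^ 3) + k)).intervalIntegrable _ _)]
  have h1 : cos (3 * π / 2) = 0 := by
    rw [show 3 * π / 2 = π / 2 + π by ring, cos_add_pi]; simp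
  have h2 : sin (3 * π / 2) = -1 := by
    rw [show 3 * π / 2 = π / 2 + π by ring, sin_add_pi]; simp
  rw [h1, h2, cos_neg, sin_neg, cos_pi_div_two, sin_pi_div_two]
  ring

end Pool.Agent.Helper91
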